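import Mathlib

namespace Pool.Agent.Lib.MP_9afe8f_co

/-- Euclidean length of the straight segment that represents an edge, when the vertices are
placed at the integer points `p v`. -/
noncomputable def len {V : Type} (p : V → ℤ × ℤ) : Sym2 V → ℝ :=
  Sym2.lift ⟨fun x y => Real.sqrt (((p x).1 - (p y).1 : ℝ) ^ 2 + ((p x).2 - (p y).2 : ℝ) ^ 2),
    fun x y => by
      simp only []
      rw [show ((p x).1 - (p y).1 : ℝ) ^ 2 = ((p y).1 - (p x).1 : ℝ) ^ 2 by ring,
        show ((p x).2 - (p y).2 : ℝ) ^ 2 = ((p y).2 - (p x).2 : ℝ) ^ 2 by ring]⟩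

open Classical in
/-- total Euclidean length of the edges of a graph -/
noncomputable def totalLength {V : Type} [Fintype V] (p : V → ℤ × ℤ) (G : SimpleGraph V) : ℝ :=
  ∑ e ∈ G.edgeFinset, len p e

/-- `p` is a minimum weight drawing of the tree `T`: the placement is injective and `T` is a
minimum spanning tree of the complete graph on the placed points, i.e. every tree on the same
vertex set has total Euclidean length at least that of `T`. -/
def IsMinWeightDrawing {V : Type} [Fintype V] (T : SimpleGraph V) (p : V → ℤ × ℤ) : Prop :=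
  Function.Injective p ∧ ∀ T' : SimpleGraph V, T'.IsTree → totalLength p T ≤ totalLength p T'

/-- all vertices lie at points of `{1, …, W} × {1, …, H}` -/
def InGrid {V : Type} (p : V → ℤ × ℤ) (W H : ℕ) : Prop :=
  ∀ v, 1 ≤ (p v).1 ∧ (p v).1 ≤ W ∧ 1 ≤ (p v).2 ∧ (p v).2 ≤ H

/-- `T` has a minimum weight grid drawing of size `W × H` -/
def HasGridDrawing {V : Type} [Fintype V] (T : SimpleGraph V) (W H : ℕ) : Prop :=
  ∃ p : V → ℤ × ℤ, IsMinWeightDrawing T p ∧ InGrid p W H

end Pool.Agent.Lib.MP_9afe8f_co
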