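import Mathlib

namespace Pool.Agent.Lib.MP_9afe8f_co

open scoped NNReal

/-- **Contraction lemma.** `β` is an ultrametric-like function; the vertices `v ≠ ρ` carry
weights `w v` which are at most `β v x` for every `x ≠ v` that is not deeper than `v`. Then
every list of edges that connects all vertices of `S` has total `β`-weight at least
`∑ v ∈ S \ {ρ}, w v`. -/
theorem contraction {V : Type*} [DecidableEq V] (ρ : V) (dep : V → ℕ) (β : V → V → ℝ≥0)
    (w : V → ℝ≥0) (hself : ∀ x, β x x = 0) (hsymm : ∀ x y, β x y = β y x)
    (hultra : ∀ x y z, β x z ≤ max (β x y) (β y z))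
    (hdepρ : ∀ v, dep ρ ≤ dep v)
    (hw : ∀ v x, v ≠ ρ → x ≠ v → dep x ≤ dep v → w v ≤ β v x) :
    ∀ (k : ℕ) (S : Finset V), S.card = k → ρ ∈ S → ∀ L : List (V × V),
      (∀ e ∈ L, e.1 ∈ S ∧ e.2 ∈ S) →
      (∀ x ∈ S, Relation.EqvGen (fun a b => (a, b) ∈ L) x ρ) →
      ∑ v ∈ S.erase ρ, w v ≤ (L.map (fun e => β e.1 e.2)).sum := by
  intro k
  induction k with
  | zero =>
    intro S hS hρ
    rw [Finset.card_eq_zero] at hS
    subst hS
    simp at hρ
  | succ k ih =>
    intro S hS hρ L hL hconn
    by_cases hne : (S.erase ρ).Nonempty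
    · obtain ⟨v, hv, hmax⟩ := Finset.exists_max_image _ dep hne
      have hvS : v ∈ S := Finset.mem_of_mem_erase hv
      have hvρ : v ≠ ρ := Finset.ne_of_mem_erase hv
      -- an edge leaving `v`
      have hex : ∃ e ∈ L, (e.1 = v ∧ e.2 ≠ v) ∨ (e.2 = v ∧ e.1 ≠ v) := by
        by_contra hcon
        push Not at hcon
        have key : ∀ a b, Relation.EqvGen (fun a b => (a, b) ∈ L) a b → (a = v ↔ b = v) := by
          intro a b hab
          induction hab with
          | rel a b h =>
            have := hcon (a, b) h
            simp only at this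
            constructor
            · intro h1; exact this.1 h1
            · intro h1; exact this.2 h1
          | refl a => exact Iff.rfl
          | symm a b _ ih => exact ih.symm
          | trans a b c _ _ ih1 ih2 => exact ih1.trans ih2
        have := (key v ρ (hconn v hvS)).1 rfl
        exact hvρ this.symm
      -- choose the one with the least weight
      obtain ⟨e0, he0, hmin⟩ : ∃ e0 ∈ L, ((e0.1 = v ∧ e0.2 ≠ v) ∨ (e0.2 = v ∧ e0.1 ≠ v)) ∧
          ∀ e ∈ L, ((e.1 = v ∧ e.2 ≠ v) ∨ (e.2 = v ∧ e.1 ≠ v)) → β e0.1 e0.2 ≤ β e.1 e.2 := by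
        have hfin : (L.toFinset.filter
            (fun e => (e.1 = v ∧ e.2 ≠ v) ∨ (e.2 = v ∧ e.1 ≠ v))).Nonempty := by
          obtain ⟨e, he, h⟩ := hex
          exact ⟨e, Finset.mem_filter.2 ⟨List.mem_toFinset.2 he, h⟩⟩
        obtain ⟨e0, he0, hmin⟩ := Finset.exists_min_image _ (fun e => β e.1 e.2) hfin
        rw [Finset.mem_filter, List.mem_toFinset] at he0
        exact ⟨e0, he0.1, he0.2, fun e he h =>
          hmin e (Finset.mem_filter.2 ⟨List.mem_toFinset.2 he, h⟩)⟩
      -- the other endpoint
      obtain ⟨x1, hx1S, hx1v, hβ, he0or⟩ : ∃ x1, x1 ∈ S ∧ x1 ≠ v ∧ β v x1 = β e0.1 e0.2 ∧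
          (e0 = (v, x1) ∨ e0 = (x1, v)) := by
        rcases hmin.1 with ⟨h1, h2⟩ | ⟨h1, h2⟩
        · exact ⟨e0.2, (hL e0 he0).2, h2, by rw [h1], Or.inl (Prod.ext h1 rfl)⟩
        · exact ⟨e0.1, (hL e0 he0).1, h2, by rw [hsymm, h1], Or.inr (Prod.ext rfl h1)⟩
      set f : V → V := fun x => if x = v then x1 else x with hf
      have hfv : f v = x1 := by simp [hf]
      have hfne : ∀ x, x ≠ v → f x = x := by intro x hx; simp [hf, hx]
      set L' := (L.erase e0).map (fun e => (f e.1, f e.2)) with hL'
      have hfmem : ∀ x ∈ S, f x ∈ S.erase v := by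
        intro x hx
        by_cases h : x = v
        · subst h; rw [hfv]; exact Finset.mem_erase.2 ⟨hx1v, hx1S⟩
        · rw [hfne x h]; exact Finset.mem_erase.2 ⟨h, hx⟩
      have hβf : ∀ e ∈ L, β (f e.1) (f e.2) ≤ β e.1 e.2 := by
        intro e he
        by_cases h1 : e.1 = v
        · by_cases h2 : e.2 = v
          · rw [h1, h2, hfv, hself]; exact zero_le
          · rw [h1, hfv, hfne _ h2]
            refine (hultra x1 v e.2).trans ?_
            have h3 := hmin.2 e he (Or.inl ⟨h1, h2⟩)
            rw [h1] at h3
            rw [max_le_iff]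
            refine ⟨?_, le_rfl⟩
            rw [hsymm, hβ]; exact h3
        · by_cases h2 : e.2 = v
          · rw [h2, hfv, hfne _ h1]
            refine (hultra e.1 v x1).trans ?_
            have h3 := hmin.2 e he (Or.inr ⟨h2, h1⟩)
            rw [h2] at h3
            rw [max_le_iff]
            refine ⟨le_rfl, ?_⟩
            rw [hβ]; exact h3
          · rw [hfne _ h1, hfne _ h2]
      have hih := ih (S.erase v) (by rw [Finset.card_erase_of_mem hvS, hS]; rfl)
        (Finset.mem_erase.2 ⟨hvρ.symm, hρ⟩) L' (by
          intro e he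
          rw [hL', List.mem_map] at he
          obtain ⟨e', he', rfl⟩ := he
          have he'' := List.mem_of_mem_erase he'
          exact ⟨hfmem _ (hL e' he'').1, hfmem _ (hL e' he'').2⟩) (by
          intro x hx
          have hx' := Finset.mem_of_mem_erase hx
          have hxv := Finset.ne_of_mem_erase hx
          have key : ∀ a b, Relation.EqvGen (fun a b => (a, b) ∈ L) a b →
              Relation.EqvGen (fun a b => (a, b) ∈ L') (f a) (f b) := by
            intro a b hab
            induction hab with
            | rel a b h =>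
              by_cases hab : (a, b) = e0
              · have hfab : f a = f b := by
                  rcases he0or with h4 | h4
                  · rw [h4] at hab
                    have h5 : a = v := congrArg Prod.fst hab
                    have h6 : b = x1 := congrArg Prod.snd hab
                    rw [h5, h6, hfv, hfne _ hx1v]
                  · rw [h4] at hab
                    have h5 : a = x1 := congrArg Prod.fst hab
                    have h6 : b = v := congrArg Prod.snd hab
                    rw [h5, h6, hfv, hfne _ hx1v]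
                rw [hfab]
                exact Relation.EqvGen.refl _
              · apply Relation.EqvGen.rel
                rw [hL', List.mem_map]
                exact ⟨(a, b), (List.mem_erase_of_ne hab).2 h, rfl⟩
            | refl a => exact Relation.EqvGen.refl _
            | symm a b _ ih => exact Relation.EqvGen.symm _ _ ih
            | trans a b c _ _ ih1 ih2 => exact Relation.EqvGen.trans _ _ _ ih1 ih2
          have := key x ρ (hconn x hx')
          rw [hfne x hxv, hfne ρ hvρ.symm] at this
          exact this)
      have hsum1 : ∑ u ∈ S.erase ρ, w u = w v + ∑ u ∈ (S.erase v).erase ρ, w u := by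
        rw [← Finset.add_sum_erase (S.erase ρ) w hv, Finset.erase_right_comm]
      have hsum2 : (L.map (fun e => β e.1 e.2)).sum =
          β e0.1 e0.2 + ((L.erase e0).map (fun e => β e.1 e.2)).sum := by
        have hp := List.perm_cons_erase he0
        rw [(hp.map _).sum_eq]
        simp
      have hsum3 : (L'.map (fun e => β e.1 e.2)).sum ≤
          ((L.erase e0).map (fun e => β e.1 e.2)).sum := by
        rw [hL', List.map_map]
        apply List.sum_le_sum
        intro e he
        exact hβf e (List.mem_of_mem_erase he)
      rw [hsum1, hsum2]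
      apply add_le_add
      · rw [← hβ]
        by_cases hx1ρ : x1 = ρ
        · apply hw v x1 hvρ hx1v
          rw [hx1ρ]
          exact hdepρ v
        · exact hw v x1 hvρ hx1v (hmax x1 (Finset.mem_erase.2 ⟨hx1ρ, hx1S⟩))
      · exact hih.trans hsum3
    · rw [Finset.not_nonempty_iff_eq_empty] at hne
      rw [hne, Finset.sum_empty]
      exact zero_le

end Pool.Agent.Lib.MP_9afe8f_co
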