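import Pool.Agent.Lib.MP_9afe8f_co.Size
import Pool.Agent.Lib.MP_9afe8f_co.MST
import Pool.Agent.Lib.MP_9afe8f_co.Defs

namespace Pool.Agent.Lib.MP_9afe8f_co

open scoped NNReal
open Classical

lemma len_mk {V : Type} (p : V → ℤ × ℤ) (x y : V) :
    len p s(x, y) = Real.sqrt (((p x).1 - (p y).1 : ℝ) ^ 2 + ((p x).2 - (p y).2 : ℝ) ^ 2) := rfl

lemma len_nonneg {V : Type} (p : V → ℤ × ℤ) (e : Sym2 V) : 0 ≤ len p e := by
  induction e with
  | _ x y => rw [len_mk]; exact Real.sqrt_nonneg _

/-- integer point as a complex number -/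
noncomputable def toC (q : ℤ × ℤ) : ℂ := ⟨q.1, q.2⟩

lemma len_eq_norm {V : Type} (p : V → ℤ × ℤ) (x y : V) :
    len p s(x, y) = ‖toC (p x) - toC (p y)‖ := by
  rw [len_mk, Complex.norm_eq_sqrt_sq_add_sq]
  simp [toC]

/-- minimum spanning trees from the cut property, rooted form -/
theorem isMin_of_cut {V : Type} [Fintype V] (R : Rooted V) (T : SimpleGraph V)
    (hadj : ∀ x y, T.Adj x y → (x ≠ R.ρ ∧ R.π x = y) ∨ (y ≠ R.ρ ∧ R.π y = x))
    (l : Sym2 V → ℝ) (hl : ∀ e, 0 ≤ l e)
    (hcut : ∀ c x y, c ≠ R.ρ → R.Desc c x → ¬ R.Desc c y → l s(c, R.π c) ≤ l s(x, y))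
    (T' : SimpleGraph V) (hT' : T'.Connected) :
    ∑ e ∈ T.edgeFinset, l e ≤ ∑ e ∈ T'.edgeFinset, l e := by
  set w : V → ℝ≥0 := fun c => (l s(c, R.π c)).toNNReal with hw
  set sep : V → V → Finset V := fun x y =>
    Finset.univ.filter (fun c => c ≠ R.ρ ∧ ¬ (R.Desc c x ↔ R.Desc c y)) with hsep
  set β : V → V → ℝ≥0 := fun x y => (sep x y).sup w with hβ
  have hsepsymm : ∀ x y, sep x y = sep y x := by
    intro x y
    rw [hsep]
    simp only
    apply Finset.filter_congr
    intro c _
    rw [iff_comm (a := R.Desc c x)]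
  have hβle : ∀ x y, ((β x y : ℝ≥0) : ℝ) ≤ l s(x, y) := by
    intro x y
    have h1 : β x y ≤ (l s(x, y)).toNNReal := by
      apply Finset.sup_le
      intro c hc
      rw [Finset.mem_filter] at hc
      obtain ⟨_, hcρ, hne⟩ := hc
      apply Real.toNNReal_le_toNNReal
      by_cases h2 : R.Desc c x
      · have h3 : ¬ R.Desc c y := fun h3 => hne ⟨fun _ => h3, fun _ => h2⟩
        exact hcut c x y hcρ h2 h3
      · have h3 : R.Desc c y := by
          by_contra h3
          exact hne ⟨fun h => absurd h h2, fun h => absurd h h3⟩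
        rw [Sym2.eq_swap (a := x)]
        exact hcut c y x hcρ h3 h2
    calc ((β x y : ℝ≥0) : ℝ) ≤ (((l s(x, y)).toNNReal : ℝ≥0) : ℝ) := NNReal.coe_le_coe.2 h1
      _ = l s(x, y) := Real.coe_toNNReal _ (hl _)
  -- the list of edges of `T'`
  set L : List (V × V) := T'.edgeFinset.toList.map (fun e => Quot.out e) with hL
  have hLmem : ∀ a b, T'.Adj a b → (a, b) ∈ L ∨ (b, a) ∈ L := by
    intro a b hab
    have h1 : s(a, b) ∈ T'.edgeFinset := by
      rw [SimpleGraph.mem_edgeFinset, SimpleGraph.mem_edgeSet]; exact hab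
    have h2 : (Quot.out (s(a, b)) : V × V) ∈ L := by
      rw [hL, List.mem_map]
      exact ⟨s(a, b), Finset.mem_toList.2 h1, rfl⟩
    have h3 : Sym2.mk (Quot.out (s(a, b)) : V × V).1 (Quot.out (s(a, b)) : V × V).2 = s(a, b) :=
      Quot.out_eq _
    rw [Sym2.eq_iff] at h3
    rcases h3 with h3 | h3
    · left
      have : (Quot.out (s(a, b)) : V × V) = (a, b) := Prod.ext h3.1 h3.2
      rw [← this]; exact h2
    · right
      have : (Quot.out (s(a, b)) : V × V) = (b, a) := Prod.ext h3.1 h3.2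
      rw [← this]; exact h2
  have hconn : ∀ x ∈ (Finset.univ : Finset V),
      Relation.EqvGen (fun a b => (a, b) ∈ L) x R.ρ := by
    intro x _
    have hwalk : ∀ (a b : V) (wk : T'.Walk a b), Relation.EqvGen (fun a b => (a, b) ∈ L) a b := by
      intro a b wk
      induction wk with
      | nil => exact Relation.EqvGen.refl _
      | cons hab _ ih =>
        refine Relation.EqvGen.trans _ _ _ ?_ ih
        rcases hLmem _ _ hab with h | h
        · exact Relation.EqvGen.rel _ _ h
        · exact Relation.EqvGen.symm _ _ (Relation.EqvGen.rel _ _ h)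
    obtain ⟨wk⟩ := hT'.preconnected x R.ρ
    exact hwalk _ _ wk
  have key := contraction R.ρ R.dep β w (by
      intro x
      have : sep x x = ∅ := by
        rw [hsep]; simp
      rw [hβ]; simp only; rw [this]; simp) (by
      intro x y
      rw [hβ]; simp only; rw [hsepsymm x y]) (by
      intro x y z
      rw [hβ]; simp only
      rw [← Finset.sup_union]
      apply Finset.sup_mono
      intro c hc
      rw [Finset.mem_union, Finset.mem_filter, Finset.mem_filter]
      rw [Finset.mem_filter] at hc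
      obtain ⟨h1, h2, h3⟩ := hc
      by_cases h4 : (R.Desc c x ↔ R.Desc c y)
      · right
        exact ⟨h1, h2, fun h5 => h3 (h4.trans h5)⟩
      · left
        exact ⟨h1, h2, h4⟩) (by
      intro v
      rw [R.dep_root]; exact Nat.zero_le _) (by
      intro v x hv hx hd
      rw [hβ]; simp only
      apply Finset.le_sup (f := w)
      rw [Finset.mem_filter]
      refine ⟨Finset.mem_univ _, hv, fun h => ?_⟩
      have h1 : R.Desc v x := h.1 Rooted.Desc.refl
      exact hx (R.desc_eq h1 hd).symm)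
    _ Finset.univ rfl (Finset.mem_univ _) L (fun e _ => ⟨Finset.mem_univ _, Finset.mem_univ _⟩)
    hconn
  -- compare
  have h1 : ∑ e ∈ T.edgeFinset, l e ≤ ∑ c ∈ (Finset.univ : Finset V).erase R.ρ, l s(c, R.π c) := by
    have himg : T.edgeFinset ⊆ ((Finset.univ : Finset V).erase R.ρ).image
        (fun c => s(c, R.π c)) := by
      intro e
      induction e with
      | _ x y =>
        intro he
        rw [SimpleGraph.mem_edgeFinset, SimpleGraph.mem_edgeSet] at he
        rw [Finset.mem_image]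
        rcases hadj x y he with ⟨h2, h3⟩ | ⟨h2, h3⟩
        · exact ⟨x, Finset.mem_erase.2 ⟨h2, Finset.mem_univ _⟩, by rw [h3]⟩
        · exact ⟨y, Finset.mem_erase.2 ⟨h2, Finset.mem_univ _⟩, by rw [h3, Sym2.eq_swap]⟩
    refine (Finset.sum_le_sum_of_subset_of_nonneg himg (fun e _ _ => hl e)).trans ?_
    rw [Finset.sum_image]
    intro c hc d hd hcd
    have hc' : c ≠ R.ρ := Finset.ne_of_mem_erase hc
    have hd' : d ≠ R.ρ := Finset.ne_of_mem_erase hd
    simp only at hcd
    rw [Sym2.eq_iff] at hcd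
    rcases hcd with hcd | ⟨h2, h3⟩
    · exact hcd.1
    · have h4 := R.dep_step c hc'
      have h5 := R.dep_step d hd'
      rw [h3] at h4
      rw [← h2] at h5
      omega
  have h2 : ∑ c ∈ (Finset.univ : Finset V).erase R.ρ, l s(c, R.π c) =
      ((∑ c ∈ (Finset.univ : Finset V).erase R.ρ, w c : ℝ≥0) : ℝ) := by
    rw [NNReal.coe_sum]
    apply Finset.sum_congr rfl
    intro c _
    rw [hw]
    exact (Real.coe_toNNReal _ (hl _)).symm
  have h3 : (((L.map (fun e => β e.1 e.2)).sum : ℝ≥0) : ℝ) ≤ ∑ e ∈ T'.edgeFinset, l e := by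
    rw [hL, List.map_map, NNReal.coe_list_sum, List.map_map, ← Finset.sum_map_toList]
    apply List.sum_le_sum
    intro e _
    simp only [Function.comp_apply]
    refine (hβle _ _).trans (le_of_eq ?_)
    congr 1
    exact Quot.out_eq e
  calc ∑ e ∈ T.edgeFinset, l e ≤ _ := h1
    _ = _ := h2
    _ ≤ _ := NNReal.coe_le_coe.2 key
    _ ≤ _ := h3

end Pool.Agent.Lib.MP_9afe8f_co
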