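import Pool.Agent.Lib.MP_9afe8f_co.Geo

namespace Pool.Agent.Lib.MP_9afe8f_co.LB

open Real

variable {V : Type} {T : SimpleGraph V} {pos : V → ℂ}

/-- vertex of degree five -/
def Deg5 (T : SimpleGraph V) (v : V) : Prop := (T.neighborSet v).ncard = 5

/-- seen from `u`, the star of `v` has only edges of length at most `|uv|`, and slack at
most `x` -/
def Small (T : SimpleGraph V) (pos : V → ℂ) (x : ℝ) (u v : V) : Prop :=
  ∃ st : Star T pos u v, (∀ i, st.r i ≤ 1) ∧ S st.r ≤ x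

lemma desc (C : Conf T pos) {u v w : V} (huv : T.Adj u v) (hvw : T.Adj v w) (huw : u ≠ w)
    (dv : Deg5 T v) (h : ‖pos v - pos w‖ ≤ ‖pos u - pos v‖) (sw : Star T pos v w) :
    ∀ i, sw.r i ≤ 1 := by
  by_contra hcon
  push Not at hcon
  obtain ⟨i, hi⟩ := hcon
  obtain ⟨sv⟩ := exists_star C hvw.symm dv
  obtain ⟨j, hj⟩ := sv.all u huv.symm huw
  apply no_local_min C hvw sv sw ⟨j, ?_⟩ ⟨i, hi.le⟩
  unfold Star.r
  rw [hj, one_le_div (C.norm_pos' hvw), norm_sub_rev (pos w)]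
  exact h

lemma Star.le_of_r {u v : V} (C : Conf T pos) (huv : T.Adj u v) (st : Star T pos u v)
    (hr : ∀ i, st.r i ≤ 1) (i : Fin 4) : ‖pos v - pos (st.e i)‖ ≤ ‖pos u - pos v‖ := by
  have := hr i
  unfold Star.r at this
  rw [div_le_one (C.norm_pos huv)] at this
  rw [norm_sub_rev]; exact this

lemma small_init (C : Conf T pos) {u v w : V} (huv : T.Adj u v) (hvw : T.Adj v w) (huw : u ≠ w)
    (dv : Deg5 T v) (dw : Deg5 T w) (h : ‖pos v - pos w‖ ≤ ‖pos u - pos v‖) :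
    Small T pos (π / 3) v w := by
  obtain ⟨sw⟩ := exists_star C hvw dw
  have hr := desc C huv hvw huw dv h sw
  exact ⟨sw, hr, (sw.toLocal C hvw hr).S_le⟩

lemma halve (C : Conf T pos) {u v : V} (huv : T.Adj u v) (dv : Deg5 T v)
    (dw : ∀ w, T.Adj v w → w ≠ u → Deg5 T w) {x : ℝ} (h : Small T pos x u v) :
    ∃ w, T.Adj v w ∧ w ≠ u ∧ Small T pos (x / 2) v w := by
  obtain ⟨st, hr, hS⟩ := h
  have hsw : ∀ i, Nonempty (Star T pos v (st.e i)) := fun i =>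
    exists_star C (st.adj i) (dw _ (st.adj i) (st.ne i))
  have sw : ∀ i, Star T pos v (st.e i) := fun i => (hsw i).some
  have hrw : ∀ i k, (sw i).r k ≤ 1 := fun i =>
    desc C huv (st.adj i) (st.ne i).symm dv (st.le_of_r C huv hr i) (sw i)
  obtain ⟨i, hi⟩ := halving (st.toLocal C huv hr)
    (fun i => (sw i).toLocal C (st.adj i) (hrw i))
    (fun i => star_m C huv st i (sw i) (hrw i)) (fun i => star_p C huv st i (sw i) (hrw i))
  exact ⟨st.e i, st.adj i, st.ne i, sw i, hrw i, by linarith⟩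

lemma step (C : Conf T pos) {u v w : V} (huv : T.Adj u v) (hvw : T.Adj v w) (hwu : w ≠ u)
    (dv : Deg5 T v) {x : ℝ} (hx : x ≤ 1 / 24) (h : Small T pos x u v) :
    ‖pos v - pos w‖ ≤ 3 * x * ‖pos u - pos v‖ ∧ (Deg5 T w → Small T pos (2 / 3 * x) v w) := by
  obtain ⟨st, hr, hS⟩ := h
  have L := st.toLocal C huv hr
  obtain ⟨i, rfl⟩ := st.all w hvw hwu
  constructor
  · have h1 := L.ratio (hS.trans hx) i
    have h2 : st.r i ≤ 3 * x := by linarith
    unfold Star.r at h2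
    rw [div_le_iff₀ (C.norm_pos huv)] at h2
    rw [norm_sub_rev]; exact h2
  · intro dw
    obtain ⟨sw⟩ := exists_star C hvw dw
    have hrw := desc C huv hvw hwu.symm dv (st.le_of_r C huv hr i) sw
    refine ⟨sw, hrw, ?_⟩
    have := third L (hS.trans hx) (sw.toLocal C hvw hrw) i (star_m C huv st i sw hrw)
      (star_p C huv st i sw hrw)
    linarith

/-- a path of vertices of degree five that starts in the small regime -/
lemma spine (C : Conf T pos) (K : ℕ) (p : ℕ → V) (hadj : ∀ k ≤ K, T.Adj (p k) (p (k + 1)))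
    (hne : ∀ k < K, p (k + 2) ≠ p k) (hdeg : ∀ k < K, Deg5 T (p (k + 1)))
    (h0 : Small T pos (1 / 24) (p 0) (p 1)) :
    ∀ k ≤ K, (k < K → Small T pos (1 / 24 * (2 / 3) ^ k) (p k) (p (k + 1))) ∧
      (3 / 2 : ℝ) ^ (k ^ 2) * 16 ^ k * ‖pos (p k) - pos (p (k + 1))‖ ^ 2
        ≤ ‖pos (p 0) - pos (p 1)‖ ^ 2 := by
  intro k
  induction k with
  | zero => intro _; simp; intro _; simpa using h0
  | succ k ih =>
    intro hk
    obtain ⟨h1, h2⟩ := ih (by omega)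
    have h1 := h1 (by omega)
    have hx : (1 / 24 : ℝ) * (2 / 3) ^ k ≤ 1 / 24 := by
      have : (2 / 3 : ℝ) ^ k ≤ 1 := pow_le_one₀ (by norm_num) (by norm_num)
      linarith
    obtain ⟨h3, h4⟩ := step C (hadj k (by omega)) (hadj (k + 1) (by omega)) (hne k (by omega))
      (hdeg k (by omega)) hx h1
    constructor
    · intro hk2
      have := h4 (hdeg (k + 1) hk2)
      rw [show (1 / 24 : ℝ) * (2 / 3) ^ (k + 1) = 2 / 3 * (1 / 24 * (2 / 3) ^ k) by ring]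
      exact this
    · refine le_trans ?_ h2
      set a := ‖pos (p k) - pos (p (k + 1))‖ with ha
      set b := ‖pos (p (k + 1)) - pos (p (k + 1 + 1))‖ with hb
      have hb0 : 0 ≤ b := norm_nonneg _
      have h5 : b ^ 2 ≤ (3 * (1 / 24 * (2 / 3) ^ k) * a) ^ 2 := pow_le_pow_left₀ hb0 h3 2
      have h6 : (3 / 2 : ℝ) ^ ((k + 1) ^ 2) = (3 / 2) ^ (k ^ 2) * ((3 / 2) ^ k) ^ 2 * (3 / 2) := by
        rw [← pow_mul, ← pow_add, ← pow_succ]; congr 1; ring
      have h7 : ((3 / 2 : ℝ) ^ k) ^ 2 * ((2 / 3) ^ k) ^ 2 = 1 := by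
        rw [← mul_pow, ← mul_pow]; norm_num
      have hP : (0 : ℝ) ≤ (3 / 2) ^ (k ^ 2) * 16 ^ k := by positivity
      calc (3 / 2 : ℝ) ^ ((k + 1) ^ 2) * 16 ^ (k + 1) * b ^ 2
          ≤ (3 / 2 : ℝ) ^ ((k + 1) ^ 2) * 16 ^ (k + 1) * (3 * (1 / 24 * (2 / 3) ^ k) * a) ^ 2 := by
            apply mul_le_mul_of_nonneg_left h5; positivity
        _ = (3 / 2) ^ (k ^ 2) * 16 ^ k * a ^ 2 * (3 / 8)
              * (((3 / 2 : ℝ) ^ k) ^ 2 * ((2 / 3) ^ k) ^ 2) := by
            rw [h6, pow_succ]; ring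
        _ ≤ (3 / 2) ^ (k ^ 2) * 16 ^ k * a ^ 2 := by
            rw [h7]
            have : 0 ≤ (3 / 2 : ℝ) ^ (k ^ 2) * 16 ^ k * a ^ 2 := by positivity
            linarith

end Pool.Agent.Lib.MP_9afe8f_co.LB
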