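import Mathlib

namespace Pool.Agent.Lib.MP_9afe8f_co

/-- the directions of four children, relative to the direction of the edge to the parent -/
noncomputable def lay4 (t : ℝ) (i : ℕ) : ℂ :=
  let s : ℝ := 1 / 2 + 3 / 2 * t
  let c : ℝ := Real.sqrt (1 - s ^ 2)
  match i with
  | 0 => ⟨c * (1 - 4 * s ^ 2), -(s * (3 - 4 * s ^ 2))⟩
  | 1 => ⟨c, -s⟩
  | 2 => ⟨c, s⟩
  | _ => ⟨c * (1 - 4 * s ^ 2), s * (3 - 4 * s ^ 2)⟩

/-- the directions of at most three children -/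
noncomputable def lay3 (i : ℕ) : ℂ :=
  match i with
  | 0 => 1
  | 1 => ⟨1 / 4, Real.sqrt 15 / 4⟩
  | _ => ⟨1 / 4, -(Real.sqrt 15 / 4)⟩

lemma norm_eq_of_sq {z : ℂ} {r : ℝ} (hr : 0 ≤ r) (h : z.re ^ 2 + z.im ^ 2 = r ^ 2) : ‖z‖ = r := by
  rw [Complex.norm_eq_sqrt_sq_add_sq, h, Real.sqrt_sq hr]

lemma le_norm_of_sq {z : ℂ} {r : ℝ} (h : r ^ 2 ≤ z.re ^ 2 + z.im ^ 2) : r ≤ ‖z‖ := by
  rw [Complex.norm_eq_sqrt_sq_add_sq]
  exact Real.le_sqrt_of_sq_le h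

section

variable {t : ℝ}

lemma c_sq (ht0 : 0 ≤ t) (ht : t ≤ 1 / 256) :
    Real.sqrt (1 - (1 / 2 + 3 / 2 * t) ^ 2) ^ 2 = 1 - (1 / 2 + 3 / 2 * t) ^ 2 := by
  apply Real.sq_sqrt
  nlinarith

lemma norm_lay4 (ht0 : 0 ≤ t) (ht : t ≤ 1 / 256) (i : ℕ) : ‖lay4 t i‖ = 1 := by
  have hc := c_sq ht0 ht
  set s : ℝ := 1 / 2 + 3 / 2 * t with hs
  set c : ℝ := Real.sqrt (1 - s ^ 2) with hcdef
  unfold lay4
  match i with
  | 0 =>
    apply norm_eq_of_sq zero_le_one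
    simp only [← hs, ← hcdef]
    have : (c * (1 - 4 * s ^ 2)) ^ 2 + (-(s * (3 - 4 * s ^ 2))) ^ 2 =
        c ^ 2 * (1 - 4 * s ^ 2) ^ 2 + s ^ 2 * (3 - 4 * s ^ 2) ^ 2 := by ring
    rw [this, hc]; ring
  | 1 =>
    apply norm_eq_of_sq zero_le_one
    simp only [← hs, ← hcdef]
    have : c ^ 2 + (-s) ^ 2 = c ^ 2 + s ^ 2 := by ring
    rw [this, hc]; ring
  | 2 =>
    apply norm_eq_of_sq zero_le_one
    simp only [← hs, ← hcdef]
    rw [hc]; ring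
  | (k + 3) =>
    apply norm_eq_of_sq zero_le_one
    simp only [← hs, ← hcdef]
    have : (c * (1 - 4 * s ^ 2)) ^ 2 + (s * (3 - 4 * s ^ 2)) ^ 2 =
        c ^ 2 * (1 - 4 * s ^ 2) ^ 2 + s ^ 2 * (3 - 4 * s ^ 2) ^ 2 := by ring
    rw [this, hc]; ring

lemma sep_lay4_aux (ht0 : 0 ≤ t) (ht : t ≤ 1 / 256) (i j : ℕ) (hj : j < 4)
    (hij : i < j) : 1 + 3 * t ≤ ‖lay4 t i - lay4 t j‖ := by
  have hc := c_sq ht0 ht
  set s : ℝ := 1 / 2 + 3 / 2 * t with hs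
  set c : ℝ := Real.sqrt (1 - s ^ 2) with hcdef
  have h2s : 1 + 3 * t = 2 * s := by rw [hs]; ring
  rw [h2s]
  have hs1 : 1 / 2 ≤ s := by rw [hs]; linarith
  have hs2 : s ≤ 0.51 := by rw [hs]; norm_num; linarith
  have hs3 : s ^ 2 ≤ 0.27 := by nlinarith
  have e13 : (2 * s) ^ 2 ≤ 16 * s ^ 2 * c ^ 2 := by
    rw [hc]; nlinarith [mul_nonneg (sq_nonneg s) (by linarith : (0 : ℝ) ≤ 3 - 4 * s ^ 2)]
  have e03 : (2 * s) ^ 2 ≤ 4 * s ^ 2 * (3 - 4 * s ^ 2) ^ 2 := by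
    have h1 : 1 ≤ 3 - 4 * s ^ 2 := by linarith
    have h2 : 1 ≤ (3 - 4 * s ^ 2) ^ 2 := by nlinarith
    nlinarith [sq_nonneg s]
  have f23 : 16 * s ^ 4 * c ^ 2 + s ^ 2 * (2 - 4 * s ^ 2) ^ 2 = (2 * s) ^ 2 := by
    rw [hc]; ring
  have f13 : 16 * s ^ 4 * c ^ 2 + s ^ 2 * (4 - 4 * s ^ 2) ^ 2 = 16 * s ^ 2 * c ^ 2 := by
    rw [hc]; ring
  apply le_norm_of_sq
  unfold lay4
  have hcases : (i = 0 ∧ j = 1) ∨ (i = 0 ∧ j = 2) ∨ (i = 0 ∧ j = 3) ∨ (i = 1 ∧ j = 2) ∨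
      (i = 1 ∧ j = 3) ∨ (i = 2 ∧ j = 3) := by omega
  rcases hcases with ⟨rfl, rfl⟩ | ⟨rfl, rfl⟩ | ⟨rfl, rfl⟩ | ⟨rfl, rfl⟩ | ⟨rfl, rfl⟩ | ⟨rfl, rfl⟩
  · simp only [← hs, ← hcdef, Complex.sub_re, Complex.sub_im]
    refine le_trans (le_of_eq f23.symm) (le_of_eq ?_); ring
  · simp only [← hs, ← hcdef, Complex.sub_re, Complex.sub_im]
    refine le_trans e13 (le_of_eq ?_); rw [← f13]; ring
  · simp only [← hs, ← hcdef, Complex.sub_re, Complex.sub_im]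
    refine le_trans e03 (le_of_eq ?_); ring
  · simp only [← hs, ← hcdef, Complex.sub_re, Complex.sub_im]
    refine le_of_eq ?_; ring
  · simp only [← hs, ← hcdef, Complex.sub_re, Complex.sub_im]
    refine le_trans e13 (le_of_eq ?_); rw [← f13]; ring
  · simp only [← hs, ← hcdef, Complex.sub_re, Complex.sub_im]
    refine le_trans (le_of_eq f23.symm) (le_of_eq ?_); ring

lemma sep_lay4 (ht0 : 0 ≤ t) (ht : t ≤ 1 / 256) (i j : ℕ) (hi : i < 4) (hj : j < 4)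
    (hij : i ≠ j) : 1 + 3 * t ≤ ‖lay4 t i - lay4 t j‖ := by
  rcases lt_or_gt_of_ne hij with h | h
  · exact sep_lay4_aux ht0 ht i j hj h
  · rw [norm_sub_rev]; exact sep_lay4_aux ht0 ht j i hi h

lemma re_lay4 (ht0 : 0 ≤ t) (ht : t ≤ 1 / 256) (i : ℕ) : -(11 / 2 * t) ≤ (lay4 t i).re := by
  have hc := c_sq ht0 ht
  set s : ℝ := 1 / 2 + 3 / 2 * t with hs
  set c : ℝ := Real.sqrt (1 - s ^ 2) with hcdef
  have hc0 : 0 ≤ c := Real.sqrt_nonneg _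
  have hc1 : c ≤ 0.87 := by
    apply Real.sqrt_le_iff.2
    constructor
    · norm_num
    · rw [hs]; norm_num; nlinarith
  have key : -(11 / 2 * t) ≤ c * (1 - 4 * s ^ 2) := by
    have h1 : 1 - 4 * s ^ 2 = -(6 * t + 9 * t ^ 2) := by rw [hs]; ring
    rw [h1]
    have h2 : 6 * t + 9 * t ^ 2 ≤ 6.1 * t := by nlinarith
    have h3 : 0 ≤ 6 * t + 9 * t ^ 2 := by nlinarith
    nlinarith
  unfold lay4
  match i with
  | 0 => simpa only [← hs, ← hcdef] using key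
  | 1 => simp only [← hs, ← hcdef]; linarith
  | 2 => simp only [← hs, ← hcdef]; linarith
  | (k + 3) => simpa only [← hs, ← hcdef] using key

end

lemma sqrt15_sq : Real.sqrt 15 ^ 2 = 15 := Real.sq_sqrt (by norm_num)

lemma norm_lay3 (i : ℕ) : ‖lay3 i‖ = 1 := by
  have h := sqrt15_sq
  unfold lay3
  match i with
  | 0 => simp
  | 1 => apply norm_eq_of_sq zero_le_one; simp only; nlinarith
  | (k + 2) => apply norm_eq_of_sq zero_le_one; simp only; nlinarith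

lemma sep_lay3 (i j : ℕ) (hi : i < 3) (hj : j < 3) (hij : i ≠ j) :
    1 + 3 * (1 / 16 : ℝ) ≤ ‖lay3 i - lay3 j‖ := by
  have h := sqrt15_sq
  apply le_norm_of_sq
  unfold lay3
  interval_cases i <;> interval_cases j <;>
    first
    | exact absurd rfl hij
    | (simp only [Complex.sub_re, Complex.sub_im, Complex.one_re, Complex.one_im]; nlinarith)

lemma re_lay3 (i : ℕ) : 1 / 4 ≤ (lay3 i).re := by
  unfold lay3
  match i with
  | 0 => simp; norm_num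
  | 1 => simp
  | (k + 2) => simp

lemma add_norm_sq (a : ℝ) (X : ℂ) : ‖(a : ℂ) + X‖ ^ 2 = a ^ 2 + 2 * a * X.re + ‖X‖ ^ 2 := by
  rw [Complex.sq_norm, Complex.sq_norm, Complex.normSq_apply, Complex.normSq_apply]
  simp only [Complex.add_re, Complex.add_im, Complex.ofReal_re, Complex.ofReal_im]
  ring

/-- the distance to the grandparent, four children -/
lemma far_four {a b b' : ℝ} {ω R : ℂ} (ha : 0 < a) (hb : 0 < b) (hb' : 0 < b')
    (hω : ‖ω‖ = 1) (hre : -(11 / 2 * b') ≤ b * ω.re) (hR : ‖R‖ ≤ 16 / 15 * b')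
    (h1 : b ^ 2 = 16 * a * b') (h2 : b' ≤ b / 256) (h3 : b ≤ a / 16) :
    a + b' ≤ ‖(a : ℂ) + ((b : ℂ) * ω + R)‖ := by
  set X : ℂ := (b : ℂ) * ω + R with hX
  have hXre : -(11 / 2 * b') - 16 / 15 * b' ≤ X.re := by
    rw [hX, Complex.add_re, Complex.re_ofReal_mul]
    have := (abs_le.1 (Complex.abs_re_le_norm R)).1
    linarith
  have hXn : b - 16 / 15 * b' ≤ ‖X‖ := by
    have h4 : ‖(b : ℂ) * ω‖ = b := by
      rw [norm_mul, hω, Complex.norm_real, Real.norm_of_nonneg hb.le, mul_one]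
    have h5 := norm_sub_norm_le ((b : ℂ) * ω) (-R)
    rw [sub_neg_eq_add, norm_neg, h4, ← hX] at h5
    linarith
  have hXn2 : (b - 16 / 15 * b') ^ 2 ≤ ‖X‖ ^ 2 := by
    apply pow_le_pow_left₀ _ hXn
    linarith
  have hsq := add_norm_sq a X
  have hab' : 0 < a * b' := mul_pos ha hb'
  have hbb' : b * b' ≤ b ^ 2 / 256 := by nlinarith
  have hb'a : b' ≤ a / 4096 := by linarith
  have h6 : (a + b') ^ 2 ≤ ‖(a : ℂ) + X‖ ^ 2 := by
    rw [hsq]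
    nlinarith [mul_le_mul_of_nonneg_left hXre ha.le, mul_le_mul_of_nonneg_left hb'a hb'.le]
  exact le_of_sq_le_sq h6 (norm_nonneg _)

/-- the distance to the grandparent, at most three children -/
lemma far_three {a b b' : ℝ} {ω R : ℂ} (hb : 0 < b)
    (hre : 1 / 4 ≤ ω.re) (hR : ‖R‖ ≤ 16 / 15 * b') (h2 : b' = b / 16) :
    a + b' ≤ ‖(a : ℂ) + ((b : ℂ) * ω + R)‖ := by
  have h1 := (abs_le.1 (Complex.abs_re_le_norm R)).1
  have h3 := Complex.re_le_norm ((a : ℂ) + ((b : ℂ) * ω + R))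
  refine le_trans ?_ h3
  rw [Complex.add_re, Complex.add_re, Complex.re_ofReal_mul, Complex.ofReal_re]
  nlinarith [mul_le_mul_of_nonneg_left hre hb.le]

/-- the distance between vertices below different siblings -/
lemma far_siblings {b b' : ℝ} {ω ω' u R R' : ℂ} (hb : 0 < b) (hu : ‖u‖ = 1)
    (hsep : b + 3 * b' ≤ b * ‖ω - ω'‖) (hR : ‖R‖ ≤ 16 / 15 * b') (hR' : ‖R'‖ ≤ 16 / 15 * b')
    (hb' : 0 < b') :
    b + 4 / 5 * b' ≤ ‖((b : ℂ) * (u * ω) + R) - ((b : ℂ) * (u * ω') + R')‖ := by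
  have h1 : ((b : ℂ) * (u * ω) + R) - ((b : ℂ) * (u * ω') + R') =
      (b : ℂ) * u * (ω - ω') - (R' - R) := by ring
  have h2 : ‖(b : ℂ) * u * (ω - ω')‖ = b * ‖ω - ω'‖ := by
    rw [norm_mul, norm_mul, hu, Complex.norm_real, Real.norm_of_nonneg hb.le, mul_one]
  have h3 := norm_sub_norm_le ((b : ℂ) * u * (ω - ω')) (R' - R)
  have h4 := norm_sub_le R' R
  rw [h1]
  rw [h2] at h3
  linarith

end Pool.Agent.Lib.MP_9afe8f_co
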