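import Pool.Agent.Lib.MP_9afe8f_co.Rooted
import Pool.Agent.Lib.MP_9afe8f_co.Layout

namespace Pool.Agent.Lib.MP_9afe8f_co

namespace Rooted

variable {V : Type} [Fintype V] [DecidableEq V] (R : Rooted V)

/-- the children of a vertex -/
def ch (z : V) : Finset V := Finset.univ.filter (fun v => v ≠ R.ρ ∧ R.π v = z)

lemma mem_ch {z v : V} : v ∈ R.ch z ↔ v ≠ R.ρ ∧ R.π v = z := by
  simp [ch]

/-- length of the run of consecutive ancestors with four children -/
def run : V → ℕ := R.fold 0 (fun v r => if (R.ch (R.π v)).card = 4 then r + 1 else 0)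

/-- exponent of the length of the edges to the children -/
def ex : V → ℕ := R.fold 0 (fun v e => e + 4 * (1 + R.run v))

/-- length of the edges to the children -/
noncomputable def a (v : V) : ℝ := (1 / 2) ^ (R.ex v)

/-- index of a vertex among its siblings -/
noncomputable def idx (v : V) : ℕ :=
  if h : v ∈ R.ch (R.π v) then ((R.ch (R.π v)).equivFin ⟨v, h⟩).val else 0

/-- the ratio `a v / a (π v)` -/
noncomputable def tt (v : V) : ℝ := (1 / 16) ^ (1 + R.run v)

/-- relative direction -/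
noncomputable def om (v : V) : ℂ :=
  if (R.ch (R.π v)).card = 4 then lay4 (R.tt v) (R.idx v) else lay3 (R.idx v)

/-- direction of the edge from the parent to `v` -/
noncomputable def dir : V → ℂ := R.fold 1 (fun v u => u * R.om v)

/-- position of a vertex -/
noncomputable def pos : V → ℂ := R.fold 0 (fun v q => q + (R.a (R.π v) : ℂ) * R.dir v)

lemma run_step {v : V} (hv : v ≠ R.ρ) :
    R.run v = if (R.ch (R.π v)).card = 4 then R.run (R.π v) + 1 else 0 := by
  unfold run; rw [R.fold_step _ _ hv]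

lemma ex_step {v : V} (hv : v ≠ R.ρ) : R.ex v = R.ex (R.π v) + 4 * (1 + R.run v) := by
  unfold ex; rw [R.fold_step _ _ hv]

lemma a_pos (v : V) : 0 < R.a v := by unfold a; positivity

lemma tt_pos (v : V) : 0 < R.tt v := by unfold tt; positivity

lemma tt_le (v : V) : R.tt v ≤ 1 / 16 := by
  unfold tt
  calc (1 / 16 : ℝ) ^ (1 + R.run v) ≤ (1 / 16) ^ 1 :=
        pow_le_pow_of_le_one (by norm_num) (by norm_num) (by omega)
    _ = 1 / 16 := by norm_num

lemma a_step {v : V} (hv : v ≠ R.ρ) : R.a v = R.a (R.π v) * R.tt v := by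
  unfold a tt
  rw [R.ex_step hv, pow_add, pow_mul]
  norm_num

lemma a_step_le {v : V} (hv : v ≠ R.ρ) : R.a v ≤ R.a (R.π v) / 16 := by
  rw [R.a_step hv]
  have := R.tt_le v
  have := R.a_pos (R.π v)
  nlinarith

lemma a_root : R.a R.ρ = 1 := by
  unfold a ex
  rw [R.fold_root]; norm_num

lemma dir_step {v : V} (hv : v ≠ R.ρ) : R.dir v = R.dir (R.π v) * R.om v := by
  unfold dir; rw [R.fold_step _ _ hv]

lemma pos_root : R.pos R.ρ = 0 := by unfold pos; rw [R.fold_root]

lemma pos_step {v : V} (hv : v ≠ R.ρ) :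
    R.pos v = R.pos (R.π v) + (R.a (R.π v) : ℂ) * R.dir v := by
  unfold pos; rw [R.fold_step _ _ hv]

lemma idx_lt {v : V} (hv : v ≠ R.ρ) : R.idx v < (R.ch (R.π v)).card := by
  unfold idx
  rw [dif_pos (R.mem_ch.2 ⟨hv, rfl⟩)]
  exact Fin.is_lt _

lemma idx_inj {v v' : V} (hv : v ≠ R.ρ) (hv' : v' ≠ R.ρ) (hp : R.π v = R.π v')
    (h : R.idx v = R.idx v') : v = v' := by
  unfold idx at h
  rw [dif_pos (R.mem_ch.2 ⟨hv, rfl⟩), dif_pos (R.mem_ch.2 ⟨hv', rfl⟩)] at h
  have key : ∀ (z z' : V) (hz : z = z') (w w' : V) (hw : w ∈ R.ch z) (hw' : w' ∈ R.ch z'),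
      ((R.ch z).equivFin ⟨w, hw⟩).val = ((R.ch z').equivFin ⟨w', hw'⟩).val → w = w' := by
    intro z z' hz w w' hw hw' h
    subst hz
    have := (R.ch z).equivFin.injective (Fin.ext h)
    exact congrArg Subtype.val this
  exact key _ _ hp v v' _ _ h

lemma tt_four {v : V} (hv : v ≠ R.ρ) (h4 : (R.ch (R.π v)).card = 4) :
    R.tt v = R.tt (R.π v) / 16 := by
  unfold tt
  rw [R.run_step hv, if_pos h4, ← add_assoc, pow_succ]
  ring

lemma tt_four_le {v : V} (hv : v ≠ R.ρ) (h4 : (R.ch (R.π v)).card = 4) : R.tt v ≤ 1 / 256 := by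
  rw [R.tt_four hv h4]
  have := R.tt_le (R.π v)
  linarith

lemma tt_three {v : V} (hv : v ≠ R.ρ) (h4 : (R.ch (R.π v)).card ≠ 4) : R.tt v = 1 / 16 := by
  unfold tt
  rw [R.run_step hv, if_neg h4]
  norm_num

lemma norm_om {v : V} (hv : v ≠ R.ρ) : ‖R.om v‖ = 1 := by
  unfold om
  split_ifs with h
  · exact norm_lay4 (R.tt_pos v).le (R.tt_four_le hv h) _
  · exact norm_lay3 _

lemma norm_dir (v : V) : ‖R.dir v‖ = 1 := by
  induction hd : R.dep v using Nat.strong_induction_on generalizing v with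
  | _ n ih =>
    by_cases hv : v = R.ρ
    · rw [hv]; unfold dir; rw [R.fold_root]; simp
    · have h1 := R.dep_step v hv
      rw [R.dir_step hv, norm_mul, R.norm_om hv, ih (R.dep (R.π v)) (by omega) _ rfl, mul_one]

lemma tt_sibling {v v' : V} (hv : v ≠ R.ρ) (hv' : v' ≠ R.ρ) (hp : R.π v = R.π v') :
    R.tt v = R.tt v' := by
  unfold tt
  rw [R.run_step hv, R.run_step hv', hp]

lemma sep_om (hch : ∀ z, (R.ch z).card ≤ 4) {v v' : V} (hv : v ≠ R.ρ) (hv' : v' ≠ R.ρ)
    (hp : R.π v = R.π v') (hne : v ≠ v') : 1 + 3 * R.tt v ≤ ‖R.om v - R.om v'‖ := by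
  have hidx : R.idx v ≠ R.idx v' := fun h => hne (R.idx_inj hv hv' hp h)
  have h1 := R.idx_lt hv
  have h2 := R.idx_lt hv'
  unfold om
  rw [← hp] at h2 ⊢
  rw [← R.tt_sibling hv hv' hp]
  split_ifs with h
  · rw [h] at h1 h2
    exact sep_lay4 (R.tt_pos v).le (R.tt_four_le hv h) _ _ h1 h2 hidx
  · have h3 := hch (R.π v)
    rw [R.tt_three hv h]
    exact sep_lay3 _ _ (by omega) (by omega) hidx

/-- everything below `c` is close to `c` -/
lemma near {c x : V} (h : R.Desc c x) : ‖R.pos x - R.pos c‖ ≤ 16 / 15 * (R.a c - R.a x) := by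
  induction h with
  | refl => simp
  | @step v hv _ ih =>
    rw [R.pos_step hv]
    have h1 : ‖(R.a (R.π v) : ℂ) * R.dir v‖ = R.a (R.π v) := by
      rw [norm_mul, R.norm_dir, mul_one, Complex.norm_real, Real.norm_of_nonneg (R.a_pos _).le]
    have h2 := norm_add_le (R.pos (R.π v) - R.pos c) ((R.a (R.π v) : ℂ) * R.dir v)
    rw [h1] at h2
    have h3 := R.a_step_le hv
    have h4 : R.pos (R.π v) + (R.a (R.π v) : ℂ) * R.dir v - R.pos c =
        R.pos (R.π v) - R.pos c + (R.a (R.π v) : ℂ) * R.dir v := by ring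
    rw [h4]
    linarith

lemma near' {c x : V} (h : R.Desc c x) : ‖R.pos x - R.pos c‖ ≤ 16 / 15 * R.a c := by
  have := R.near h
  have := R.a_pos x
  linarith

/-- distance to the grandparent -/
lemma far_up {y x : V} (hy : y ≠ R.ρ) (hz : R.π y ≠ R.ρ) (h : R.Desc y x) :
    R.a (R.π (R.π y)) + R.a y ≤ ‖R.pos x - R.pos (R.π (R.π y))‖ := by
  set z := R.π y with hzdef
  set Rr : ℂ := R.pos x - R.pos y with hRr
  have hR := R.near' h
  rw [← hRr] at hR
  have hdz : R.dir z ≠ 0 := by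
    intro h0
    have := R.norm_dir z
    rw [h0] at this
    simp at this
  have hdecomp : R.pos x - R.pos (R.π z) = R.dir z *
      ((R.a (R.π z) : ℂ) + ((R.a z : ℂ) * R.om y + Rr / R.dir z)) := by
    have h1 : R.pos x = R.pos (R.π z) + (R.a (R.π z) : ℂ) * R.dir z +
        (R.a z : ℂ) * (R.dir z * R.om y) + Rr := by
      rw [hRr, R.pos_step hy, ← hzdef, R.pos_step hz, R.dir_step hy, ← hzdef]
      ring
    rw [h1]
    field_simp
    ring
  have hnorm : ‖R.pos x - R.pos (R.π z)‖ =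
      ‖(R.a (R.π z) : ℂ) + ((R.a z : ℂ) * R.om y + Rr / R.dir z)‖ := by
    rw [hdecomp, norm_mul, R.norm_dir, one_mul]
  have hR' : ‖Rr / R.dir z‖ ≤ 16 / 15 * R.a y := by
    rw [norm_div, R.norm_dir, div_one]; exact hR
  rw [hnorm]
  have hay := R.a_step hy
  rw [← hzdef] at hay
  have haz := R.a_step hz
  have hazpos := R.a_pos z
  by_cases h4 : (R.ch z).card = 4
  · have htt := R.tt_four hy h4
    have htt2 := R.tt_four_le hy h4
    rw [← hzdef] at htt
    apply far_four (R.a_pos _) hazpos (R.a_pos _) (R.norm_om hy) _ hR'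
    · rw [hay, htt]
      rw [haz]; ring
    · rw [hay]; nlinarith
    · exact R.a_step_le hz
    · have h5 : -(11 / 2 * R.tt y) ≤ (R.om y).re := by
        unfold om
        rw [← hzdef, if_pos h4]
        exact re_lay4 (R.tt_pos y).le htt2 _
      rw [hay]
      have := mul_le_mul_of_nonneg_left h5 hazpos.le
      linarith
  · apply far_three hazpos _ hR'
    · rw [hay, R.tt_three hy h4]; ring
    · unfold om
      rw [← hzdef, if_neg h4]
      exact re_lay3 _

/-- distance between vertices below different siblings -/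
lemma far_side (hch : ∀ z, (R.ch z).card ≤ 4) {y y' x x' : V} (hy : y ≠ R.ρ) (hy' : y' ≠ R.ρ)
    (hp : R.π y = R.π y') (hne : y ≠ y') (h : R.Desc y x) (h' : R.Desc y' x') :
    R.a (R.π y) + 4 / 5 * R.a y ≤ ‖R.pos x - R.pos x'‖ := by
  have hR := R.near' h
  have hR' := R.near' h'
  have ha : R.a y' = R.a y := by
    rw [R.a_step hy, R.a_step hy', R.tt_sibling hy hy' hp, hp]
  rw [ha] at hR'
  have hb := R.a_pos (R.π y)
  have key := far_siblings (b := R.a (R.π y)) (b' := R.a y) (ω := R.om y) (ω' := R.om y')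
    (u := R.dir (R.π y)) hb (R.norm_dir _) (by
      have := R.sep_om hch hy hy' hp hne
      have h2 := mul_le_mul_of_nonneg_left this hb.le
      have h3 := R.a_step hy
      nlinarith) hR hR' (R.a_pos _)
  refine key.trans (le_of_eq ?_)
  congr 1
  rw [R.pos_step hy, R.pos_step hy', R.dir_step hy, R.dir_step hy', ← hp]
  ring

lemma a_mono {c x : V} (h : R.Desc c x) : R.a x ≤ R.a c := by
  induction h with
  | refl => exact le_rfl
  | @step v hv _ ih =>
    have h1 := R.a_step_le hv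
    have h2 := R.a_pos (R.π v)
    linarith

end Rooted

end Pool.Agent.Lib.MP_9afe8f_co
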