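import Pool.Agent.Lib.MP_9afe8f_co.Defs
import Pool.Agent.Lib.MP_9afe8f_co.Chain

namespace Pool.Agent.Lib.MP_9afe8f_co.LB

open SimpleGraph

variable {V : Type} [Fintype V]

lemma len_nonneg (p : V → ℤ × ℤ) (e : Sym2 V) : 0 ≤ len p e := by
  induction e with
  | _ x y => exact Real.sqrt_nonneg _

lemma totalLength_mono (p : V → ℤ × ℤ) {G H : SimpleGraph V} (h : G ≤ H) :
    totalLength p G ≤ totalLength p H := by
  classical
  unfold totalLength
  apply Finset.sum_le_sum_of_subset_of_nonneg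
  · exact SimpleGraph.edgeFinset_subset_edgeFinset.2 h
  · intro e _ _; exact len_nonneg p e

lemma edgeFinset_inst (G : SimpleGraph V) (i1 i2 : Fintype G.edgeSet) :
    @edgeFinset V G i1 = @edgeFinset V G i2 := by
  rw [Subsingleton.elim i1 i2]

lemma totalLength_eq (p : V → ℤ × ℤ) (G : SimpleGraph V) [inst : Fintype G.edgeSet] :
    totalLength p G = ∑ e ∈ G.edgeFinset, len p e := by
  unfold totalLength
  rw [edgeFinset_inst G _ inst]

lemma exchange {T : SimpleGraph V} {p : V → ℤ × ℤ} (hT : T.Connected)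
    (hmin : IsMinWeightDrawing T p) {x y a b : V} (hxy : T.Adj x y)
    (ha : (T.deleteEdges {s(x, y)}).Reachable x a)
    (hb : (T.deleteEdges {s(x, y)}).Reachable y b) : len p s(x, y) ≤ len p s(a, b) := by
  classical
  set F := T.deleteEdges {s(x, y)} with hF
  set T' := F ⊔ fromEdgeSet {s(a, b)} with hT'
  have hFT : F ≤ T' := le_sup_left
  have hxy' : T'.Reachable x y := by
    have h1 : T'.Reachable x a := ha.mono hFT
    have h2 : T'.Reachable y b := hb.mono hFT
    have h3 : T'.Reachable a b := by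
      by_cases hab : a = b
      · rw [hab]
      · apply SimpleGraph.Adj.reachable
        rw [hT', SimpleGraph.sup_adj]
        right
        rw [SimpleGraph.fromEdgeSet_adj]
        exact ⟨rfl, hab⟩
    exact h1.trans (h3.trans h2.symm)
  have hstep : ∀ u v, T.Adj u v → T'.Reachable u v := by
    intro u v huv
    by_cases h : s(u, v) = s(x, y)
    · rw [Sym2.eq_iff] at h
      rcases h with ⟨rfl, rfl⟩ | ⟨rfl, rfl⟩
      · exact hxy'
      · exact hxy'.symm
    · apply SimpleGraph.Adj.reachable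
      apply hFT
      rw [hF, SimpleGraph.deleteEdges_adj]
      exact ⟨huv, h⟩
  have hconn : T'.Connected := by
    have := hT.nonempty
    refine ⟨fun u v => ?_⟩
    obtain ⟨w⟩ := hT.preconnected u v
    induction w with
    | nil => exact Reachable.refl _
    | cons h _ ih => exact (hstep _ _ h).trans ih
  obtain ⟨T2, hle, hT2⟩ := hconn.exists_isTree_le
  have h1 := hmin.2 T2 hT2
  have h2 := totalLength_mono p hle
  have h3 : totalLength p T' ≤ totalLength p F + len p s(a, b) := by
    rw [totalLength_eq p T', totalLength_eq p F]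
    have hsub : T'.edgeFinset ⊆ insert s(a, b) F.edgeFinset := by
      intro e he
      rw [SimpleGraph.mem_edgeFinset, hT', SimpleGraph.edgeSet_sup] at he
      rw [Finset.mem_insert, SimpleGraph.mem_edgeFinset]
      rcases he with he | he
      · right; exact he
      · left
        rw [SimpleGraph.edgeSet_fromEdgeSet] at he
        exact he.1
    calc ∑ e ∈ T'.edgeFinset, len p e ≤ ∑ e ∈ insert s(a, b) F.edgeFinset, len p e :=
          Finset.sum_le_sum_of_subset_of_nonneg hsub (fun e _ _ => len_nonneg p e)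
      _ ≤ ∑ e ∈ F.edgeFinset, len p e + len p s(a, b) := by
          by_cases hm : s(a, b) ∈ F.edgeFinset
          · rw [Finset.insert_eq_of_mem hm]
            linarith [len_nonneg p s(a, b)]
          · rw [Finset.sum_insert hm]; linarith
  have h4 : totalLength p T = totalLength p F + len p s(x, y) := by
    rw [totalLength_eq p T, totalLength_eq p F]
    have hm : s(x, y) ∈ T.edgeFinset := by
      rw [SimpleGraph.mem_edgeFinset]; exact hxy
    rw [← Finset.sum_erase_add _ _ hm]
    congr 1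
    apply Finset.sum_congr _ (fun _ _ => rfl)
    ext e
    rw [Finset.mem_erase, SimpleGraph.mem_edgeFinset, SimpleGraph.mem_edgeFinset, hF,
      SimpleGraph.edgeSet_deleteEdges]
    simp only [Set.mem_sdiff, Set.mem_singleton_iff]
    tauto
  linarith

/-- the complex number that corresponds to an integer point -/
noncomputable def cpos (p : V → ℤ × ℤ) (v : V) : ℂ := ⟨((p v).1 : ℝ), ((p v).2 : ℝ)⟩

lemma norm_cpos (p : V → ℤ × ℤ) (x y : V) : ‖cpos p x - cpos p y‖ = len p s(x, y) := by
  rw [Complex.norm_eq_sqrt_sq_add_sq]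
  simp [cpos, len]

lemma norm_sq_cpos (p : V → ℤ × ℤ) (x y : V) : ‖cpos p x - cpos p y‖ ^ 2
    = (((p x).1 - (p y).1 : ℤ) : ℝ) ^ 2 + (((p x).2 - (p y).2 : ℤ) : ℝ) ^ 2 := by
  rw [← Complex.normSq_eq_norm_sq, Complex.normSq_apply]
  simp [cpos]; ring

lemma no_sq {N m : ℤ} (hN : N ≠ 0) (h : 3 * N ^ 2 = m ^ 2) : False := by
  have h3 : Irrational (√3) := by
    have := Nat.Prime.irrational_sqrt (show Nat.Prime 3 by norm_num)
    simpa using this
  apply h3
  refine ⟨|(m : ℚ) / N|, ?_⟩
  have hN' : (N : ℝ) ≠ 0 := by exact_mod_cast hN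
  have h1 : ((m : ℝ) / N) ^ 2 = 3 := by
    have h2 : (3 : ℝ) * N ^ 2 = m ^ 2 := by exact_mod_cast h
    rw [div_pow, ← h2]
    field_simp
  rw [← h1, Real.sqrt_sq_eq_abs]
  push_cast
  rfl

/-- minimum weight drawings satisfy the distance conditions -/
lemma conf {T : SimpleGraph V} {p : V → ℤ × ℤ} (hT : T.Connected)
    (hmin : IsMinWeightDrawing T p) : Conf T (cpos p) := by
  have hinj : ∀ a b, a ≠ b → cpos p a ≠ cpos p b := by
    intro a b hab heq
    apply hab
    apply hmin.1
    have h1 := congrArg Complex.re heq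
    have h2 := congrArg Complex.im heq
    simp only [cpos] at h1 h2
    exact Prod.ext (by exact_mod_cast h1) (by exact_mod_cast h2)
  have adjF : ∀ {x y u v : V}, T.Adj u v → s(u, v) ≠ s(x, y) →
      (T.deleteEdges {s(x, y)}).Adj u v := by
    intro x y u v h1 h2
    rw [SimpleGraph.deleteEdges_adj]
    exact ⟨h1, h2⟩
  refine ⟨fun a b h => hinj a b h.ne, ?_, ?_, ?_, ?_⟩
  · intro a v b hav hvb hab
    rw [norm_cpos, norm_cpos]
    apply exchange hT hmin hav (Reachable.refl _)
    apply (adjF hvb _).reachable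
    intro h
    rw [Sym2.eq_iff] at h
    rcases h with ⟨h1, h2⟩ | ⟨h1, h2⟩
    · exact hvb.ne' h2
    · exact hab h2.symm
  · intro a v w b hav hvw hwb haw hvb
    rw [norm_cpos, norm_cpos]
    apply exchange hT hmin hav (Reachable.refl _)
    have e1 : s(v, w) ≠ s(a, v) := by
      intro h
      rw [Sym2.eq_iff] at h
      rcases h with ⟨h1, h2⟩ | ⟨h1, h2⟩
      · exact hvw.ne' h2
      · exact haw h2.symm
    have e2 : s(w, b) ≠ s(a, v) := by
      intro h
      rw [Sym2.eq_iff] at h
      rcases h with ⟨h1, h2⟩ | ⟨h1, h2⟩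
      · exact haw h1.symm
      · exact hvw.ne' h1
    exact (adjF hvw e1).reachable.trans (adjF hwb e2).reachable
  · intro a v w b hav hvw hwb haw hvb
    rw [norm_cpos, norm_cpos]
    apply exchange hT hmin hvw
    · apply (adjF hav.symm _).reachable
      intro h
      rw [Sym2.eq_iff] at h
      rcases h with ⟨h1, h2⟩ | ⟨h1, h2⟩
      · exact haw h2
      · exact hvw.ne h1
    · apply (adjF hwb _).reachable
      intro h
      rw [Sym2.eq_iff] at h
      rcases h with ⟨h1, h2⟩ | ⟨h1, h2⟩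
      · exact hvw.ne' h1
      · exact hvb h2.symm
  · intro a b c hab h1 h2
    have g1 := norm_sq_cpos p a b
    have g2 := norm_sq_cpos p a c
    have g3 := norm_sq_cpos p b c
    rw [← h1] at g2
    rw [← h2] at g3
    rw [g1] at g2 g3
    set x := (p a).1 - (p b).1 with hx
    set y := (p a).2 - (p b).2 with hy
    set z := (p a).1 - (p c).1 with hz
    set w := (p a).2 - (p c).2 with hw
    have e1 : (p b).1 - (p c).1 = z - x := by rw [hz, hx]; ring
    have e2 : (p b).2 - (p c).2 = w - y := by rw [hw, hy]; ring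
    rw [e1, e2] at g3
    have i2 : x ^ 2 + y ^ 2 = z ^ 2 + w ^ 2 := by exact_mod_cast g2
    have i3 : x ^ 2 + y ^ 2 = (z - x) ^ 2 + (w - y) ^ 2 := by exact_mod_cast g3
    have hN : x ^ 2 + y ^ 2 ≠ 0 := by
      intro h0
      have hx0 : x = 0 := by nlinarith [sq_nonneg x, sq_nonneg y]
      have hy0 : y = 0 := by nlinarith [sq_nonneg x, sq_nonneg y]
      apply hab
      have : p a = p b := Prod.ext (by omega) (by omega)
      unfold cpos; rw [this]
    apply no_sq hN (m := 2 * (x * w - y * z))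
    have i4 : 2 * (x * z + y * w) = x ^ 2 + y ^ 2 := by linarith
    have i5 : (x * z + y * w) ^ 2 + (x * w - y * z) ^ 2 = (x ^ 2 + y ^ 2) * (z ^ 2 + w ^ 2) := by
      ring
    rw [← i2] at i5
    nlinarith

/-- an edge between distinct integer points has length at least one -/
lemma one_le_norm {p : V → ℤ × ℤ} {x y : V} (h : cpos p x ≠ cpos p y) :
    1 ≤ ‖cpos p x - cpos p y‖ ^ 2 := by
  rw [norm_sq_cpos]
  have h1 : 1 ≤ ((p x).1 - (p y).1) ^ 2 + ((p x).2 - (p y).2) ^ 2 := by
    by_contra hcon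
    push Not at hcon
    have hx0 : (p x).1 - (p y).1 = 0 := by
      by_contra hne
      have := Int.one_le_abs hne
      nlinarith [sq_abs ((p x).1 - (p y).1), sq_nonneg ((p x).2 - (p y).2)]
    have hy0 : (p x).2 - (p y).2 = 0 := by
      by_contra hne
      have := Int.one_le_abs hne
      nlinarith [sq_abs ((p x).2 - (p y).2), sq_nonneg ((p x).1 - (p y).1)]
    apply h
    have : p x = p y := Prod.ext (by omega) (by omega)
    unfold cpos; rw [this]
  exact_mod_cast h1

lemma norm_le_grid {p : V → ℤ × ℤ} {W H : ℕ} (hg : InGrid p W H) (x y : V) :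
    ‖cpos p x - cpos p y‖ ^ 2 ≤ (2 * ((W : ℝ) * H)) ^ 2 := by
  rw [norm_sq_cpos]
  obtain ⟨a1, a2, a3, a4⟩ := hg x
  obtain ⟨b1, b2, b3, b4⟩ := hg y
  have hW : (1 : ℤ) ≤ W := a1.trans a2
  have hH : (1 : ℤ) ≤ H := a3.trans a4
  have h1 : ((p x).1 - (p y).1) ^ 2 ≤ ((W : ℤ) - 1) ^ 2 := by
    apply sq_le_sq'
    · omega
    · omega
  have h2 : ((p x).2 - (p y).2) ^ 2 ≤ ((H : ℤ) - 1) ^ 2 := by
    apply sq_le_sq'
    · omega
    · omega
  have h3 : ((p x).1 - (p y).1) ^ 2 + ((p x).2 - (p y).2) ^ 2 ≤ (2 * ((W : ℤ) * H)) ^ 2 := by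
    have h4 : (W : ℤ) ≤ W * H := by nlinarith
    have h5 : (H : ℤ) ≤ W * H := by nlinarith
    have h6 : ((W : ℤ) - 1) ^ 2 ≤ (W * H) ^ 2 := by
      apply sq_le_sq' <;> nlinarith
    have h7 : ((H : ℤ) - 1) ^ 2 ≤ (W * H) ^ 2 := by
      apply sq_le_sq' <;> nlinarith
    nlinarith [sq_nonneg ((W : ℤ) * H)]
  exact_mod_cast h3

end Pool.Agent.Lib.MP_9afe8f_co.LB
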