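import Pool.Agent.Lib.MP_9afe8f_co.Assemble

namespace Pool.Agent.Lib.MP_9afe8f_co

open Classical

section Draw

variable {V : Type} [Fintype V] (R : Rooted V)

lemma dist_parent {v : V} (hv : v ≠ R.ρ) : ‖R.pos v - R.pos (R.π v)‖ = R.a (R.π v) := by
  rw [R.pos_step hv, add_sub_cancel_left, norm_mul, R.norm_dir, mul_one, Complex.norm_real,
    Real.norm_of_nonneg (R.a_pos _).le]

variable {R} {M : ℕ}

lemma a_ge (hM : ∀ v, R.ex v ≤ M) (v : V) : (1 / 2 : ℝ) ^ M ≤ R.a v := by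
  unfold Rooted.a
  exact pow_le_pow_of_le_one (by norm_num) (by norm_num) (hM v)

lemma far_below (hM : ∀ v, R.ex v ≤ M) {d x : V} (hd : d ≠ R.ρ) (h : R.Desc d x) :
    d = x ∨ R.a (R.π d) + (1 / 2 : ℝ) ^ M ≤ ‖R.pos x - R.pos (R.π d)‖ := by
  by_cases hdx : d = x
  · exact Or.inl hdx
  · right
    obtain ⟨e, he, hed, hex⟩ := R.desc_child h hdx
    have h1 := R.far_up he (by rw [hed]; exact hd) hex
    rw [hed] at h1
    have h2 := a_ge hM e
    linarith

lemma far_all (hM : ∀ v, R.ex v ≤ M) (hch : ∀ z, (R.ch z).card ≤ 4) {x y : V} (hne : x ≠ y) :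
    (1 / 2 : ℝ) ^ M ≤ ‖R.pos x - R.pos y‖ := by
  rcases R.trichotomy x y hne with ⟨d, hd, hdy, hdx⟩ | ⟨d, hd, hdx, hdy⟩ |
    ⟨d, d', hdd, hd, hd', hp, hdx, hdy⟩
  · rcases far_below hM hd hdx with h | h
    · rw [← h, ← hdy, dist_parent R hd]
      exact a_ge hM _
    · rw [hdy] at h
      have := R.a_pos y
      linarith
  · rw [norm_sub_rev]
    rcases far_below hM hd hdy with h | h
    · rw [← h, ← hdx, dist_parent R hd]
      exact a_ge hM _
    · rw [hdx] at h
      have := R.a_pos x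
      linarith
  · have h1 := R.far_side hch hd hd' hp hdd hdx hdy
    have h2 := a_ge hM (R.π d)
    have h3 := R.a_pos d
    linarith

lemma far_cut (hM : ∀ v, R.ex v ≤ M) (hch : ∀ z, (R.ch z).card ≤ 4) {c x y : V} (hc : c ≠ R.ρ)
    (hx : R.Desc c x) (hy : ¬ R.Desc c y) (hne : ¬ (x = c ∧ y = R.π c)) :
    R.a (R.π c) + 4 / 5 * (1 / 2 : ℝ) ^ M ≤ ‖R.pos x - R.pos y‖ := by
  have hxy : x ≠ y := by
    rintro rfl; exact hy hx
  have hpow : (0 : ℝ) < (1 / 2 : ℝ) ^ M := by positivity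
  -- from a common ancestor
  have mono : ∀ d, d ≠ R.ρ → R.Desc d c → R.a (R.π c) ≤ R.a (R.π d) := by
    intro d hd hdc
    by_cases h : d = c
    · rw [h]
    · obtain ⟨_, h2⟩ := R.desc_parent hdc h
      exact R.a_mono (R.desc_trans (Rooted.Desc.step hd Rooted.Desc.refl) h2)
  rcases R.trichotomy x y hxy with ⟨d, hd, hdy, hdx⟩ | ⟨d, hd, hdx, hdy⟩ |
    ⟨d, d', hdd, hd, hd', hp, hdx, hdy⟩
  · have hyx : R.Desc y x := by
      rw [← hdy]
      exact R.desc_trans (Rooted.Desc.step hd Rooted.Desc.refl) hdx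
    have hdep : R.dep y < R.dep c := by
      by_contra hcon
      exact hy (R.desc_chain hx hyx (by omega))
    have hdstep := R.dep_step d hd
    rw [hdy] at hdstep
    have hdc : R.Desc d c := R.desc_chain hdx hx (by omega)
    rcases far_below hM hd hdx with h | h
    · exfalso
      apply hne
      have h1 : c = x := R.desc_eq hx (by rw [← h]; exact R.desc_dep hdc)
      exact ⟨h1.symm, by rw [h1, ← h, hdy]⟩
    · have h1 := mono d hd hdc
      rw [hdy] at h h1
      linarith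
  · exfalso
    apply hy
    refine R.desc_trans hx (R.desc_trans ?_ hdy)
    rw [← hdx]
    exact Rooted.Desc.step hd Rooted.Desc.refl
  · have hzx : R.Desc (R.π d) x :=
      R.desc_trans (Rooted.Desc.step hd Rooted.Desc.refl) hdx
    have hzy : R.Desc (R.π d) y := by
      rw [hp]
      exact R.desc_trans (Rooted.Desc.step hd' Rooted.Desc.refl) hdy
    have hdep : R.dep (R.π d) < R.dep c := by
      by_contra hcon
      exact hy (R.desc_trans (R.desc_chain hx hzx (by omega)) hzy)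
    have hdstep := R.dep_step d hd
    have hdc : R.Desc d c := R.desc_chain hdx hx (by omega)
    have h1 := R.far_side hch hd hd' hp hdd hdx hdy
    have h2 := mono d hd hdc
    have h3 := a_ge hM d
    linarith

/-- scaled and rounded positions -/
noncomputable def place (R : Rooted V) (M : ℕ) (v : V) : ℤ × ℤ :=
  (round ((2 : ℝ) ^ (M + 2) * (R.pos v).re) + 2 ^ (M + 3),
    round ((2 : ℝ) ^ (M + 2) * (R.pos v).im) + 2 ^ (M + 3))

lemma place_err (v : V) :
    ‖toC (place R M v) - (((2 : ℝ) ^ (M + 2) : ℝ) * R.pos v + (⟨2 ^ (M + 3), 2 ^ (M + 3)⟩ : ℂ))‖ ≤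
      3 / 4 := by
  have h1 := abs_sub_round ((2 : ℝ) ^ (M + 2) * (R.pos v).re)
  have h2 := abs_sub_round ((2 : ℝ) ^ (M + 2) * (R.pos v).im)
  rw [Complex.norm_eq_sqrt_sq_add_sq]
  apply Real.sqrt_le_iff.2
  refine ⟨by norm_num, ?_⟩
  rw [Complex.sub_re, Complex.sub_im, Complex.add_re, Complex.add_im, Complex.re_ofReal_mul,
    Complex.im_ofReal_mul]
  simp only [toC, place, Int.cast_add, Int.cast_pow, Int.cast_ofNat]
  rw [abs_le] at h1 h2
  nlinarith

lemma len_place (x y : V) :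
    |len (place R M) s(x, y) - (2 : ℝ) ^ (M + 2) * ‖R.pos x - R.pos y‖| ≤ 3 / 2 := by
  rw [len_eq_norm]
  have hS : (0 : ℝ) < (2 : ℝ) ^ (M + 2) := by positivity
  have h1 : (2 : ℝ) ^ (M + 2) * ‖R.pos x - R.pos y‖ =
      ‖(((2 : ℝ) ^ (M + 2) : ℝ) : ℂ) * (R.pos x - R.pos y)‖ := by
    rw [norm_mul, Complex.norm_real, Real.norm_of_nonneg hS.le]
  rw [h1]
  refine (abs_norm_sub_norm_le _ _).trans ?_
  have h2 : toC (place R M x) - toC (place R M y) -
      (((2 : ℝ) ^ (M + 2) : ℝ) : ℂ) * (R.pos x - R.pos y) =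
      (toC (place R M x) - (((2 : ℝ) ^ (M + 2) : ℝ) * R.pos x +
        (⟨2 ^ (M + 3), 2 ^ (M + 3)⟩ : ℂ))) -
      (toC (place R M y) - (((2 : ℝ) ^ (M + 2) : ℝ) * R.pos y +
        (⟨2 ^ (M + 3), 2 ^ (M + 3)⟩ : ℂ))) := by
    ring
  rw [h2]
  have h3 := norm_sub_le (toC (place R M x) - (((2 : ℝ) ^ (M + 2) : ℝ) * R.pos x +
        (⟨2 ^ (M + 3), 2 ^ (M + 3)⟩ : ℂ))) (toC (place R M y) - (((2 : ℝ) ^ (M + 2) : ℝ) * R.pos y +
        (⟨2 ^ (M + 3), 2 ^ (M + 3)⟩ : ℂ)))
  have h4 := place_err (R := R) (M := M) x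
  have h5 := place_err (R := R) (M := M) y
  linarith

theorem rooted_drawing (T : SimpleGraph V)
    (hadj : ∀ x y, T.Adj x y → (x ≠ R.ρ ∧ R.π x = y) ∨ (y ≠ R.ρ ∧ R.π y = x))
    (hch : ∀ z, (R.ch z).card ≤ 4) (hM : ∀ v, R.ex v ≤ M) :
    HasGridDrawing T (2 ^ (M + 4)) (2 ^ (M + 4)) := by
  have hS : (0 : ℝ) < (2 : ℝ) ^ (M + 2) := by positivity
  have hSM : (2 : ℝ) ^ (M + 2) * (1 / 2 : ℝ) ^ M = 4 := by
    rw [pow_add, mul_assoc, mul_comm ((2 : ℝ) ^ 2), ← mul_assoc, ← mul_pow]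
    norm_num
  refine ⟨place R M, ⟨?_, ?_⟩, ?_⟩
  · intro x y hxy
    by_contra hne
    have h1 := far_all hM hch hne
    have h2 := len_place (R := R) (M := M) x y
    have h3 : len (place R M) s(x, y) = 0 := by
      rw [len_eq_norm, hxy]; simp
    rw [h3, abs_le] at h2
    have h4 := mul_le_mul_of_nonneg_left h1 hS.le
    rw [hSM] at h4
    linarith [h2.1]
  · intro T' hT'
    unfold totalLength
    apply isMin_of_cut R T hadj (len (place R M)) (len_nonneg _) _ T' hT'.connected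
    intro c x y hc hx hy
    by_cases hne : x = c ∧ y = R.π c
    · rw [hne.1, hne.2]
    · have h1 := far_cut hM hch hc hx hy hne
      have h2 := len_place (R := R) (M := M) x y
      have h3 := len_place (R := R) (M := M) c (R.π c)
      rw [dist_parent R hc] at h3
      rw [abs_le] at h2 h3
      have h4 := mul_le_mul_of_nonneg_left h1 hS.le
      have h5 : (2 : ℝ) ^ (M + 2) * (R.a (R.π c) + 4 / 5 * (1 / 2 : ℝ) ^ M) =
          (2 : ℝ) ^ (M + 2) * R.a (R.π c) + 4 / 5 * ((2 : ℝ) ^ (M + 2) * (1 / 2 : ℝ) ^ M) := by ring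
      rw [h5, hSM] at h4
      linarith [h2.1, h3.2]
  · intro v
    have hnear := R.near' (R.desc_root v)
    rw [R.pos_root, sub_zero, R.a_root, mul_one] at hnear
    have hre := (abs_le.1 ((Complex.abs_re_le_norm (R.pos v)).trans hnear))
    have him := (abs_le.1 ((Complex.abs_im_le_norm (R.pos v)).trans hnear))
    have hS4 : (4 : ℝ) ≤ (2 : ℝ) ^ (M + 2) := by
      calc (4 : ℝ) = 2 ^ 2 := by norm_num
        _ ≤ (2 : ℝ) ^ (M + 2) := pow_le_pow_right₀ (by norm_num) (by omega)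
    have e3 : (2 : ℝ) ^ (M + 3) = 2 * (2 : ℝ) ^ (M + 2) := by ring
    have e4 : (2 : ℝ) ^ (M + 4) = 4 * (2 : ℝ) ^ (M + 2) := by ring
    have coord : ∀ t : ℝ, -(16 / 15) ≤ t → t ≤ 16 / 15 →
        1 ≤ round ((2 : ℝ) ^ (M + 2) * t) + 2 ^ (M + 3) ∧
        round ((2 : ℝ) ^ (M + 2) * t) + 2 ^ (M + 3) ≤ ((2 ^ (M + 4) : ℕ) : ℤ) := by
      intro t ht1 ht2
      have h1 := abs_le.1 (abs_sub_round ((2 : ℝ) ^ (M + 2) * t))
      have h2 := mul_le_mul_of_nonneg_left ht1 hS.le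
      have h3 := mul_le_mul_of_nonneg_left ht2 hS.le
      constructor
      · have : (1 : ℝ) ≤ ((round ((2 : ℝ) ^ (M + 2) * t) + 2 ^ (M + 3) : ℤ) : ℝ) := by
          push_cast
          rw [e3]
          linarith [h1.2]
        exact_mod_cast this
      · have : ((round ((2 : ℝ) ^ (M + 2) * t) + 2 ^ (M + 3) : ℤ) : ℝ) ≤
            (((2 ^ (M + 4) : ℕ) : ℤ) : ℝ) := by
          push_cast
          rw [e3, e4]
          linarith [h1.1]
        exact_mod_cast this
    obtain ⟨g1, g2⟩ := coord _ hre.1 hre.2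
    obtain ⟨g3, g4⟩ := coord _ him.1 him.2
    exact ⟨g1, g2, g3, g4⟩

end Draw

section Root

variable {V : Type} [Fintype V] {T : SimpleGraph V}

lemma exists_parent (hT : T.IsTree) (ρ v : V) (hv : v ≠ ρ) :
    ∃ w, T.Adj v w ∧ T.dist ρ v = T.dist ρ w + 1 := by
  obtain ⟨p, hp⟩ := hT.connected.exists_walk_length_eq_dist v ρ
  cases p with
  | nil => exact absurd rfl hv
  | @cons _ w _ hadj q =>
    refine ⟨w, hadj, ?_⟩
    have h1 : T.dist w ρ ≤ q.length := SimpleGraph.dist_le q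
    rw [SimpleGraph.Walk.length_cons] at hp
    rw [SimpleGraph.dist_comm (u := ρ), SimpleGraph.dist_comm (u := ρ)]
    rcases hT.dist_eq_dist_add_one_of_adj ρ hadj with h | h
    · rw [SimpleGraph.dist_comm (u := ρ), SimpleGraph.dist_comm (u := ρ) (v := w)] at h
      exact h
    · rw [SimpleGraph.dist_comm (u := ρ), SimpleGraph.dist_comm (u := ρ) (v := v)] at h
      omega

lemma parent_unique (hT : T.IsTree) (ρ : V) {v w w' : V} (h : T.Adj v w) (h' : T.Adj v w')
    (hd : T.dist ρ v = T.dist ρ w + 1) (hd' : T.dist ρ v = T.dist ρ w' + 1) : w = w' := by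
  have key : ∀ u, T.Adj v u → T.dist ρ v = T.dist ρ u + 1 →
      ∃ p : T.Walk ρ v, p.IsPath ∧ p.penultimate = u := by
    intro u hu hdu
    obtain ⟨q, hq, hql⟩ := (hT.connected.preconnected ρ u).exists_path_of_dist
    have hv : v ∉ q.support := by
      intro hmem
      have h1 := SimpleGraph.dist_le (q.takeUntil v hmem)
      have h2 := q.length_takeUntil_le_length hmem
      omega
    refine ⟨q.concat hu.symm, hq.concat hv hu.symm, ?_⟩
    simp
  obtain ⟨p, hp, hpu⟩ := key w h hd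
  obtain ⟨p', hp', hpu'⟩ := key w' h' hd'
  have : p = p' := (hT.existsUnique_path ρ v).unique hp hp'
  rw [← hpu, ← hpu', this]

theorem exists_rooted (hT : T.IsTree) (ρ : V) :
    ∃ R : Rooted V, R.ρ = ρ ∧
      ∀ x y, T.Adj x y ↔ (x ≠ R.ρ ∧ R.π x = y) ∨ (y ≠ R.ρ ∧ R.π y = x) := by
  let π : V → V := fun v => if h : v = ρ then ρ else Classical.choose (exists_parent hT ρ v h)
  have hπ : ∀ v, v ≠ ρ → T.Adj v (π v) ∧ T.dist ρ v = T.dist ρ (π v) + 1 := by
    intro v hv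
    have := Classical.choose_spec (exists_parent hT ρ v hv)
    simp only [π, dif_neg hv]
    exact this
  refine ⟨⟨ρ, π, fun v => T.dist ρ v, by simp, fun v hv => (hπ v hv).2⟩, rfl, ?_⟩
  intro x y
  simp only
  constructor
  · intro hxy
    rcases hT.dist_eq_dist_add_one_of_adj ρ hxy with h | h
    · left
      have hx : x ≠ ρ := by
        rintro rfl; simp at h
      exact ⟨hx, parent_unique hT ρ (hπ x hx).1 hxy (hπ x hx).2 h⟩
    · right
      have hy : y ≠ ρ := by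
        rintro rfl; simp at h
      exact ⟨hy, parent_unique hT ρ (hπ y hy).1 hxy.symm (hπ y hy).2 h⟩
  · rintro (⟨hx, hxy⟩ | ⟨hy, hyx⟩)
    · rw [← hxy]; exact (hπ x hx).1
    · rw [← hyx]; exact (hπ y hy).1.symm

/-- every tree of maximum degree at most `5` has a small drawing -/
theorem tree_drawing (hT : T.IsTree) (hdeg : ∀ v, (T.neighborSet v).ncard ≤ 5) :
    HasGridDrawing T (2 ^ ((Fintype.card V ^ 2 + 36 * Fintype.card V) / 8 + 4))
      (2 ^ ((Fintype.card V ^ 2 + 36 * Fintype.card V) / 8 + 4)) := by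
  -- a root of degree at most one
  obtain ⟨ρ, hρ⟩ : ∃ ρ : V, (T.neighborSet ρ).ncard ≤ 1 := by
    rcases subsingleton_or_nontrivial V with hs | hn
    · obtain ⟨ρ⟩ := hT.connected.nonempty
      refine ⟨ρ, ?_⟩
      exact (Set.ncard_le_one (Set.toFinite _)).2 (fun a _ b _ => Subsingleton.elim a b)
    · obtain ⟨ρ, hρ⟩ := hT.exists_vert_degree_one_of_nontrivial
      refine ⟨ρ, ?_⟩
      rw [← SimpleGraph.card_neighborSet_eq_degree] at hρ
      rw [Set.ncard_eq_toFinset_card', Set.toFinset_card]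
      exact hρ.le
  obtain ⟨R, hRρ, hadj⟩ := exists_rooted hT ρ
  apply rooted_drawing (R := R) T (fun x y h => (hadj x y).1 h) _ (fun v => R.ex_le v)
  intro z
  have hsub : (↑(R.ch z) : Set V) ⊆ T.neighborSet z := by
    intro v hv
    rw [Finset.mem_coe, R.mem_ch] at hv
    rw [SimpleGraph.mem_neighborSet]
    exact (hadj z v).2 (Or.inr hv)
  by_cases hz : z = R.ρ
  · have h1 := Set.ncard_le_ncard hsub (Set.toFinite _)
    rw [Set.ncard_coe_finset] at h1
    rw [hz] at h1 ⊢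
    rw [hRρ] at h1 ⊢
    omega
  · have hnot : R.π z ∉ R.ch z := by
      rw [R.mem_ch]
      rintro ⟨h1, h2⟩
      have h3 := R.dep_step z hz
      have h4 := R.dep_step _ h1
      rw [h2] at h4
      omega
    have hsub2 : (↑(insert (R.π z) (R.ch z)) : Set V) ⊆ T.neighborSet z := by
      intro v hv
      rw [Finset.coe_insert, Set.mem_insert_iff] at hv
      rcases hv with hv | hv
      · rw [hv, SimpleGraph.mem_neighborSet]
        exact (hadj z _).2 (Or.inl ⟨hz, rfl⟩)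
      · exact hsub hv
    have h1 := Set.ncard_le_ncard hsub2 (Set.toFinite _)
    rw [Set.ncard_coe_finset, Finset.card_insert_of_notMem hnot] at h1
    have h2 := hdeg z
    omega

end Root

end Pool.Agent.Lib.MP_9afe8f_co
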