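import Pool.Agent.Lib.MP_9afe8f_co.Side

namespace Pool.Agent.Lib.MP_9afe8f_co.LB

open Real

lemma D_anti {x y : ℝ} (hx : 0 < x) (hxy : x ≤ y) (hy : y ≤ 1) : D y ≤ D x := by
  rw [D_of_le hx (hxy.trans hy), D_of_le (hx.trans_le hxy) hy]
  exact f_anti hxy

lemma gap2_aux {x y g1 g2 : ℝ} (hx : 0 < x) (hy : 0 < y) (hx1 : x ≤ 1) (hy1 : y ≤ 1)
    (h1 : π / 3 < g1) (h2 : π / 3 < g2) (h3 : D x ≤ g1) (h4 : D y ≤ g2) :
    π / 3 + D (x * y) < g1 + g2 := by
  rcases hx1.eq_or_lt with rfl | hx1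
  · rw [one_mul]; linarith
  rcases hy1.eq_or_lt with rfl | hy1
  · rw [mul_one]; linarith
  have h5 := sub_strict hx hx1 hy hy1
  have hxy : x * y ≤ 1 := by nlinarith
  rw [D_of_le (by positivity) hxy]
  rw [D_of_le hx hx1.le] at h3
  rw [D_of_le hy hy1.le] at h4
  linarith

lemma gap2 {x y g1 g2 : ℝ} (hx : 0 < x) (hy : 0 < y)
    (h1 : π / 3 < g1) (h2 : π / 3 < g2) (h3 : D x ≤ g1) (h4 : D y ≤ g2) :
    π / 3 + D (x * y) < g1 + g2 := by
  have hxy0 : 0 < x * y := by positivity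
  -- mixed case
  have mixed : ∀ {x y g1 g2 : ℝ}, 0 < x → 0 < y → π / 3 < g1 → π / 3 < g2 → D x ≤ g1 →
      D y ≤ g2 → x ≤ 1 → 1 ≤ y → π / 3 + D (x * y) < g1 + g2 := by
    intro x y g1 g2 hx hy h1 h2 h3 h4 hx1 hy1
    have hxy0 : 0 < x * y := by positivity
    rcases le_total (x * y) 1 with h | h
    · have h5 : D (x * y) ≤ D x := D_anti hx (by nlinarith) h
      linarith
    · have h5 : D (x * y) ≤ D y := by
        rw [← D_inv (A := x * y), ← D_inv (A := y)]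
        apply D_anti (inv_pos.2 hy)
        · exact inv_anti₀ hxy0 (by nlinarith)
        · exact inv_le_one_of_one_le₀ h
      linarith
  rcases le_total x 1 with hx1 | hx1 <;> rcases le_total y 1 with hy1 | hy1
  · exact gap2_aux hx hy hx1 hy1 h1 h2 h3 h4
  · exact mixed hx hy h1 h2 h3 h4 hx1 hy1
  · rw [mul_comm x y, add_comm g1 g2]
    exact mixed hy hx h2 h1 h4 h3 hy1 hx1
  · have := gap2_aux (inv_pos.2 hx) (inv_pos.2 hy) (inv_le_one_of_one_le₀ hx1)
      (inv_le_one_of_one_le₀ hy1) h1 h2 (by rw [D_inv]; exact h3) (by rw [D_inv]; exact h4)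
    rw [← mul_inv, D_inv] at this
    exact this

lemma tr_pos {x : ℝ} (hx : 0 < x) : 0 < tr x := lt_min hx one_pos
lemma tr_le {x : ℝ} : tr x ≤ 1 := min_le_right _ _

lemma D_tr {X Y : ℝ} (hX : 0 < X) (hY : 0 < Y) : D (tr X / tr Y) ≤ D (X / Y) := by
  have main : ∀ {X Y : ℝ}, 0 < X → 0 < Y → X ≤ Y → D (tr X / tr Y) ≤ D (X / Y) := by
    intro X Y hX hY h
    apply D_anti (by positivity)
    · unfold tr
      rcases le_total X 1 with h1 | h1 <;> rcases le_total Y 1 with h2 | h2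
      · rw [min_eq_left h1, min_eq_left h2]
      · rw [min_eq_left h1, min_eq_right h2, div_one]
        exact div_le_self hX.le h2
      · rw [min_eq_right h1, min_eq_left h2]
        exact div_le_div_of_nonneg_right (by linarith) hY.le
      · rw [min_eq_right h1, min_eq_right h2, div_one]
        exact (div_le_one hY).2 h
    · rw [div_le_one (tr_pos hY)]
      exact min_le_min_right _ h
  rcases le_total X Y with h | h
  · exact main hX hY h
  · have := main hY hX h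
    rw [← D_inv (A := tr X / tr Y), ← D_inv (A := X / Y), inv_div, inv_div]
    exact this

lemma D_eq_f {x : ℝ} (hx : 0 < x) (h1 : x ≤ 1) : D (1 / x) = f x := by
  rw [one_div, D_inv, D_of_le hx h1]

/-- three consecutive gaps, one of the four edges being long -/
lemma gap3 {A : Fin 4 → ℝ} {g0 g1 g2 : ℝ} (hA : ∀ i, 0 < A i)
    (h0 : π / 3 < g0) (h1 : π / 3 < g1) (h2 : π / 3 < g2)
    (d0 : D (A 0 / A 1) ≤ g0) (d1 : D (A 1 / A 2) ≤ g1) (d2 : D (A 2 / A 3) ≤ g2)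
    (hlong : ∃ i, 1 ≤ A i) :
    π / 3 + f (tr (A 0)) + f (tr (A 3)) < g0 + g1 + g2 := by
  have t0 := tr_pos (hA 0)
  have t1 := tr_pos (hA 1)
  have t2 := tr_pos (hA 2)
  have t3 := tr_pos (hA 3)
  replace d0 := (D_tr (hA 0) (hA 1)).trans d0
  replace d1 := (D_tr (hA 1) (hA 2)).trans d1
  replace d2 := (D_tr (hA 2) (hA 3)).trans d2
  have e01 : tr (A 0) / tr (A 1) * (tr (A 1) / tr (A 2)) = tr (A 0) / tr (A 2) := by
    field_simp
  have e12 : tr (A 1) / tr (A 2) * (tr (A 2) / tr (A 3)) = tr (A 1) / tr (A 3) := by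
    field_simp
  have e02 : tr (A 0) / tr (A 2) * (tr (A 2) / tr (A 3)) = tr (A 0) / tr (A 3) := by
    field_simp
  have g01 := gap2 (by positivity) (by positivity) h0 h1 d0 d1
  rw [e01] at g01
  have g12 := gap2 (by positivity) (by positivity) h1 h2 d1 d2
  rw [e12] at g12
  have h02 : π / 3 ≤ D (tr (A 0) / tr (A 2)) := D_ge (by positivity)
  have g02 := gap2 (x := tr (A 0) / tr (A 2)) (y := tr (A 2) / tr (A 3)) (g1 := g0 + g1 - π / 3)
    (g2 := g2) (by positivity) (by positivity) (by linarith) h2 (by linarith) d2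
  rw [e02] at g02
  obtain ⟨i, hi⟩ := hlong
  have hti : tr (A i) = 1 := min_eq_right hi
  have hf1 := f_one
  fin_cases i
  · simp only [Fin.zero_eta] at hti
    rw [hti, D_eq_f t3 tr_le] at g02
    rw [hti, hf1]
    linarith
  · simp only [Fin.mk_one] at hti
    rw [hti, div_one, D_of_le t0 tr_le] at d0
    rw [hti, D_eq_f t3 tr_le] at g12
    linarith
  · simp only [Fin.reduceFinMk] at hti
    rw [hti, D_eq_f t3 tr_le] at d2
    rw [hti, div_one, D_of_le t0 tr_le] at g01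
    linarith
  · simp only [Fin.reduceFinMk] at hti
    rw [hti, div_one, D_of_le t0 tr_le] at g02
    rw [hti, hf1]
    linarith

/-- the hypotheses available on one side of an edge -/
structure SideHyp (A B a b : ℝ) : Prop where
  hA : 0 < A
  hB0 : 0 < B
  hB1 : B ≤ 1
  ha0 : 0 < a
  ha : a < 2 * π
  hb0 : 0 < b
  hb : b < 2 * π
  hca : cos a ≤ min A A⁻¹ / 2
  hcb : cos b ≤ B / 2
  hG1 : 1 ≤ G A B a b
  hG2 : A ^ 2 ≤ G A B a b

namespace SideHyp

variable {A B a b : ℝ} (h : SideHyp A B a b)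
include h

lemma D_le : D A ≤ a := D_le_angle h.hA h.ha0 h.ha h.hca

lemma f_le : f B ≤ b := f_le_of_cos h.hB0.le h.hB1 h.hb0 h.hb h.hcb

lemma good (hBA : B ≤ A) : π - f B - b ≤ a - D A :=
  side_good h.hA h.hB0 h.hB1 h.ha0 h.ha h.hb0 h.hb h.hca h.hcb h.hG1 h.hG2 hBA

lemma any : π - f B - b ≤ a + D A - 2 * π / 3 :=
  side_any h.hA h.hB0 h.hB1 h.ha0 h.ha h.hb0 h.hb h.hca h.hcb h.hG1 h.hG2

lemma small (hBs : B ≤ 1 / 6) (hAs : 11 / 12 ≤ A) (hbs : b ≤ f B + 1 / 2) :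
    2 * (π / 2 - f B) - (b - f B) / 2 ≤ a - D A :=
  side_small h.hA h.hB0 h.hB1 h.ha0 h.ha h.hb0 h.hb h.hca h.hcb h.hG1 h.hG2 hBs hAs hbs

end SideHyp

/-- two sides of the same gap -/
lemma pair {A B B' a b b' : ℝ} (h : SideHyp A B a b) (h' : SideHyp A⁻¹ B' a b') :
    (π - f B - b) + (π - f B' - b') ≤ 2 * (a - π / 3) := by
  have hD : D A⁻¹ = D A := D_inv
  have hD3 := D_ge h.hA
  rcases le_or_gt B A with hB | hB
  · have h1 := h.good hB
    rcases le_or_gt B' A⁻¹ with hB' | hB'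
    · have h2 := h'.good hB'
      rw [hD] at h2
      linarith
    · have h2 := h'.any
      rw [hD] at h2
      linarith
  · have h1 := h.any
    have hA1 : A < 1 := hB.trans_le h.hB1
    have h2 := h'.good (h'.hB1.trans ((one_le_inv₀ h.hA).2 hA1.le))
    rw [hD] at h2
    linarith

/-- data at a vertex and at its four children, in real terms -/
structure Local (t r : Fin 4 → ℝ) : Prop where
  r0 : ∀ i, 0 < r i
  r1 : ∀ i, r i ≤ 1
  t0 : ∀ i, 0 < t i
  t1 : ∀ i, t i < 2 * π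
  c0 : ∀ i, cos (t i) ≤ r i / 2
  g1 : D (r 1 / r 0) ≤ t 1 - t 0
  g2 : D (r 2 / r 1) ≤ t 2 - t 1
  g3 : D (r 3 / r 2) ≤ t 3 - t 2

/-- the slack -/
noncomputable def S (r : Fin 4 → ℝ) : ℝ := π - f (r 0) - f (r 3)

namespace Local

variable {t r : Fin 4 → ℝ} (L : Local t r)
include L

lemma S_nonneg : 0 ≤ S r := by
  unfold S
  have := f_le (L.r0 0).le
  have := f_le (L.r0 3).le
  linarith

lemma S_le : S r ≤ π / 3 := by
  unfold S
  have := f_ge (L.r1 0)
  have := f_ge (L.r1 3)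
  linarith

lemma t0_ge : f (r 0) ≤ t 0 := f_le_of_cos (L.r0 0).le (L.r1 0) (L.t0 0) (L.t1 0) (L.c0 0)

lemma t3_le : t 3 ≤ 2 * π - f (r 3) := by
  have := f_le_of_cos (t := 2 * π - t 3) (L.r0 3).le (L.r1 3) (by linarith [L.t1 3])
    (by linarith [L.t0 3]) (by rw [Real.cos_two_pi_sub]; exact L.c0 3)
  linarith

lemma d1 : π / 3 ≤ D (r 1 / r 0) := D_ge (div_pos (L.r0 1) (L.r0 0))
lemma d2 : π / 3 ≤ D (r 2 / r 1) := D_ge (div_pos (L.r0 2) (L.r0 1))
lemma d3 : π / 3 ≤ D (r 3 / r 2) := D_ge (div_pos (L.r0 3) (L.r0 2))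

/-- the total turning -/
lemma total : (t 0 - f (r 0)) + (t 1 - t 0 - π / 3) + (t 2 - t 1 - π / 3) + (t 3 - t 2 - π / 3)
    + (2 * π - t 3 - f (r 3)) = S r := by
  unfold S; ring

lemma outer : π ≤ t 3 - t 0 := by
  have := L.d1; have := L.d2; have := L.d3
  have := L.g1; have := L.g2; have := L.g3
  linarith

end Local

lemma ratio_of_D {x s : ℝ} (hx : 0 < x) (h : D x ≤ π / 3 + s) (hs : s ≤ 1 / 24) (hs0 : 0 ≤ s) :
    11 / 12 ≤ min x x⁻¹ := by
  have h1 : cos (D x) = min x x⁻¹ / 2 := cos_f (min_inv_pos hx).le (min_inv_le_one hx)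
  have h2 : cos (π / 3 + s) ≤ cos (D x) :=
    Real.cos_le_cos_of_nonneg_of_le_pi (by have := D_ge hx; linarith [Real.pi_pos])
      (by linarith [Real.pi_gt_three]) h
  have h3 : 11 / 24 ≤ cos (π / 3 + s) := by
    rw [Real.cos_add, Real.cos_pi_div_three, Real.sin_pi_div_three]
    have h4 := Real.one_sub_sq_div_two_le_cos (x := s)
    have h5 : sin s ≤ s := Real.sin_le hs0
    have h6 : √3 ≤ 1.7321 := by
      rw [Real.sqrt_le_left (by norm_num)]; norm_num
    have h7 : 0 ≤ √3 := Real.sqrt_nonneg 3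
    have h8 : √3 / 2 * sin s ≤ 1.7321 / 2 * (1 / 24) := by
      have h9 : √3 / 2 * sin s ≤ √3 / 2 * s := mul_le_mul_of_nonneg_left h5 (by positivity)
      have h10 : √3 / 2 * s ≤ 1.7321 / 2 * (1 / 24) :=
        mul_le_mul (by linarith) hs hs0 (by norm_num)
      linarith
    nlinarith
  linarith

/-- ratios of all children when the slack is small -/
lemma Local.ratio {t r : Fin 4 → ℝ} (L : Local t r) (hS : S r ≤ 1 / 24) (i : Fin 4) :
    r i ≤ 3 * S r := by
  have hpi := Real.pi_pos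
  have hS0 := L.S_nonneg
  have d1 := L.d1; have d2 := L.d2; have d3 := L.d3
  have g1 := L.g1; have g2 := L.g2; have g3 := L.g3
  have t0 := L.t0_ge; have t3 := L.t3_le
  have tot := L.total
  -- outer ratios
  have outer : ∀ x, 0 < x → x ≤ 1 → π / 2 - f x ≤ S r → x ≤ 2 * S r := by
    intro x hx0 hx1 hx
    have h1 : sin (π / 2 - f x) = x / 2 := by rw [Real.sin_pi_div_two_sub, cos_f hx0.le hx1]
    have h2 : sin (π / 2 - f x) ≤ π / 2 - f x := Real.sin_le (by have := f_le hx0.le; linarith)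
    linarith
  have hf0 := f_le (L.r0 0).le
  have hf3 := f_le (L.r0 3).le
  have h0 : r 0 ≤ 2 * S r := outer _ (L.r0 0) (L.r1 0) (by unfold S; linarith)
  have h3 : r 3 ≤ 2 * S r := outer _ (L.r0 3) (L.r1 3) (by unfold S; linarith)
  have q1 := ratio_of_D (div_pos (L.r0 1) (L.r0 0)) (s := S r) (by linarith) hS hS0
  have q3 := ratio_of_D (div_pos (L.r0 3) (L.r0 2)) (s := S r) (by linarith) hS hS0
  have h1 : r 1 ≤ 3 * S r := by
    have h4 : 11 / 12 ≤ (r 1 / r 0)⁻¹ := q1.trans (min_le_right _ _)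
    rw [inv_div, le_div_iff₀ (L.r0 1)] at h4
    linarith
  have h2 : r 2 ≤ 3 * S r := by
    have h4 : 11 / 12 ≤ r 3 / r 2 := q3.trans (min_le_left _ _)
    rw [le_div_iff₀ (L.r0 2)] at h4
    linarith
  fin_cases i
  · simp only [Fin.zero_eta]; linarith
  · simpa using h1
  · simpa using h2
  · simp only [Fin.reduceFinMk]; linarith

/-- ratio and angle of the gap before and after the `i`-th child -/
noncomputable def Am (r : Fin 4 → ℝ) : Fin 4 → ℝ := ![(r 0)⁻¹, r 0 / r 1, r 1 / r 2, r 2 / r 3]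
noncomputable def am (t : Fin 4 → ℝ) : Fin 4 → ℝ := ![t 0, t 1 - t 0, t 2 - t 1, t 3 - t 2]
noncomputable def Ap (r : Fin 4 → ℝ) : Fin 4 → ℝ := ![r 1 / r 0, r 2 / r 1, r 3 / r 2, (r 3)⁻¹]
noncomputable def ap (t : Fin 4 → ℝ) : Fin 4 → ℝ := ![t 1 - t 0, t 2 - t 1, t 3 - t 2, 2 * π - t 3]

/-- halving of the slack for one of the children -/
lemma halving {t r : Fin 4 → ℝ} {t' r' : Fin 4 → Fin 4 → ℝ} (L : Local t r)
    (L' : ∀ i, Local (t' i) (r' i))
    (hm : ∀ i, SideHyp (Am r i) (r' i 0) (am t i) (t' i 0))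
    (hp : ∀ i, SideHyp (Ap r i) (r' i 3) (ap t i) (2 * π - t' i 3)) :
    ∃ i, S (r' i) ≤ S r / 2 := by
  by_contra hcon
  push Not at hcon
  have m0 : SideHyp (r 0)⁻¹ (r' 0 0) (t 0) (t' 0 0) := hm 0
  have m1 : SideHyp (r 0 / r 1) (r' 1 0) (t 1 - t 0) (t' 1 0) := hm 1
  have m2 : SideHyp (r 1 / r 2) (r' 2 0) (t 2 - t 1) (t' 2 0) := hm 2
  have m3 : SideHyp (r 2 / r 3) (r' 3 0) (t 3 - t 2) (t' 3 0) := hm 3
  have p0 : SideHyp (r 1 / r 0) (r' 0 3) (t 1 - t 0) (2 * π - t' 0 3) := hp 0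
  have p1 : SideHyp (r 2 / r 1) (r' 1 3) (t 2 - t 1) (2 * π - t' 1 3) := hp 1
  have p2 : SideHyp (r 3 / r 2) (r' 2 3) (t 3 - t 2) (2 * π - t' 2 3) := hp 2
  have p3 : SideHyp (r 3)⁻¹ (r' 3 3) (2 * π - t 3) (2 * π - t' 3 3) := hp 3
  have h0 := hcon 0; have h1 := hcon 1; have h2 := hcon 2; have h3 := hcon 3
  have o0 := (L' 0).outer; have o1 := (L' 1).outer; have o2 := (L' 2).outer
  have o3 := (L' 3).outer
  have a0 := L.t0_ge
  have a3 := L.t3_le
  have e0 := m0.good (m0.hB1.trans ((one_le_inv₀ (L.r0 0)).2 (L.r1 0)))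
  have e3 := p3.good (p3.hB1.trans ((one_le_inv₀ (L.r0 3)).2 (L.r1 3)))
  rw [D_inv, D_of_le (L.r0 0) (L.r1 0)] at e0
  rw [D_inv, D_of_le (L.r0 3) (L.r1 3)] at e3
  have q1 := pair p0 (by rw [inv_div]; exact m1)
  have q2 := pair p1 (by rw [inv_div]; exact m2)
  have q3 := pair p2 (by rw [inv_div]; exact m3)
  unfold S at *
  linarith

/-- estimate for one child in the small regime -/
lemma third_aux {A A' a a' s : ℝ} {t' r' : Fin 4 → ℝ} (L' : Local t' r')
    (m : SideHyp A (r' 0) a (t' 0)) (p : SideHyp A' (r' 3) a' (2 * π - t' 3))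
    (hs : s ≤ 1 / 24)
    (hA : 11 / 12 ≤ A) (hA' : 11 / 12 ≤ A') (hsum : (a - D A) + (a' - D A') ≤ s)
    (hcr : π - f (r' 0) - t' 0 + (π - f (r' 3) - (2 * π - t' 3)) ≤ 2 * s) :
    S r' ≤ 2 / 3 * s := by
  have hpi := Real.pi_pos
  have o := L'.outer
  have f0 := f_le (L'.r0 0).le
  have f3 := f_le (L'.r0 3).le
  have b0 := m.f_le
  have b3 := p.f_le
  have hS : S r' ≤ 1 / 12 := by unfold S; linarith
  have small : ∀ x, 0 < x → x ≤ 1 → π / 2 - f x ≤ S r' → x ≤ 1 / 6 := by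
    intro x hx0 hx1 hx
    have h1 : sin (π / 2 - f x) = x / 2 := by rw [Real.sin_pi_div_two_sub, cos_f hx0.le hx1]
    have h2 : sin (π / 2 - f x) ≤ π / 2 - f x := Real.sin_le (by have := f_le hx0.le; linarith)
    linarith
  have r0 := small _ (L'.r0 0) (L'.r1 0) (by unfold S; linarith)
  have r3 := small _ (L'.r0 3) (L'.r1 3) (by unfold S; linarith)
  have k0 := m.small r0 hA (by unfold S at hS; linarith)
  have k3 := p.small r3 hA' (by unfold S at hS; linarith)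
  unfold S
  linarith

lemma third {t r t' r' : Fin 4 → ℝ} (L : Local t r) (hS : S r ≤ 1 / 24) (L' : Local t' r')
    (i : Fin 4) (m : SideHyp (Am r i) (r' 0) (am t i) (t' 0))
    (p : SideHyp (Ap r i) (r' 3) (ap t i) (2 * π - t' 3)) : S r' ≤ 2 / 3 * S r := by
  have hpi := Real.pi_pos
  have hS0 := L.S_nonneg
  have d1 := L.d1; have d2 := L.d2; have d3 := L.d3
  have g1 := L.g1; have g2 := L.g2; have g3 := L.g3
  have t0 := L.t0_ge; have t3 := L.t3_le
  have tot := L.total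
  have q1 := ratio_of_D (div_pos (L.r0 1) (L.r0 0)) (s := S r) (by linarith) hS hS0
  have q2 := ratio_of_D (div_pos (L.r0 2) (L.r0 1)) (s := S r) (by linarith) hS hS0
  have q3 := ratio_of_D (div_pos (L.r0 3) (L.r0 2)) (s := S r) (by linarith) hS hS0
  have D1 : D (r 0 / r 1) = D (r 1 / r 0) := by rw [← D_inv, inv_div]
  have D2 : D (r 1 / r 2) = D (r 2 / r 1) := by rw [← D_inv, inv_div]
  have D3 : D (r 2 / r 3) = D (r 3 / r 2) := by rw [← D_inv, inv_div]
  have mp := m.any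
  have pp := p.any
  have i0 : 1 ≤ (r 0)⁻¹ := (one_le_inv₀ (L.r0 0)).2 (L.r1 0)
  have i3 : 1 ≤ (r 3)⁻¹ := (one_le_inv₀ (L.r0 3)).2 (L.r1 3)
  have E0 : D (r 0)⁻¹ = f (r 0) := by rw [D_inv, D_of_le (L.r0 0) (L.r1 0)]
  have E3 : D (r 3)⁻¹ = f (r 3) := by rw [D_inv, D_of_le (L.r0 3) (L.r1 3)]
  fin_cases i
  · have m' : SideHyp (r 0)⁻¹ (r' 0) (t 0) (t' 0) := m
    have p' : SideHyp (r 1 / r 0) (r' 3) (t 1 - t 0) (2 * π - t' 3) := p
    have h1 := m'.good (m'.hB1.trans i0)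
    have h2 := p'.any
    rw [E0] at h1
    apply third_aux L' m' p' hS (by linarith) (q1.trans (min_le_left _ _))
    · rw [E0]; linarith
    · linarith
  · have m' : SideHyp (r 0 / r 1) (r' 0) (t 1 - t 0) (t' 0) := m
    have p' : SideHyp (r 2 / r 1) (r' 3) (t 2 - t 1) (2 * π - t' 3) := p
    have h1 := m'.any
    have h2 := p'.any
    rw [D1] at h1
    apply third_aux L' m' p' hS (by have := q1.trans (min_le_right _ _); rwa [inv_div] at this)
      (q2.trans (min_le_left _ _))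
    · rw [D1]; linarith
    · linarith
  · have m' : SideHyp (r 1 / r 2) (r' 0) (t 2 - t 1) (t' 0) := m
    have p' : SideHyp (r 3 / r 2) (r' 3) (t 3 - t 2) (2 * π - t' 3) := p
    have h1 := m'.any
    have h2 := p'.any
    rw [D2] at h1
    apply third_aux L' m' p' hS (by have := q2.trans (min_le_right _ _); rwa [inv_div] at this)
      (q3.trans (min_le_left _ _))
    · rw [D2]; linarith
    · linarith
  · have m' : SideHyp (r 2 / r 3) (r' 0) (t 3 - t 2) (t' 0) := m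
    have p' : SideHyp (r 3)⁻¹ (r' 3) (2 * π - t 3) (2 * π - t' 3) := p
    have h1 := m'.any
    have h2 := p'.good (p'.hB1.trans i3)
    rw [D3] at h1
    rw [E3] at h2
    apply third_aux L' m' p' hS (by have := q3.trans (min_le_right _ _); rwa [inv_div] at this)
      (by linarith)
    · rw [D3, E3]; linarith
    · linarith

end Pool.Agent.Lib.MP_9afe8f_co.LB
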