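import Pool.Agent.Lib.MP_9afe8f_co.Gap

namespace Pool.Agent.Lib.MP_9afe8f_co.LB

open Real

/-! ### polar coordinates -/

lemma exp_formula (t : ℝ) : Complex.exp (t * Complex.I) = (cos t : ℂ) + (sin t : ℂ) * Complex.I := by
  rw [Complex.exp_mul_I]; simp

lemma norm_sq_aux (x y : ℝ) : ‖(x : ℂ) + (y : ℂ) * Complex.I‖ ^ 2 = x ^ 2 + y ^ 2 := by
  rw [← Complex.normSq_eq_norm_sq, Complex.normSq_apply]; simp; ring

lemma norm_polar1 (w : ℂ) (r t : ℝ) :
    ‖(r : ℂ) * Complex.exp (t * Complex.I) * w - w‖ ^ 2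
      = ‖w‖ ^ 2 * (1 + r ^ 2 - 2 * r * cos t) := by
  have e : (r : ℂ) * Complex.exp (t * Complex.I) * w - w
      = (((r * cos t - 1 : ℝ) : ℂ) + ((r * sin t : ℝ) : ℂ) * Complex.I) * w := by
    rw [exp_formula]; push_cast; ring
  rw [e, norm_mul, mul_pow, norm_sq_aux]
  have := Real.sin_sq_add_cos_sq t
  linear_combination (‖w‖ ^ 2 * r ^ 2) * this

lemma norm_cross (w : ℂ) (A B a s : ℝ) :
    ‖(A : ℂ) * Complex.exp (a * Complex.I) * w
        - (w + (B : ℂ) * Complex.exp (s * Complex.I) * (-w))‖ ^ 2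
      = ‖w‖ ^ 2 * (1 + A ^ 2 + B ^ 2 - 2 * A * cos a - 2 * B * cos s
          + 2 * A * B * cos (a - s)) := by
  have e : (A : ℂ) * Complex.exp (a * Complex.I) * w
        - (w + (B : ℂ) * Complex.exp (s * Complex.I) * (-w))
      = (((A * cos a + B * cos s - 1 : ℝ) : ℂ)
          + ((A * sin a + B * sin s : ℝ) : ℂ) * Complex.I) * w := by
    rw [exp_formula, exp_formula]; push_cast; ring
  rw [e, norm_mul, mul_pow, norm_sq_aux, Real.cos_sub]
  have h1 := Real.sin_sq_add_cos_sq a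
  have h2 := Real.sin_sq_add_cos_sq s
  linear_combination (‖w‖ ^ 2 * A ^ 2) * h1 + (‖w‖ ^ 2 * B ^ 2) * h2

lemma polar_div {z z' w : ℂ} {r r' t t' : ℝ} (hr : r ≠ 0)
    (h : z = (r : ℂ) * Complex.exp (t * Complex.I) * w)
    (h' : z' = (r' : ℂ) * Complex.exp (t' * Complex.I) * w) :
    z' = ((r' / r : ℝ) : ℂ) * Complex.exp ((t' - t : ℝ) * Complex.I) * z := by
  rw [h, h']
  have e : Complex.exp ((t' : ℂ) * Complex.I)
      = Complex.exp ((t' - t : ℝ) * Complex.I) * Complex.exp (t * Complex.I) := by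
    rw [← Complex.exp_add]; congr 1; push_cast; ring
  rw [e]
  have hr' : (r : ℂ) ≠ 0 := by exact_mod_cast hr
  push_cast
  field_simp

lemma cos_le_min {A a : ℝ} (hA : 0 < A) (h1 : 1 ≤ 1 + A ^ 2 - 2 * A * cos a)
    (h2 : A ^ 2 ≤ 1 + A ^ 2 - 2 * A * cos a) : cos a ≤ min A A⁻¹ / 2 := by
  rw [le_div_iff₀ (by norm_num : (0 : ℝ) < 2), le_min_iff]
  constructor
  · nlinarith
  · rw [← one_div, le_div_iff₀ hA]; linarith

noncomputable def ang (z w : ℂ) : ℝ := toIcoMod Real.two_pi_pos 0 (Complex.arg (z / w))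

lemma ang_nonneg (z w : ℂ) : 0 ≤ ang z w := (toIcoMod_mem_Ico Real.two_pi_pos 0 _).1

lemma ang_lt (z w : ℂ) : ang z w < 2 * π := by
  have := (toIcoMod_mem_Ico Real.two_pi_pos 0 (Complex.arg (z / w))).2
  simpa [ang] using this

lemma exp_ang (z w : ℂ) :
    Complex.exp (ang z w * Complex.I) = Complex.exp (Complex.arg (z / w) * Complex.I) := by
  unfold ang
  have h := self_sub_toIcoDiv_zsmul Real.two_pi_pos 0 (Complex.arg (z / w))
  rw [← h]
  rw [Complex.exp_eq_exp_iff_exists_int]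
  refine ⟨- toIcoDiv Real.two_pi_pos 0 (Complex.arg (z / w)), ?_⟩
  push_cast
  simp only [zsmul_eq_mul]
  ring

lemma polar_ang {z w : ℂ} (hw : w ≠ 0) :
    z = ((‖z‖ / ‖w‖ : ℝ) : ℂ) * Complex.exp (ang z w * Complex.I) * w := by
  rw [exp_ang]
  have h := Complex.norm_mul_exp_arg_mul_I (z / w)
  rw [norm_div] at h
  push_cast at h ⊢
  rw [h]
  field_simp

/-! ### configurations -/

variable {V : Type} (T : SimpleGraph V) (pos : V → ℂ)

/-- Distance conditions that every minimum spanning tree on a point set without equilateral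
triangles satisfies. -/
structure Conf : Prop where
  ne : ∀ a b, T.Adj a b → pos a ≠ pos b
  p2 : ∀ a v b, T.Adj a v → T.Adj v b → a ≠ b → ‖pos a - pos v‖ ≤ ‖pos a - pos b‖
  p3a : ∀ a v w b, T.Adj a v → T.Adj v w → T.Adj w b → a ≠ w → v ≠ b →
    ‖pos a - pos v‖ ≤ ‖pos a - pos b‖
  p3b : ∀ a v w b, T.Adj a v → T.Adj v w → T.Adj w b → a ≠ w → v ≠ b →
    ‖pos v - pos w‖ ≤ ‖pos a - pos b‖
  noeq : ∀ a b c, pos a ≠ pos b → ‖pos a - pos b‖ = ‖pos a - pos c‖ →
    ‖pos a - pos b‖ = ‖pos b - pos c‖ → False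

/-- the four neighbours of `v` other than `u`, in angular order -/
structure Star (u v : V) where
  e : Fin 4 → V
  t : Fin 4 → ℝ
  adj : ∀ i, T.Adj v (e i)
  ne : ∀ i, e i ≠ u
  all : ∀ x, T.Adj v x → x ≠ u → ∃ i, e i = x
  mono : StrictMono t
  t0 : ∀ i, 0 < t i
  t1 : ∀ i, t i < 2 * π
  pol : ∀ i, pos (e i) - pos v = ((‖pos (e i) - pos v‖ / ‖pos u - pos v‖ : ℝ) : ℂ)
    * Complex.exp (t i * Complex.I) * (pos u - pos v)

variable {T pos}

lemma Conf.norm_pos (C : Conf T pos) {a b : V} (h : T.Adj a b) : 0 < ‖pos a - pos b‖ := by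
  rw [norm_pos_iff, sub_ne_zero]; exact C.ne a b h

lemma Conf.norm_pos' (C : Conf T pos) {a b : V} (h : T.Adj a b) : 0 < ‖pos b - pos a‖ :=
  C.norm_pos h.symm

/-- two neighbours `x`, `w` of `v` -/
lemma Conf.cos_le (C : Conf T pos) {v w x : V} {A a : ℝ} (hw : T.Adj v w) (hx : T.Adj v x)
    (hne : x ≠ w) (hA : 0 < A)
    (h : pos x - pos v = (A : ℂ) * Complex.exp (a * Complex.I) * (pos w - pos v)) :
    cos a ≤ min A A⁻¹ / 2 := by
  have hl := C.norm_pos' hw
  have e := norm_polar1 (pos w - pos v) A a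
  rw [← h, sub_sub_sub_cancel_right] at e
  have nx : ‖pos x - pos v‖ = A * ‖pos w - pos v‖ := by
    rw [h, norm_mul, norm_mul, Complex.norm_exp_ofReal_mul_I, Complex.norm_real,
      Real.norm_of_nonneg hA.le, mul_one]
  have h1 := C.p2 x v w hx.symm hw hne
  have h2 := C.p2 w v x hw.symm hx hne.symm
  rw [norm_sub_rev (pos w) (pos x)] at h2
  have h3 : ‖pos w - pos v‖ ^ 2 ≤ ‖pos x - pos w‖ ^ 2 := pow_le_pow_left₀ (norm_nonneg _) h2 2
  have h4 : ‖pos x - pos v‖ ^ 2 ≤ ‖pos x - pos w‖ ^ 2 := pow_le_pow_left₀ (norm_nonneg _) h1 2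
  rw [nx, e] at h4
  rw [e] at h3
  have hl2 : 0 < ‖pos w - pos v‖ ^ 2 := by positivity
  apply cos_le_min hA
  · by_contra hc
    push Not at hc
    nlinarith
  · by_contra hc
    push Not at hc
    nlinarith

/-- cross constraint -/
lemma Conf.cross (C : Conf T pos) {v w x y : V} {A B a s : ℝ} (hw : T.Adj v w)
    (hx : T.Adj v x) (hy : T.Adj w y) (hxw : x ≠ w) (hyv : y ≠ v) (hA : 0 < A) (hB : 0 < B)
    (h : pos x - pos v = (A : ℂ) * Complex.exp (a * Complex.I) * (pos w - pos v))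
    (h' : pos y - pos w = (B : ℂ) * Complex.exp (s * Complex.I) * (pos v - pos w)) :
    1 ≤ 1 + A ^ 2 + B ^ 2 - 2 * A * cos a - 2 * B * cos s + 2 * A * B * cos (a - s) ∧
    A ^ 2 ≤ 1 + A ^ 2 + B ^ 2 - 2 * A * cos a - 2 * B * cos s + 2 * A * B * cos (a - s) ∧
    B ^ 2 ≤ 1 + A ^ 2 + B ^ 2 - 2 * A * cos a - 2 * B * cos s + 2 * A * B * cos (a - s) := by
  have hl := C.norm_pos' hw
  have e := norm_cross (pos w - pos v) A B a s
  have e2 : (A : ℂ) * Complex.exp (a * Complex.I) * (pos w - pos v)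
      - ((pos w - pos v) + (B : ℂ) * Complex.exp (s * Complex.I) * (-(pos w - pos v)))
      = pos x - pos y := by
    rw [neg_sub, ← h, ← h']; ring
  rw [e2] at e
  have nx : ‖pos x - pos v‖ = A * ‖pos w - pos v‖ := by
    rw [h, norm_mul, norm_mul, Complex.norm_exp_ofReal_mul_I, Complex.norm_real,
      Real.norm_of_nonneg hA.le, mul_one]
  have ny : ‖pos y - pos w‖ = B * ‖pos w - pos v‖ := by
    rw [h', norm_mul, norm_mul, Complex.norm_exp_ofReal_mul_I, Complex.norm_real,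
      Real.norm_of_nonneg hB.le, mul_one, norm_sub_rev]
  have h1 := C.p3a x v w y hx.symm hw hy hxw hyv.symm
  have h2 := C.p3b x v w y hx.symm hw hy hxw hyv.symm
  have h3 := C.p3a y w v x hy.symm hw.symm hx hyv hxw.symm
  rw [norm_sub_rev (pos y) (pos x)] at h3
  rw [norm_sub_rev (pos v) (pos w)] at h2
  have g1 := pow_le_pow_left₀ (norm_nonneg _) h1 2
  have g2 := pow_le_pow_left₀ (norm_nonneg _) h2 2
  have g3 := pow_le_pow_left₀ (norm_nonneg _) h3 2
  rw [nx, e] at g1
  rw [e] at g2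
  rw [ny, e] at g3
  have hl2 : 0 < ‖pos w - pos v‖ ^ 2 := by positivity
  refine ⟨?_, ?_, ?_⟩
  · by_contra hc
    push Not at hc
    nlinarith
  · by_contra hc
    push Not at hc
    nlinarith
  · by_contra hc
    push Not at hc
    nlinarith

namespace Star

variable {u v : V} (st : Star T pos u v)

/-- length ratio -/
noncomputable def r (i : Fin 4) : ℝ := ‖pos (st.e i) - pos v‖ / ‖pos u - pos v‖

lemma r_pos (C : Conf T pos) (huv : T.Adj u v) (i : Fin 4) : 0 < st.r i :=
  div_pos (C.norm_pos' (st.adj i)) (C.norm_pos huv)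

lemma pol' (i : Fin 4) : pos (st.e i) - pos v = (st.r i : ℂ)
    * Complex.exp (st.t i * Complex.I) * (pos u - pos v) := st.pol i

lemma e_ne {i j : Fin 4} (h : i ≠ j) (C : Conf T pos) (huv : T.Adj u v) :
    st.e i ≠ st.e j := by
  intro heq
  have h1 := st.pol' i
  have h2 := st.pol' j
  have hri := (st.r_pos C huv i).ne'
  have h3 := polar_div hri h1 h2
  rw [heq] at h3
  have hz : pos (st.e j) - pos v ≠ 0 := by
    rw [← norm_pos_iff]; exact C.norm_pos' (st.adj j)
  have hr : st.r j / st.r i = 1 := by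
    unfold r; rw [heq]
    exact div_self (div_pos (C.norm_pos' (st.adj j)) (C.norm_pos huv)).ne'
  rw [hr] at h3
  have h4 : Complex.exp ((st.t j - st.t i : ℝ) * Complex.I) = 1 := by
    have h5 : Complex.exp ((st.t j - st.t i : ℝ) * Complex.I) * (pos (st.e j) - pos v)
        = 1 * (pos (st.e j) - pos v) := by
      rw [one_mul]; nth_rewrite 2 [h3]; push_cast; ring
    exact mul_right_cancel₀ hz h5
  rw [exp_formula] at h4
  have h6 : cos (st.t j - st.t i) = 1 := by
    have := congrArg Complex.re h4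
    rw [Complex.add_re, Complex.ofReal_re, Complex.mul_re, Complex.ofReal_re, Complex.ofReal_im,
      Complex.I_re, Complex.I_im, Complex.one_re] at this
    linarith
  have h7 : -(2 * π) < st.t j - st.t i := by linarith [st.t0 j, st.t1 i]
  have h8 : st.t j - st.t i < 2 * π := by linarith [st.t0 i, st.t1 j]
  have h9 := (Real.cos_eq_one_iff_of_lt_of_lt h7 h8).1 h6
  exact h (st.mono.injective (by linarith)).symm

lemma cos_le (C : Conf T pos) (huv : T.Adj u v) (i : Fin 4) :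
    cos (st.t i) ≤ min (st.r i) (st.r i)⁻¹ / 2 :=
  C.cos_le huv.symm (st.adj i) (st.ne i) (st.r_pos C huv i) (st.pol' i)

lemma gap_cos (C : Conf T pos) (huv : T.Adj u v) {i j : Fin 4} (h : i ≠ j) :
    cos (st.t j - st.t i) ≤ min (st.r j / st.r i) (st.r j / st.r i)⁻¹ / 2 :=
  C.cos_le (st.adj i) (st.adj j) (st.e_ne h.symm C huv)
    (div_pos (st.r_pos C huv j) (st.r_pos C huv i))
    (polar_div (st.r_pos C huv i).ne' (st.pol' i) (st.pol' j))

lemma gap (C : Conf T pos) (huv : T.Adj u v) {i j : Fin 4} (h : i < j) :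
    D (st.r j / st.r i) ≤ st.t j - st.t i :=
  D_le_angle (div_pos (st.r_pos C huv j) (st.r_pos C huv i)) (sub_pos.2 (st.mono h))
    (by linarith [st.t0 i, st.t1 j]) (st.gap_cos C huv h.ne)

lemma gap_strict (C : Conf T pos) (huv : T.Adj u v) {i j : Fin 4} (h : i < j) :
    π / 3 < st.t j - st.t i := by
  have hd : 0 < st.r j / st.r i := div_pos (st.r_pos C huv j) (st.r_pos C huv i)
  have h1 := st.gap C huv h
  have h2 := D_ge hd
  rcases (h2.trans h1).eq_or_lt with heq | hlt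
  · exfalso
    have h3 := st.gap_cos C huv h.ne
    rw [← heq, Real.cos_pi_div_three] at h3
    have h4 : 1 ≤ min (st.r j / st.r i) (st.r j / st.r i)⁻¹ := by linarith
    have h5 : st.r j / st.r i = 1 := by
      apply le_antisymm
      · have := h4.trans (min_le_right _ _)
        rwa [one_le_inv₀ hd] at this
      · exact h4.trans (min_le_left _ _)
    have h6 : st.r j = st.r i := by
      rwa [div_eq_one_iff_eq (st.r_pos C huv i).ne'] at h5
    have h7 : ‖pos (st.e j) - pos v‖ = ‖pos (st.e i) - pos v‖ := by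
      unfold r at h6
      have := (C.norm_pos huv).ne'
      field_simp at h6
      exact h6
    have h8 := polar_div (st.r_pos C huv i).ne' (st.pol' i) (st.pol' j)
    rw [h5, ← heq] at h8
    have h9 := norm_polar1 (pos (st.e i) - pos v) 1 (π / 3)
    push_cast at h8 h9
    rw [← h8, sub_sub_sub_cancel_right, Real.cos_pi_div_three] at h9
    have h10 : ‖pos (st.e j) - pos (st.e i)‖ = ‖pos (st.e i) - pos v‖ := by
      have : ‖pos (st.e j) - pos (st.e i)‖ ^ 2 = ‖pos (st.e i) - pos v‖ ^ 2 := by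
        rw [h9]; ring
      exact (pow_left_inj₀ (norm_nonneg _) (norm_nonneg _) (by norm_num)).1 this
    refine C.noeq v (st.e i) (st.e j) (C.ne _ _ (st.adj i)) ?_ ?_
    · rw [norm_sub_rev, ← h7, norm_sub_rev]
    · rw [norm_sub_rev, ← h10, norm_sub_rev]
  · exact hlt

/-- real data of a star all of whose edges are at most the edge to `u` -/
lemma toLocal (C : Conf T pos) (huv : T.Adj u v) (h1 : ∀ i, st.r i ≤ 1) :
    Local st.t st.r where
  r0 := st.r_pos C huv
  r1 := h1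
  t0 := st.t0
  t1 := st.t1
  c0 := fun i => (st.cos_le C huv i).trans (by
    have := min_le_left (st.r i) (st.r i)⁻¹; linarith)
  g1 := st.gap C huv (by decide)
  g2 := st.gap C huv (by decide)
  g3 := st.gap C huv (by decide)

end Star

/-- one side of the edge `vw`, general sign -/
lemma side_plus (C : Conf T pos) {v w x : V} (hw : T.Adj v w) (hx : T.Adj v x) (hxw : x ≠ w)
    (sw : Star T pos v w) (hr : ∀ i, sw.r i ≤ 1) {A a : ℝ} (hA : 0 < A) (ha0 : 0 < a)
    (ha : a < 2 * π)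
    (h : pos x - pos v = (A : ℂ) * Complex.exp (a * Complex.I) * (pos w - pos v)) (k : Fin 4) :
    SideHyp A (sw.r k) a (2 * π - sw.t k) := by
  obtain ⟨c1, c2, -⟩ := C.cross hw hx (sw.adj k) hxw (sw.ne k) hA (sw.r_pos C hw k) h
    (sw.pol' k)
  have e1 : cos (2 * π - sw.t k) = cos (sw.t k) := Real.cos_two_pi_sub _
  have e2 : cos (a + (2 * π - sw.t k)) = cos (a - sw.t k) := by
    rw [show a + (2 * π - sw.t k) = (a - sw.t k) + 2 * π by ring, Real.cos_add_two_pi]
  refine ⟨hA, sw.r_pos C hw k, hr k, ha0, ha, by linarith [sw.t1 k], by linarith [sw.t0 k],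
    C.cos_le hw hx hxw hA h, ?_, ?_, ?_⟩
  · rw [e1]
    exact (sw.cos_le C hw k).trans (by
      have := min_le_left (sw.r k) (sw.r k)⁻¹; linarith)
  · unfold G; rw [e1, e2]; exact c1
  · unfold G; rw [e1, e2]; exact c2

lemma side_minus (C : Conf T pos) {v w x : V} (hw : T.Adj v w) (hx : T.Adj v x) (hxw : x ≠ w)
    (sw : Star T pos v w) (hr : ∀ i, sw.r i ≤ 1) {A a : ℝ} (hA : 0 < A) (ha0 : 0 < a)
    (ha : a < 2 * π)
    (h : pos x - pos v = (A : ℂ) * Complex.exp ((-a : ℝ) * Complex.I) * (pos w - pos v))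
    (k : Fin 4) : SideHyp A (sw.r k) a (sw.t k) := by
  obtain ⟨c1, c2, -⟩ := C.cross hw hx (sw.adj k) hxw (sw.ne k) hA (sw.r_pos C hw k) h
    (sw.pol' k)
  have e1 : cos (-a) = cos a := Real.cos_neg a
  have e2 : cos (-a - sw.t k) = cos (a + sw.t k) := by
    rw [← Real.cos_neg]; congr 1; ring
  rw [e1, e2] at c1 c2
  refine ⟨hA, sw.r_pos C hw k, hr k, ha0, ha, sw.t0 k, sw.t1 k, ?_, ?_, c1, c2⟩
  · rw [← e1]; exact C.cos_le hw hx hxw hA h
  · exact (sw.cos_le C hw k).trans (by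
      have := min_le_left (sw.r k) (sw.r k)⁻¹; linarith)

lemma polar_inv {z w : ℂ} {r t : ℝ} (hr : r ≠ 0)
    (h : z = (r : ℂ) * Complex.exp (t * Complex.I) * w) :
    w = ((r⁻¹ : ℝ) : ℂ) * Complex.exp ((-t : ℝ) * Complex.I) * z := by
  have h1 : w = ((1 : ℝ) : ℂ) * Complex.exp ((0 : ℝ) * Complex.I) * w := by simp
  have := polar_div hr h h1
  rw [one_div, zero_sub] at this
  exact this

lemma polar_inv' {z w : ℂ} {r t : ℝ} (hr : r ≠ 0)
    (h : z = (r : ℂ) * Complex.exp (t * Complex.I) * w) :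
    w = ((r⁻¹ : ℝ) : ℂ) * Complex.exp ((2 * π - t : ℝ) * Complex.I) * z := by
  rw [polar_inv hr h]
  have : Complex.exp ((2 * π - t : ℝ) * Complex.I) = Complex.exp ((-t : ℝ) * Complex.I) := by
    rw [show ((2 * π - t : ℝ) : ℂ) * Complex.I
      = ((-t : ℝ) : ℂ) * Complex.I + 2 * π * Complex.I by push_cast; ring,
      Complex.exp_periodic]
  rw [this]

lemma star_p (C : Conf T pos) {u v : V} (huv : T.Adj u v) (st : Star T pos u v) (i : Fin 4)
    (sw : Star T pos v (st.e i)) (hr : ∀ k, sw.r k ≤ 1) :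
    SideHyp (Ap st.r i) (sw.r 3) (ap st.t i) (2 * π - sw.t 3) := by
  have hp := fun i => st.r_pos C huv i
  have key : ∀ {j : Fin 4}, i < j → SideHyp (st.r j / st.r i) (sw.r 3) (st.t j - st.t i)
      (2 * π - sw.t 3) := fun {j} hij =>
    side_plus C (st.adj i) (st.adj j) (st.e_ne hij.ne' C huv) sw hr
      (div_pos (hp j) (hp i)) (sub_pos.2 (st.mono hij)) (by linarith [st.t0 i, st.t1 j])
      (polar_div (hp i).ne' (st.pol' i) (st.pol' j)) 3
  fin_cases i
  · exact key (by decide)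
  · exact key (by decide)
  · exact key (by decide)
  · exact side_plus C (st.adj 3) huv.symm (st.ne 3).symm sw hr (inv_pos.2 (hp 3))
      (by linarith [st.t1 3]) (by linarith [st.t0 3]) (polar_inv' (hp 3).ne' (st.pol' 3)) 3

lemma star_m (C : Conf T pos) {u v : V} (huv : T.Adj u v) (st : Star T pos u v) (i : Fin 4)
    (sw : Star T pos v (st.e i)) (hr : ∀ k, sw.r k ≤ 1) :
    SideHyp (Am st.r i) (sw.r 0) (am st.t i) (sw.t 0) := by
  have hp := fun i => st.r_pos C huv i
  have key : ∀ {j : Fin 4}, j < i → SideHyp (st.r j / st.r i) (sw.r 0) (st.t i - st.t j)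
      (sw.t 0) := fun {j} hij =>
    side_minus C (st.adj i) (st.adj j) (st.e_ne hij.ne C huv) sw hr
      (div_pos (hp j) (hp i)) (sub_pos.2 (st.mono hij)) (by linarith [st.t0 j, st.t1 i])
      (by rw [neg_sub]; exact polar_div (hp i).ne' (st.pol' i) (st.pol' j)) 0
  fin_cases i
  · exact side_minus C (st.adj 0) huv.symm (st.ne 0).symm sw hr (inv_pos.2 (hp 0))
      (st.t0 0) (st.t1 0) (polar_inv (hp 0).ne' (st.pol' 0)) 0
  · exact key (by decide)
  · exact key (by decide)
  · exact key (by decide)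

/-- existence of the angular ordering -/
lemma exists_star (C : Conf T pos) {u v : V} (huv : T.Adj u v)
    (hd : (T.neighborSet v).ncard = 5) : Nonempty (Star T pos u v) := by
  classical
  have hfin : (T.neighborSet v).Finite := Set.finite_of_ncard_ne_zero (by rw [hd]; norm_num)
  set F : Finset V := hfin.toFinset.erase u with hF
  have hmem : ∀ x, x ∈ F ↔ T.Adj v x ∧ x ≠ u := by
    intro x
    rw [hF, Finset.mem_erase, Set.Finite.mem_toFinset, SimpleGraph.mem_neighborSet]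
    tauto
  have hcard : F.card = 4 := by
    rw [hF, Finset.card_erase_of_mem, ← Set.ncard_eq_toFinset_card _ hfin, hd]
    rw [Set.Finite.mem_toFinset]
    exact huv.symm
  set θ : V → ℝ := fun x => ang (pos x - pos v) (pos u - pos v) with hθ
  have hw : pos u - pos v ≠ 0 := by rw [← norm_pos_iff]; exact C.norm_pos huv
  have hpol : ∀ x, pos x - pos v = ((‖pos x - pos v‖ / ‖pos u - pos v‖ : ℝ) : ℂ)
      * Complex.exp (θ x * Complex.I) * (pos u - pos v) := fun x => polar_ang hw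
  have hr : ∀ x ∈ F, 0 < ‖pos x - pos v‖ / ‖pos u - pos v‖ := fun x hx =>
    div_pos (C.norm_pos' ((hmem x).1 hx).1) (C.norm_pos huv)
  have hinj : Set.InjOn θ F := by
    intro x hx y hy hxy
    by_contra hne
    have h1 := polar_div (hr x hx).ne' (hpol x) (hpol y)
    have h2 := C.cos_le ((hmem x).1 hx).1 ((hmem y).1 hy).1 (Ne.symm hne)
      (div_pos (hr y hy) (hr x hx)) h1
    rw [hxy, sub_self, Real.cos_zero] at h2
    have := min_inv_le_one (div_pos (hr y hy) (hr x hx))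
    linarith
  have hθ0 : ∀ x ∈ F, 0 < θ x := by
    intro x hx
    rcases (ang_nonneg (pos x - pos v) (pos u - pos v)).eq_or_lt with h | h
    · exfalso
      have h2 := C.cos_le huv.symm ((hmem x).1 hx).1 ((hmem x).1 hx).2 (hr x hx) (hpol x)
      rw [hθ] at h2
      simp only at h2
      rw [← h, Real.cos_zero] at h2
      have := min_inv_le_one (hr x hx)
      linarith
    · exact h
  have hs : (F.image θ).card = 4 := by rw [Finset.card_image_of_injOn hinj, hcard]
  have hex : ∀ i, ∃ x ∈ F, θ x = (F.image θ).orderEmbOfFin hs i := by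
    intro i
    have := Finset.orderEmbOfFin_mem (F.image θ) hs i
    rwa [Finset.mem_image] at this
  choose e he1 he2 using hex
  refine ⟨⟨e, fun i => θ (e i), fun i => ((hmem _).1 (he1 i)).1, fun i => ((hmem _).1 (he1 i)).2,
    ?_, ?_, fun i => hθ0 _ (he1 i), fun i => ang_lt _ _, fun i => hpol _⟩⟩
  · intro x hx hxu
    have hxF : x ∈ F := (hmem x).2 ⟨hx, hxu⟩
    have : θ x ∈ Set.range ((F.image θ).orderEmbOfFin hs) := by
      rw [Finset.range_orderEmbOfFin]
      exact Finset.mem_coe.2 (Finset.mem_image_of_mem _ hxF)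
    obtain ⟨i, hi⟩ := this
    refine ⟨i, hinj (he1 i) hxF ?_⟩
    rw [he2, hi]
  · intro i j hij
    simp only
    rw [he2, he2]
    exact ((F.image θ).orderEmbOfFin hs).strictMono hij

/-- no local minima -/
lemma no_local_min (C : Conf T pos) {v w : V} (hvw : T.Adj v w) (sv : Star T pos w v)
    (sw : Star T pos v w) (hv : ∃ i, 1 ≤ sv.r i) (hw : ∃ i, 1 ≤ sw.r i) : False := by
  have hpi := Real.pi_pos
  have gv := gap3 (A := sv.r) (sv.r_pos C hvw.symm) (sv.gap_strict C hvw.symm (i := 0) (j := 1) (by decide))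
    (sv.gap_strict C hvw.symm (i := 1) (j := 2) (by decide))
    (sv.gap_strict C hvw.symm (i := 2) (j := 3) (by decide))
    (by rw [← D_inv, inv_div]; exact sv.gap C hvw.symm (by decide))
    (by rw [← D_inv, inv_div]; exact sv.gap C hvw.symm (by decide))
    (by rw [← D_inv, inv_div]; exact sv.gap C hvw.symm (by decide)) hv
  have gw := gap3 (A := sw.r) (sw.r_pos C hvw) (sw.gap_strict C hvw (i := 0) (j := 1) (by decide))
    (sw.gap_strict C hvw (i := 1) (j := 2) (by decide))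
    (sw.gap_strict C hvw (i := 2) (j := 3) (by decide))
    (by rw [← D_inv, inv_div]; exact sw.gap C hvw (by decide))
    (by rw [← D_inv, inv_div]; exact sw.gap C hvw (by decide))
    (by rw [← D_inv, inv_div]; exact sw.gap C hvw (by decide)) hw
  have side : ∀ i j, 5 * π / 3 ≤ sv.t i + (2 * π - sw.t j) + f (tr (sv.r i)) + f (tr (sw.r j)) := by
    intro i j
    obtain ⟨c1, c2, c3⟩ := C.cross hvw (sv.adj i) (sw.adj j) (sv.ne i) (sw.ne j)
      (sv.r_pos C hvw.symm i) (sw.r_pos C hvw j) (sv.pol' i) (sw.pol' j)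
    have e1 : cos (2 * π - sw.t j) = cos (sw.t j) := Real.cos_two_pi_sub _
    have e2 : cos (sv.t i + (2 * π - sw.t j)) = cos (sv.t i - sw.t j) := by
      rw [show sv.t i + (2 * π - sw.t j) = (sv.t i - sw.t j) + 2 * π by ring,
        Real.cos_add_two_pi]
    apply sideN (sv.r_pos C hvw.symm i) (sw.r_pos C hvw j) (sv.t0 i) (sv.t1 i)
      (by linarith [sw.t1 j]) (by linarith [sw.t0 j]) (sv.cos_le C hvw.symm i)
      (by rw [e1]; exact sw.cos_le C hvw j)
    · unfold G; rw [e1, e2]; exact c1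
    · unfold G; rw [e1, e2]; exact c2
    · unfold G; rw [e1, e2]; exact c3
  have side' : ∀ i j, 5 * π / 3 ≤ (2 * π - sv.t i) + sw.t j + f (tr (sv.r i)) + f (tr (sw.r j)) := by
    intro i j
    obtain ⟨c1, c2, c3⟩ := C.cross hvw (sv.adj i) (sw.adj j) (sv.ne i) (sw.ne j)
      (sv.r_pos C hvw.symm i) (sw.r_pos C hvw j) (sv.pol' i) (sw.pol' j)
    have e1 : cos (2 * π - sv.t i) = cos (sv.t i) := Real.cos_two_pi_sub _
    have e2 : cos (2 * π - sv.t i + sw.t j) = cos (sv.t i - sw.t j) := by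
      rw [show 2 * π - sv.t i + sw.t j = 2 * π - (sv.t i - sw.t j) by ring,
        Real.cos_two_pi_sub]
    apply sideN (sv.r_pos C hvw.symm i) (sw.r_pos C hvw j) (by linarith [sv.t1 i])
      (by linarith [sv.t0 i]) (sw.t0 j) (sw.t1 j) (by rw [e1]; exact sv.cos_le C hvw.symm i)
      (sw.cos_le C hvw j)
    · unfold G; rw [e1, e2]; exact c1
    · unfold G; rw [e1, e2]; exact c2
    · unfold G; rw [e1, e2]; exact c3
  have s1 := side 0 3
  have s2 := side' 3 0
  linarith

end Pool.Agent.Lib.MP_9afe8f_co.LB
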