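import Pool.Agent.Lib.MP_9afe8f_co.Tree

namespace Pool.Agent.Lib.MP_9afe8f_co.LB

open SimpleGraph Real

lemma adj_kid {n : ℕ} {v w : Fin n} (hv : Inner v) {t : ℕ} (ht : t < 4)
    (hw : w.val = kid v t) : (tree n).Adj v w := by
  right
  rw [hw]
  exact ⟨le_trans (by norm_num) kid_ge_two, par_kid hv ht⟩

/-- one halving step inside the complete part of the tree -/
lemma down {n : ℕ} (hn : 27306 ≤ n) {pos : Fin n → ℂ} (C : Conf (tree n) pos) {x : ℝ}
    {u v : Fin n} (h1 : 1 ≤ v.val) (h2 : v.val < 1706) (hu : u.val = par v)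
    (h : Small (tree n) pos x u v) :
    ∃ w : Fin n, 4 * v.val + 2 ≤ w.val ∧ w.val ≤ 4 * v.val + 5 ∧ v.val = par w ∧
      Small (tree n) pos (x / 2) v w := by
  have huv : (tree n).Adj u v := Or.inr ⟨h1, hu.symm⟩
  have hv : Inner v := Or.inl h2
  have dv : Deg5 (tree n) v := tree_deg5 hv (by unfold kid; split_ifs; omega)
  have hkid : ∀ w : Fin n, (tree n).Adj v w → w ≠ u → ∃ t < 4, w.val = kid v t := by
    intro w hw hwu
    rcases tree_nbr hw with ⟨_, h4⟩ | ⟨h3, _⟩ | h3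
    · exact absurd (Fin.ext (h4.trans hu.symm)) hwu
    · omega
    · exact h3
  have hkid2 : ∀ w : Fin n, (tree n).Adj v w → w ≠ u →
      4 * v.val + 2 ≤ w.val ∧ w.val ≤ 4 * v.val + 5 ∧ v.val = par w := by
    intro w hw hwu
    obtain ⟨t, ht, hwt⟩ := hkid w hw hwu
    have h5 := par_kid hv ht
    rw [← hwt] at h5
    unfold kid at hwt
    rw [if_pos h2] at hwt
    exact ⟨by omega, by omega, h5.symm⟩
  obtain ⟨w, hw, hwu, hS⟩ := halve C huv dv (fun w hw hwu => by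
    obtain ⟨h3, h4, -⟩ := hkid2 w hw hwu
    apply tree_deg5
    · unfold Inner; omega
    · unfold kid; split_ifs <;> omega) h
  obtain ⟨h3, h4, h5⟩ := hkid2 w hw hwu
  exact ⟨w, h3, h4, h5, hS⟩

/-- the start of a spine is in the small regime -/
lemma start {n : ℕ} (hn : 27306 ≤ n) {pos : Fin n → ℂ} (C : Conf (tree n) pos) :
    ∃ u v : Fin n, 1706 ≤ v.val ∧ v.val < 6826 ∧ u.val = par v ∧
      Small (tree n) pos (1 / 24) u v := by
  -- the root and two of its children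
  let r : Fin n := ⟨0, by omega⟩
  let a : Fin n := ⟨1, by omega⟩
  let b : Fin n := ⟨2, by omega⟩
  have ha : (tree n).Adj r a := Or.inr ⟨le_rfl, by simp [par, a, r]⟩
  have hb : (tree n).Adj r b := Or.inr ⟨by simp [b], by simp [par, b, r]⟩
  have hab : a ≠ b := by simp [a, b]
  have d5 : ∀ v : Fin n, v.val ≤ 5 → Deg5 (tree n) v := fun v hv =>
    tree_deg5 (Or.inl (by omega)) (by unfold kid; split_ifs <;> omega)
  have first : ∃ v : Fin n, 1 ≤ v.val ∧ v.val ≤ 5 ∧ r.val = par v ∧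
      Small (tree n) pos (π / 3) r v := by
    rcases le_total ‖pos r - pos a‖ ‖pos b - pos r‖ with h | h
    · exact ⟨a, by simp [a], by simp [a], by simp [par, a, r],
        small_init C hb.symm ha hab.symm (d5 _ (by simp [r])) (d5 _ (by simp [a])) h⟩
    · refine ⟨b, by simp [b], by simp [b], by simp [par, b, r],
        small_init C ha.symm hb hab (d5 _ (by simp [r])) (d5 _ (by simp [b])) ?_⟩
      rw [norm_sub_rev (pos r) (pos b), norm_sub_rev (pos a) (pos r)]; exact h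
  obtain ⟨v1, l1, m1, p1, s1⟩ := first
  obtain ⟨v2, l2, m2, p2, s2⟩ := down hn C l1 (by omega) p1 s1
  obtain ⟨v3, l3, m3, p3, s3⟩ := down hn C (by omega) (by omega) p2 s2
  obtain ⟨v4, l4, m4, p4, s4⟩ := down hn C (by omega) (by omega) p3 s3
  obtain ⟨v5, l5, m5, p5, s5⟩ := down hn C (by omega) (by omega) p4 s4
  obtain ⟨v6, l6, m6, p6, s6⟩ := down hn C (by omega) (by omega) p5 s5
  refine ⟨v5, v6, by omega, by omega, p6, ?_⟩
  obtain ⟨st, h1, h2⟩ := s6
  refine ⟨st, h1, h2.trans ?_⟩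
  have := Real.pi_lt_d2
  linarith

theorem lower {n K : ℕ} (hn : 27306 ≤ n) (hK : 6825 + 20480 * K < n) (hK1 : 1 ≤ K)
    {W H : ℕ} (h : HasGridDrawing (tree n) W H) :
    (3 / 2 : ℝ) ^ (K ^ 2) ≤ ((W : ℝ) * H) ^ 2 := by
  obtain ⟨p, hmin, hg⟩ := h
  have C := conf (tree_connected (by omega)) hmin
  obtain ⟨u, v, hv1, hv2, hu, hS⟩ := start hn C
  -- the spine
  obtain ⟨q, q0, qs⟩ : ∃ q : ℕ → Fin n, q 0 = u ∧
      ∀ k, v.val + 20480 * k < n → (q (k + 1)).val = v.val + 20480 * k := by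
    refine ⟨fun k => if h : k = 0 then u else
      if h' : v.val + 20480 * (k - 1) < n then ⟨v.val + 20480 * (k - 1), h'⟩ else v, by simp,
      fun k hk => ?_⟩
    simp only
    rw [dif_neg (by omega)]
    simp only [Nat.add_sub_cancel]
    rw [dif_pos hk]
  have q1 : q 1 = v := Fin.ext (by rw [qs 0 (by omega)]; rfl)
  have hin : ∀ k, k ≤ K → v.val + 20480 * k < n := by intro k hk; omega
  have hadj : ∀ k ≤ K, (tree n).Adj (q k) (q (k + 1)) := by
    intro k hk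
    rcases Nat.eq_zero_or_pos k with h0 | h0
    · subst h0
      rw [q0, q1]
      exact Or.inr ⟨by omega, hu.symm⟩
    · obtain ⟨j, rfl⟩ : ∃ j, k = j + 1 := ⟨k - 1, by omega⟩
      have e1 := qs j (hin j (by omega))
      have e2 := qs (j + 1) (hin (j + 1) hk)
      apply adj_kid (t := 3)
      · rw [e1]; unfold Inner; omega
      · norm_num
      · rw [e1, e2]; unfold kid; split_ifs <;> omega
  have hne : ∀ k < K, q (k + 2) ≠ q k := by
    intro k hk heq
    have e2 := qs (k + 1) (hin (k + 1) (by omega))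
    rcases Nat.eq_zero_or_pos k with h0 | h0
    · subst h0
      rw [q0] at heq
      have h3 := congrArg Fin.val heq
      rw [e2, hu] at h3
      have := par_lt (i := v.val) (by omega)
      omega
    · obtain ⟨j, rfl⟩ : ∃ j, k = j + 1 := ⟨k - 1, by omega⟩
      have e1 := qs j (hin j (by omega))
      have h3 := congrArg Fin.val heq
      rw [e1, e2] at h3
      omega
  have hdeg : ∀ k < K, Deg5 (tree n) (q (k + 1)) := by
    intro k hk
    have e1 := qs k (hin k (by omega))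
    have e2 := hin (k + 1) (by omega)
    have e3 : v.val + 20480 * k + 20480 < n := by
      linarith
    have e4 : ¬ (v.val + 20480 * k < 1706) := by
      have := Nat.le_add_right v.val (20480 * k); omega
    apply tree_deg5
    · rw [e1]; unfold Inner; omega
    · rw [e1]; unfold kid; rw [if_neg e4]
      exact e3
  have h1 := (spine C K q hadj hne hdeg (by rw [q0, q1]; exact hS) K le_rfl).2
  have h2 := one_le_norm (C.ne _ _ (hadj K le_rfl))
  have h3 := norm_le_grid hg (q 0) (q 1)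
  have h4 : (16 : ℝ) ≤ 16 ^ K := by
    calc (16 : ℝ) = 16 ^ 1 := by norm_num
      _ ≤ 16 ^ K := pow_le_pow_right₀ (by norm_num) hK1
  have h5 : (3 / 2 : ℝ) ^ (K ^ 2) * 16 * 1 ≤ (3 / 2) ^ (K ^ 2) * 16 ^ K
      * ‖cpos p (q K) - cpos p (q (K + 1))‖ ^ 2 := by
    gcongr
  have h6 := h5.trans (h1.trans h3)
  have h7 : (0 : ℝ) < (3 / 2) ^ (K ^ 2) := by positivity
  nlinarith

/-- explicit form: area at least `2 ^ (n² / 10¹⁰)` for all `n ≥ 10⁶` -/
theorem lower_explicit {n : ℕ} (hn : 10 ^ 6 ≤ n) {W H : ℕ} (h : HasGridDrawing (tree n) W H) :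
    (2 : ℝ) ^ ((n : ℝ) ^ 2 / 10 ^ 10) ≤ (W : ℝ) * H := by
  set K := (n - 6826) / 20480 with hK
  have hn' : 1000000 ≤ n := by simpa using hn
  have hK1 : 1 ≤ K := by omega
  have h1 := lower (K := K) (by omega) (by omega) hK1 h
  have hKn : (n : ℝ) / 25000 ≤ K := by
    have h2 : n ≤ 25000 * K := by omega
    have h3 : (n : ℝ) ≤ 25000 * K := by exact_mod_cast h2
    linarith
  have hWH : (0 : ℝ) ≤ (W : ℝ) * H := by positivity
  have h4 : ((2 : ℝ) ^ ((n : ℝ) ^ 2 / 10 ^ 10)) ^ 2 ≤ ((W : ℝ) * H) ^ 2 := by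
    refine le_trans ?_ h1
    have h5 : ((2 : ℝ) ^ ((n : ℝ) ^ 2 / 10 ^ 10)) ^ 2
        = (2 : ℝ) ^ ((n : ℝ) ^ 2 / 10 ^ 10 * 2) := by
      rw [Real.rpow_mul (by norm_num)]
      norm_cast
    have h6 : (2 : ℝ) ^ ((n : ℝ) ^ 2 / 10 ^ 10 * 2) ≤ (2 : ℝ) ^ ((K : ℝ) ^ 2 * (1 / 2)) := by
      apply Real.rpow_le_rpow_of_exponent_le (by norm_num)
      have h7 : ((n : ℝ) / 25000) ^ 2 ≤ (K : ℝ) ^ 2 := by
        apply pow_le_pow_left₀ (by positivity) hKn
      nlinarith [sq_nonneg (n : ℝ)]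
    have h8 : (2 : ℝ) ^ ((K : ℝ) ^ 2 * (1 / 2)) ≤ (3 / 2 : ℝ) ^ (K ^ 2) := by
      rw [mul_comm, Real.rpow_mul (by norm_num)]
      have h9 : ((2 : ℝ) ^ (1 / 2 : ℝ)) ≤ 3 / 2 := by
        rw [← Real.sqrt_eq_rpow, Real.sqrt_le_left (by norm_num)]
        norm_num
      have h10 : ((2 : ℝ) ^ (1 / 2 : ℝ)) ^ ((K : ℝ) ^ 2) = ((2 : ℝ) ^ (1 / 2 : ℝ)) ^ (K ^ 2) := by
        rw [← Real.rpow_natCast ((2 : ℝ) ^ (1 / 2 : ℝ)) (K ^ 2)]; push_cast; rfl
      rw [h10]
      exact pow_le_pow_left₀ (by positivity) h9 _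
    rw [h5]
    exact h6.trans h8
  exact le_of_sq_le_sq h4 hWH

end Pool.Agent.Lib.MP_9afe8f_co.LB
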