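import Mathlib

namespace Pool.Agent.Lib.MP_9afe8f_co

/-- A rooted tree given by its parent function and its depth function. -/
structure Rooted (V : Type) where
  ρ : V
  π : V → V
  dep : V → ℕ
  dep_root : dep ρ = 0
  dep_step : ∀ v, v ≠ ρ → dep v = dep (π v) + 1

namespace Rooted

variable {V : Type} (R : Rooted V)

lemma eq_root_of_dep {v : V} (h : R.dep v = 0) : v = R.ρ := by
  by_contra hne
  have := R.dep_step v hne
  omega

/-- `Desc c x`: `c` is an ancestor of `x`, or `c = x`. -/
inductive Desc (c : V) : V → Prop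
  | refl : Desc c c
  | step {v : V} : v ≠ R.ρ → Desc c (R.π v) → Desc c v

lemma desc_dep {c x : V} (h : R.Desc c x) : R.dep c ≤ R.dep x := by
  induction h with
  | refl => exact le_rfl
  | step hv _ ih =>
    have := R.dep_step _ hv
    omega

lemma desc_eq {c x : V} (h : R.Desc c x) (hd : R.dep x ≤ R.dep c) : c = x := by
  cases h with
  | refl => rfl
  | step hv h' =>
    have := R.dep_step _ hv
    have := R.desc_dep h'
    omega

lemma desc_trans {a b c : V} (h1 : R.Desc a b) (h2 : R.Desc b c) : R.Desc a c := by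
  induction h2 with
  | refl => exact h1
  | step hv _ ih => exact Desc.step hv ih

lemma desc_root (x : V) : R.Desc R.ρ x := by
  induction hd : R.dep x using Nat.strong_induction_on generalizing x with
  | _ n ih =>
    by_cases h : x = R.ρ
    · rw [h]; exact Desc.refl
    · have := R.dep_step x h
      exact Desc.step h (ih (R.dep (R.π x)) (by omega) (R.π x) rfl)

/-- two ancestors of the same vertex are comparable -/
lemma desc_chain {a b x : V} (ha : R.Desc a x) (hb : R.Desc b x) (hd : R.dep a ≤ R.dep b) :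
    R.Desc a b := by
  induction ha with
  | refl =>
    have := R.desc_dep hb
    have : b = a := R.desc_eq hb (by omega)
    rw [this]; exact Desc.refl
  | @step v hv h ih =>
    cases hb with
    | refl => exact Desc.step hv h
    | step _ hb' => exact ih hb'

lemma desc_parent {c x : V} (h : R.Desc c x) (hne : c ≠ x) : x ≠ R.ρ ∧ R.Desc c (R.π x) := by
  cases h with
  | refl => exact absurd rfl hne
  | step hv h' => exact ⟨hv, h'⟩

lemma desc_child {c x : V} (h : R.Desc c x) (hne : c ≠ x) :
    ∃ d, d ≠ R.ρ ∧ R.π d = c ∧ R.Desc d x := by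
  induction h with
  | refl => exact absurd rfl hne
  | @step v hv h ih =>
    by_cases hc : c = R.π v
    · exact ⟨v, hv, hc.symm, Desc.refl⟩
    · obtain ⟨d, h1, h2, h3⟩ := ih hc
      exact ⟨d, h1, h2, Desc.step hv h3⟩

/-- relative position of two vertices -/
lemma trichotomy (x y : V) (hne : x ≠ y) :
    (∃ d, d ≠ R.ρ ∧ R.π d = y ∧ R.Desc d x) ∨ (∃ d, d ≠ R.ρ ∧ R.π d = x ∧ R.Desc d y) ∨
      ∃ d d', d ≠ d' ∧ d ≠ R.ρ ∧ d' ≠ R.ρ ∧ R.π d = R.π d' ∧ R.Desc d x ∧ R.Desc d' y := by
  induction hn : R.dep x + R.dep y using Nat.strong_induction_on generalizing x y with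
  | _ n ih =>
    -- the case where `x` is at least as deep as `y`
    have main : ∀ x y : V, x ≠ y → R.dep x + R.dep y = n → R.dep y ≤ R.dep x →
        (∃ d, d ≠ R.ρ ∧ R.π d = y ∧ R.Desc d x) ∨ (∃ d, d ≠ R.ρ ∧ R.π d = x ∧ R.Desc d y) ∨
        ∃ d d', d ≠ d' ∧ d ≠ R.ρ ∧ d' ≠ R.ρ ∧ R.π d = R.π d' ∧ R.Desc d x ∧ R.Desc d' y := by
      intro x y hne hn hle
      have hx : x ≠ R.ρ := by
        intro h
        rw [h, R.dep_root] at hle
        have : y = R.ρ := R.eq_root_of_dep (by omega)
        exact hne (by rw [h, this])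
      have hstep := R.dep_step x hx
      by_cases hpy : R.π x = y
      · exact Or.inl ⟨x, hx, hpy, Desc.refl⟩
      · rcases ih (R.dep (R.π x) + R.dep y) (by omega) (R.π x) y hpy rfl with h | h | h
        · obtain ⟨d, h1, h2, h3⟩ := h
          exact Or.inl ⟨d, h1, h2, Desc.step hx h3⟩
        · obtain ⟨d, h1, h2, h3⟩ := h
          by_cases hdx : d = x
          · rw [hdx] at h3
            have := R.desc_eq h3 hle
            exact absurd this hne
          · exact Or.inr (Or.inr ⟨x, d, fun h => hdx h.symm, hx, h1, h2.symm, Desc.refl, h3⟩)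
        · obtain ⟨d, d', h1, h2, h3, h4, h5, h6⟩ := h
          exact Or.inr (Or.inr ⟨d, d', h1, h2, h3, h4, Desc.step hx h5, h6⟩)
    rcases le_total (R.dep y) (R.dep x) with h | h
    · exact main x y hne hn h
    · rcases main y x hne.symm (by omega) h with h | h | h
      · exact Or.inr (Or.inl h)
      · exact Or.inl h
      · obtain ⟨d, d', h1, h2, h3, h4, h5, h6⟩ := h
        exact Or.inr (Or.inr ⟨d', d, h1.symm, h3, h2, h4.symm, h6, h5⟩)

/-- recursion along the path to the root -/
def fold {α : Type} (f0 : α) (f : V → α → α) (v : V) : α :=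
  Nat.rec (motive := fun _ => V → α) (fun _ => f0) (fun _ ih v => f v (ih (R.π v))) (R.dep v) v

lemma fold_root {α : Type} (f0 : α) (f : V → α → α) : R.fold f0 f R.ρ = f0 := by
  unfold fold
  rw [R.dep_root]
  rfl

lemma fold_step {α : Type} (f0 : α) (f : V → α → α) {v : V} (hv : v ≠ R.ρ) :
    R.fold f0 f v = f v (R.fold f0 f (R.π v)) := by
  unfold fold
  rw [R.dep_step v hv]

end Rooted

end Pool.Agent.Lib.MP_9afe8f_co
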