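import Pool.Agent.Lib.MP_9afe8f_co.Trig

namespace Pool.Agent.Lib.MP_9afe8f_co.LB

open Real

lemma good {A B p q a b : ℝ} (hA : 0 < A) (hR : Rel A p) (hB : B = 2 * cos q)
    (hq : π / 3 ≤ q) (hq2 : q ≤ π / 2) (hBA : B ≤ A) (ha : p ≤ a) (hb : q ≤ b)
    (hb2 : b ≤ π) (hG : 1 + A ^ 2 - 2 * A * cos p ≤ G A B a b) : π - q + p ≤ a + b := by
  have hpi := Real.pi_pos
  by_contra hcon
  push Not at hcon
  obtain ⟨hp1, hp2, hR'⟩ := hR
  set h := (b - q) / 2 with hh
  have hbq : b = q + 2 * h := by rw [hh]; ring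
  have h0 : 0 ≤ h := by rw [hh]; linarith
  have h1 : G A B a b < G A B (π - 2 * q + p - 2 * h) b := by
    apply G_mono hA hB hq hq2 hb hb2 (by linarith) (by linarith)
    linarith
  have h2 : G A B (π - 2 * q + p - 2 * h) b ≤ 1 + A ^ 2 - 2 * A * cos p := by
    rw [← G_base (A := A) (p := p) hB]
    have e1 : cos (π - 2 * q + p) - cos (π - 2 * q + p - 2 * h)
        = - 2 * sin (π - 2 * q + p - h) * sin h := by
      rw [Real.cos_sub_cos]
      congr 2
      · ring_nf
      · ring_nf
    have e2 : cos (q + 2 * h) - cos q = - 2 * sin (q + h) * sin h := by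
      rw [Real.cos_sub_cos]
      congr 2
      · ring_nf
      · ring_nf
    have e3 : cos (π - 2 * q + p - 2 * h + (q + 2 * h)) = cos (π - 2 * q + p + q) := by
      congr 1; ring
    have e4 : sin (π - 2 * q + p - h) = sin (2 * q - p + h) := by
      rw [← Real.sin_pi_sub]; congr 1; ring
    have h3 := thresh_aux hA ⟨hp1, hp2, hR'⟩ hB hq hq2 hBA h0 (by linarith)
    have h4 : 0 ≤ sin h := Real.sin_nonneg_of_nonneg_of_le_pi h0 (by linarith)
    have h5 := mul_le_mul_of_nonneg_right h3 h4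
    rw [e4] at e1
    rw [hbq]
    unfold G
    rw [e3]
    linear_combination (2 * A) * e1 - (2 * B) * e2 + 4 * h5
  linarith

lemma small {A B p q a b : ℝ} (hA : 11 / 12 ≤ A) (hR : Rel A p) (hB : B = 2 * cos q)
    (hB1 : B ≤ 1 / 6) (hq : π / 3 ≤ q) (hq2 : q ≤ π / 2) (ha : p ≤ a) (hb : q ≤ b)
    (hb2 : b ≤ q + 1 / 2) (hG : 1 + A ^ 2 - 2 * A * cos p ≤ G A B a b) :
    2 * (π / 2 - q) - (b - q) / 2 ≤ a - p := by
  have hpi := Real.pi_pos
  have hpi3 := Real.pi_gt_three
  have hpi4 : π < 3.15 := Real.pi_lt_d2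
  by_contra hcon
  push Not at hcon
  obtain ⟨hp1, hp2, hR'⟩ := hR
  have hA0 : 0 < A := by linarith
  set k := (b - q) / 4 with hk
  have hbq : b = q + 4 * k := by rw [hk]; ring
  have h0 : 0 ≤ k := by rw [hk]; linarith
  have hk1 : k ≤ 1 / 8 := by rw [hk]; linarith
  have hB0 : 0 ≤ B := by
    rw [hB]
    have := Real.cos_nonneg_of_mem_Icc (x := q) ⟨by linarith, hq2⟩
    linarith
  -- q is close to π/2
  have hq3 : π / 2 - q ≤ 1 / 11 := by
    have h1 : sin (π / 2 - q) = cos q := Real.sin_pi_div_two_sub q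
    by_contra hc
    push Not at hc
    have h2 : sin (1 / 11) ≤ sin (π / 2 - q) :=
      Real.sin_le_sin_of_le_of_le_pi_div_two (by linarith) (by linarith) hc.le
    have h3 := Real.sin_gt_sub_cube (x := 1 / 11) (by norm_num)
    norm_num at h3
    rw [h1] at h2
    rw [hB] at hB1
    linarith
  have h1 : G A B a b < G A B (π - 2 * q + p - 2 * k) b := by
    apply G_mono hA0 hB hq hq2 hb (by linarith) (by linarith)
    · have : (b - q) / 2 = 2 * k := by rw [hk]; ring
      linarith
    · linarith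
  have h2 : G A B (π - 2 * q + p - 2 * k) b ≤ 1 + A ^ 2 - 2 * A * cos p := by
    rw [← G_base (A := A) (p := p) hB]
    have e1 : cos (π - 2 * q + p) - cos (π - 2 * q + p - 2 * k)
        = - 2 * sin (π - 2 * q + p - k) * sin k := by
      rw [Real.cos_sub_cos]
      congr 2
      · ring_nf
      · ring_nf
    have e2 : cos (q + 4 * k) - cos q = - 2 * sin (q + 2 * k) * sin (2 * k) := by
      rw [Real.cos_sub_cos]
      congr 2
      · ring_nf
      · ring_nf
    have e3 : cos (π - 2 * q + p - 2 * k + (q + 4 * k)) - cos (π - 2 * q + p + q)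
        = - 2 * sin (π - 2 * q + p + q + k) * sin k := by
      rw [Real.cos_sub_cos]
      congr 2
      · ring_nf
      · ring_nf
    have e4 : sin (π - 2 * q + p + q + k) = - sin (p + k - q) := by
      rw [show π - 2 * q + p + q + k = (p + k - q) + π by ring, Real.sin_add_pi]
    have hsk : 0 ≤ sin k := Real.sin_nonneg_of_nonneg_of_le_pi h0 (by linarith)
    -- three estimates
    have g1 : sin (q + 2 * k) * sin (2 * k) ≤ 2 * sin k := by
      have hs2k : 0 ≤ sin (2 * k) := Real.sin_nonneg_of_nonneg_of_le_pi (by linarith) (by linarith)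
      have : sin (2 * k) ≤ 2 * sin k := by
        rw [Real.sin_two_mul]
        have := Real.cos_le_one k
        nlinarith
      have h3 := Real.sin_le_one (q + 2 * k)
      nlinarith
    have g2 : sin (p + k - q) ≤ 1 / 4 := by
      by_cases hc : p + k - q ≤ 0
      · have := Real.sin_nonpos_of_nonpos_of_neg_pi_le hc (by linarith)
        linarith
      · push Not at hc
        have := Real.sin_lt hc
        linarith
    have g3 : 7 / 10 ≤ sin (π - 2 * q + p - k) := by
      -- the angle lies in [0.85, 2.2]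
      have hx : |π / 2 - (π - 2 * q + p - k)| ≤ 3 / 4 := by
        rw [abs_le]
        constructor <;> linarith
      have h4 : sin (π - 2 * q + p - k) = cos (π / 2 - (π - 2 * q + p - k)) := by
        rw [Real.cos_pi_div_two_sub]
      rw [h4]
      have h5 := Real.one_sub_sq_div_two_le_cos (x := π / 2 - (π - 2 * q + p - k))
      have h6 : (π / 2 - (π - 2 * q + p - k)) ^ 2 ≤ (3 / 4) ^ 2 := by
        rw [← sq_abs]
        exact pow_le_pow_left₀ (abs_nonneg _) hx 2
      linarith
    rw [hbq]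
    have hdiff : G A B (π - 2 * q + p - 2 * k) (q + 4 * k) - G A B (π - 2 * q + p) q
        = 4 * (B * (sin (q + 2 * k) * sin (2 * k)) + A * B * (sin (p + k - q) * sin k)
          - A * (sin (π - 2 * q + p - k) * sin k)) := by
      rw [e4] at e3
      unfold G
      linear_combination (2 * A) * e1 - (2 * B) * e2 + (2 * A * B) * e3
    have g1' : B * (sin (q + 2 * k) * sin (2 * k)) ≤ B * (2 * sin k) :=
      mul_le_mul_of_nonneg_left g1 hB0
    have g2' : A * B * (sin (p + k - q) * sin k) ≤ A * B * (1 / 4 * sin k) :=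
      mul_le_mul_of_nonneg_left (mul_le_mul_of_nonneg_right g2 hsk) (by positivity)
    have g3' : A * (7 / 10 * sin k) ≤ A * (sin (π - 2 * q + p - k) * sin k) :=
      mul_le_mul_of_nonneg_left (mul_le_mul_of_nonneg_right g3 hsk) hA0.le
    have g4 : B * (2 * sin k) + A * B * (1 / 4 * sin k) ≤ A * (7 / 10 * sin k) := by
      have h8 : B * 2 + A * B * (1 / 4) ≤ A * (7 / 10) := by
        clear_value k
        clear hdiff g1' g2' g3' e1 e2 e3 e4 g1 g2 g3 hG h1 hcon
        nlinarith
      have h9 := mul_le_mul_of_nonneg_right h8 hsk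
      linarith only [h9]
    have h7 : G A B (π - 2 * q + p - 2 * k) (q + 4 * k) - G A B (π - 2 * q + p) q ≤ 0 := by
      rw [hdiff]
      linarith only [g1', g2', g3', g4]
    exact sub_nonpos.1 h7
  exact absurd (lt_of_lt_of_le h1 h2) (not_lt.2 hG)

/-- least angle between edges of lengths in the ratio `A` -/
noncomputable def D (A : ℝ) : ℝ := f (min A A⁻¹)

lemma min_inv_le_one {A : ℝ} (hA : 0 < A) : min A A⁻¹ ≤ 1 := by
  rcases le_total A 1 with h | h
  · exact (min_le_left _ _).trans h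
  · exact (min_le_right _ _).trans (inv_le_one_of_one_le₀ h)

lemma min_inv_pos {A : ℝ} (hA : 0 < A) : 0 < min A A⁻¹ := lt_min hA (inv_pos.2 hA)

lemma D_of_le {A : ℝ} (hA : 0 < A) (h : A ≤ 1) : D A = f A := by
  unfold D
  rw [min_eq_left]
  exact h.trans ((one_le_inv₀ hA).2 h)

lemma D_of_ge {A : ℝ} (h : 1 ≤ A) : D A = f A⁻¹ := by
  unfold D
  rw [min_eq_right]
  exact (inv_le_one_of_one_le₀ h).trans h

lemma D_inv {A : ℝ} : D A⁻¹ = D A := by
  unfold D; rw [inv_inv, min_comm]

lemma D_ge {A : ℝ} (hA : 0 < A) : π / 3 ≤ D A := f_ge (min_inv_le_one hA)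

lemma D_le {A : ℝ} (hA : 0 < A) : D A ≤ π / 2 := f_le (min_inv_pos hA).le

lemma rel_D {A : ℝ} (hA : 0 < A) : Rel A (D A) := by
  refine ⟨D_ge hA, D_le hA, ?_⟩
  rcases le_total A 1 with h | h
  · left
    refine ⟨h, ?_⟩
    rw [D_of_le hA h, cos_f hA.le h]; ring
  · right
    refine ⟨h, ?_⟩
    rw [D_of_ge h, cos_f (inv_pos.2 hA).le (inv_le_one_of_one_le₀ h)]
    field_simp

lemma M_le {A B a b : ℝ} (hA : 0 < A) (h1 : 1 ≤ G A B a b) (h2 : A ^ 2 ≤ G A B a b) :
    1 + A ^ 2 - 2 * A * cos (D A) ≤ G A B a b := by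
  obtain ⟨-, -, h | h⟩ := rel_D hA
  · have : 2 * A * cos (D A) = A ^ 2 := by
      calc 2 * A * cos (D A) = A * (2 * cos (D A)) := by ring
        _ = A * A := by rw [← h.2]
        _ = A ^ 2 := by ring
    linarith
  · have : 2 * A * cos (D A) = 1 := by linarith [h.2, mul_comm (2 * cos (D A)) A]
    linarith

section side

variable {A B a b : ℝ} (hA : 0 < A) (hB0 : 0 < B) (hB1 : B ≤ 1) (ha0 : 0 < a)
  (ha : a < 2 * π) (hb0 : 0 < b) (hb : b < 2 * π) (hca : cos a ≤ min A A⁻¹ / 2)
  (hcb : cos b ≤ B / 2) (hG1 : 1 ≤ G A B a b) (hG2 : A ^ 2 ≤ G A B a b)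

include hA ha0 ha hca in
lemma D_le_angle : D A ≤ a :=
  f_le_of_cos (min_inv_pos hA).le (min_inv_le_one hA) ha0 ha hca

include hA hB0 hB1 ha0 ha hb0 hb hca hcb hG1 hG2

lemma side_good (hBA : B ≤ A) : π - f B - b ≤ a - D A := by
  have hpi := Real.pi_pos
  have hDa := D_le_angle hA ha0 ha hca
  have hfb := f_le_of_cos hB0.le hB1 hb0 hb hcb
  have h3 := f_ge hB1
  rcases le_or_gt b π with hbp | hbp
  · have := good hA (rel_D hA) (B := B) (q := f B) (by rw [cos_f hB0.le hB1]; ring)
      h3 (f_le hB0.le) hBA hDa hfb hbp (M_le hA hG1 hG2)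
    linarith
  · linarith

lemma side_bad (hBA : A < B) : π - f B - b ≤ a + D A - 2 * π / 3 := by
  have hpi := Real.pi_pos
  have hDa := D_le_angle hA ha0 ha hca
  have hfb := f_le_of_cos hB0.le hB1 hb0 hb hcb
  have h3 := f_ge hB1
  have h4 := D_ge hA
  have hA1 : A ≤ 1 := by linarith
  have hDA : D A = f A := D_of_le hA hA1
  have hDB : D B = f B := D_of_le hB0 hB1
  rcases le_or_gt b π with hbp | hbp
  · rcases le_or_gt a π with hap | hap
    · have := good (A := B) (B := A) (p := D B) (q := f A) (a := b) (b := a) hB0 (rel_D hB0)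
        (by rw [cos_f hA.le hA1]; ring) (f_ge hA1) (f_le hA.le) hBA.le
        (by rw [hDB]; exact hfb) (by rw [← hDA]; exact hDa) hap
        (by
          apply M_le hB0
          · rw [G_symm]; exact hG1
          · rw [G_symm]
            refine le_trans ?_ hG1
            nlinarith)
      rw [hDB] at this
      rw [hDA]
      linarith
    · linarith
  · linarith

/-- Combined form for one side of an inner gap. -/
lemma side_any : π - f B - b ≤ a + D A - 2 * π / 3 := by
  have h4 := D_ge hA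
  rcases le_or_gt B A with h | h
  · have := side_good hA hB0 hB1 ha0 ha hb0 hb hca hcb hG1 hG2 h
    linarith
  · exact side_bad hA hB0 hB1 ha0 ha hb0 hb hca hcb hG1 hG2 h

lemma side_small (hBs : B ≤ 1 / 6) (hAs : 11 / 12 ≤ A) (hbs : b ≤ f B + 1 / 2) :
    2 * (π / 2 - f B) - (b - f B) / 2 ≤ a - D A := by
  have hDa := D_le_angle hA ha0 ha hca
  have hfb := f_le_of_cos hB0.le hB1 hb0 hb hcb
  exact small hAs (rel_D hA) (by rw [cos_f hB0.le hB1]; ring) hBs (f_ge hB1) (f_le hB0.le)
    hDa hfb hbs (M_le hA hG1 hG2)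

end side

/-- truncated length -/
noncomputable def tr (x : ℝ) : ℝ := min x 1

/-- the inequality behind the absence of local minima -/
lemma sideN {A B a b : ℝ} (hA : 0 < A) (hB : 0 < B) (ha0 : 0 < a) (ha : a < 2 * π)
    (hb0 : 0 < b) (hb : b < 2 * π) (hca : cos a ≤ min A A⁻¹ / 2) (hcb : cos b ≤ min B B⁻¹ / 2)
    (hG1 : 1 ≤ G A B a b) (hG2 : A ^ 2 ≤ G A B a b) (hG3 : B ^ 2 ≤ G A B a b) :
    5 * π / 3 ≤ a + b + f (tr A) + f (tr B) := by
  have hpi := Real.pi_pos
  unfold tr
  rcases le_or_gt A 1 with hA1 | hA1 <;> rcases le_or_gt B 1 with hB1 | hB1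
  · -- both at most one
    rw [min_eq_left hA1, min_eq_left hB1]
    rw [show min B B⁻¹ = B from min_eq_left (hB1.trans ((one_le_inv₀ hB).2 hB1))] at hcb
    have hDA : D A = f A := D_of_le hA hA1
    have h1 := f_ge hA1
    have h2 := f_ge hB1
    rcases le_total B A with h | h
    · have := side_good hA hB hB1 ha0 ha hb0 hb hca hcb hG1 hG2 h
      rw [hDA] at this
      linarith
    · have hca' : cos a ≤ A / 2 := by
        rwa [show min A A⁻¹ = A from min_eq_left (hA1.trans ((one_le_inv₀ hA).2 hA1))] at hca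
      have hcb' : cos b ≤ min B B⁻¹ / 2 := by
        rwa [show min B B⁻¹ = B from min_eq_left (hB1.trans ((one_le_inv₀ hB).2 hB1))]
      have := side_good (A := B) (B := A) (a := b) (b := a) hB hA hA1 hb0 hb ha0 ha hcb' hca'
        (by rw [G_symm]; exact hG1) (by rw [G_symm]; exact hG3) h
      rw [D_of_le hB hB1] at this
      linarith
  · -- A ≤ 1 < B
    rw [min_eq_left hA1, min_eq_right hB1.le, f_one]
    have hca' : cos a ≤ A / 2 := by
      rwa [show min A A⁻¹ = A from min_eq_left (hA1.trans ((one_le_inv₀ hA).2 hA1))] at hca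
    have := side_good (A := B) (B := A) (a := b) (b := a) hB hA hA1 hb0 hb ha0 ha hcb hca'
      (by rw [G_symm]; exact hG1) (by rw [G_symm]; exact hG3) (by linarith)
    have h3 := D_ge hB
    linarith
  · rw [min_eq_left hB1, min_eq_right hA1.le, f_one]
    have hcb' : cos b ≤ B / 2 := by
      rwa [show min B B⁻¹ = B from min_eq_left (hB1.trans ((one_le_inv₀ hB).2 hB1))] at hcb
    have := side_good hA hB hB1 ha0 ha hb0 hb hca hcb' hG1 hG2 (by linarith)
    have h3 := D_ge hA
    linarith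
  · -- both larger than one
    rw [min_eq_right hB1.le, min_eq_right hA1.le, f_one]
    suffices h : π ≤ a + b by linarith
    by_contra hcon
    push Not at hcon
    have hA' : min A A⁻¹ = A⁻¹ := min_eq_right ((inv_le_one_of_one_le₀ hA1.le).trans hA1.le)
    have hB' : min B B⁻¹ = B⁻¹ := min_eq_right ((inv_le_one_of_one_le₀ hB1.le).trans hB1.le)
    rw [hA'] at hca
    rw [hB'] at hcb
    have hAB : 0 < A * B := mul_pos hA hB
    have ca : 2 * A * cos a ≤ 1 := by
      have := mul_le_mul_of_nonneg_left hca (by positivity : 0 ≤ 2 * A)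
      have e : 2 * A * (A⁻¹ / 2) = 1 := by field_simp
      linarith
    have cb : 2 * B * cos b ≤ 1 := by
      have := mul_le_mul_of_nonneg_left hcb (by positivity : 0 ≤ 2 * B)
      have e : 2 * B * (B⁻¹ / 2) = 1 := by field_simp
      linarith
    -- truncated inequality
    have key : 0 ≤ 2 - 2 * cos a - 2 * cos b + 2 * cos (a + b) := by
      -- multiplied by A * B
      have h5 : 0 ≤ A * B * (2 - 2 * cos a - 2 * cos b + 2 * cos (a + b)) := by
        unfold G at hG2 hG3
        rcases le_total B A with h | h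
        · nlinarith [mul_nonneg (sub_nonneg.2 ca) (sub_nonneg.2 hB1.le),
            mul_nonneg (sub_nonneg.2 cb) (sub_nonneg.2 hA1.le),
            mul_nonneg (sub_nonneg.2 h) (sub_nonneg.2 hB1.le),
            mul_nonneg (sub_nonneg.2 hA1.le) (sub_nonneg.2 hB1.le)]
        · nlinarith [mul_nonneg (sub_nonneg.2 ca) (sub_nonneg.2 hB1.le),
            mul_nonneg (sub_nonneg.2 cb) (sub_nonneg.2 hA1.le),
            mul_nonneg (sub_nonneg.2 h) (sub_nonneg.2 hA1.le),
            mul_nonneg (sub_nonneg.2 hA1.le) (sub_nonneg.2 hB1.le)]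
      by_contra hneg
      push Not at hneg
      have := mul_neg_of_pos_of_neg hAB hneg
      linarith
    have e1 : 2 - 2 * cos a - 2 * cos b + 2 * cos (a + b)
        = 4 * cos ((a + b) / 2) * (cos ((a + b) / 2) - cos ((a - b) / 2)) := by
      have e2 : cos a + cos b = 2 * cos ((a + b) / 2) * cos ((a - b) / 2) := Real.cos_add_cos a b
      have e3 : cos (a + b) = 2 * cos ((a + b) / 2) ^ 2 - 1 := by
        rw [← Real.cos_two_mul]; congr 1; ring
      rw [e3]
      linear_combination (-2) * e2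
    rw [e1] at key
    have h6 : 0 < cos ((a + b) / 2) :=
      Real.cos_pos_of_mem_Ioo ⟨by linarith, by linarith⟩
    have h7 : cos ((a + b) / 2) < cos ((a - b) / 2) := by
      rw [← Real.cos_abs ((a - b) / 2)]
      apply Real.cos_lt_cos_of_nonneg_of_le_pi (abs_nonneg _) (by linarith)
      rw [abs_lt]
      constructor <;> linarith
    nlinarith

end Pool.Agent.Lib.MP_9afe8f_co.LB
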