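import Pool.Agent.Lib.MP_9afe8f_co.Drawing

namespace Pool.Agent.Lib.MP_9afe8f_co

namespace Rooted

open Classical

variable {V : Type} [Fintype V] (R : Rooted V)

/-- number of vertices that are not below `v` -/
noncomputable def out (v : V) : ℕ := (Finset.univ.filter (fun x => ¬ R.Desc v x)).card

lemma out_step {v : V} (hv : v ≠ R.ρ) :
    R.out (R.π v) + (R.ch (R.π v)).card ≤ R.out v := by
  have hd := R.dep_step v hv
  -- the new vertices
  have h1 : Finset.univ.filter (fun x => ¬ R.Desc (R.π v) x) ∪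
      insert (R.π v) ((R.ch (R.π v)).erase v) ⊆ Finset.univ.filter (fun x => ¬ R.Desc v x) := by
    intro x hx
    rw [Finset.mem_union, Finset.mem_insert, Finset.mem_erase, R.mem_ch] at hx
    rw [Finset.mem_filter]
    refine ⟨Finset.mem_univ _, fun hcon => ?_⟩
    rcases hx with hx | hx | hx
    · rw [Finset.mem_filter] at hx
      exact hx.2 (R.desc_trans (Desc.step hv Desc.refl) hcon)
    · rw [hx] at hcon
      have := R.desc_dep hcon
      omega
    · obtain ⟨hxv, hxρ, hxp⟩ := hx
      have h2 := R.dep_step x hxρ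
      rw [hxp] at h2
      exact hxv (R.desc_eq hcon (by omega)).symm
  have h2 : Disjoint (Finset.univ.filter (fun x => ¬ R.Desc (R.π v) x))
      (insert (R.π v) ((R.ch (R.π v)).erase v)) := by
    rw [Finset.disjoint_left]
    intro x hx hx'
    rw [Finset.mem_filter] at hx
    rw [Finset.mem_insert, Finset.mem_erase, R.mem_ch] at hx'
    rcases hx' with hx' | ⟨_, hxρ, hxp⟩
    · exact hx.2 (by rw [hx']; exact Desc.refl)
    · exact hx.2 (Desc.step hxρ (by rw [hxp]; exact Desc.refl))
  have h3 : R.π v ∉ (R.ch (R.π v)).erase v := by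
    rw [Finset.mem_erase, R.mem_ch]
    rintro ⟨_, h4, h5⟩
    have := R.dep_step _ h4
    rw [h5] at this
    omega
  have h4 : ((R.ch (R.π v)).erase v).card + 1 = (R.ch (R.π v)).card :=
    Finset.card_erase_add_one (R.mem_ch.2 ⟨hv, rfl⟩)
  have h5 := Finset.card_le_card h1
  rw [Finset.card_union_of_disjoint h2, Finset.card_insert_of_notMem h3] at h5
  unfold out
  omega

lemma ch_card_pos {v : V} (hv : v ≠ R.ρ) : 1 ≤ (R.ch (R.π v)).card :=
  Finset.card_pos.2 ⟨v, R.mem_ch.2 ⟨hv, rfl⟩⟩

lemma bounds (v : V) : 4 * R.run v ≤ R.out v ∧ R.dep v ≤ R.out v ∧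
    8 * R.ex v ≤ R.out v ^ 2 + 4 * R.out v + 32 * R.dep v := by
  induction hd : R.dep v using Nat.strong_induction_on generalizing v with
  | _ n ih =>
    by_cases hv : v = R.ρ
    · subst hv
      have h1 : R.run R.ρ = 0 := by unfold run; rw [R.fold_root]
      have h2 : R.ex R.ρ = 0 := by unfold ex; rw [R.fold_root]
      have h3 := R.dep_root
      rw [h1, h2]
      refine ⟨by omega, by omega, by omega⟩
    · have hstep := R.dep_step v hv
      obtain ⟨ih1, ih2, ih3⟩ := ih (R.dep (R.π v)) (by omega) (R.π v) rfl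
      have hout := R.out_step hv
      have hc := R.ch_card_pos hv
      have hrun := R.run_step hv
      have hex := R.ex_step hv
      by_cases h4 : (R.ch (R.π v)).card = 4
      · rw [if_pos h4] at hrun
        rw [h4] at hout
        refine ⟨by omega, by omega, ?_⟩
        rw [hex, hrun]
        have h5 : (R.out (R.π v) + 4) ^ 2 ≤ R.out v ^ 2 := Nat.pow_le_pow_left hout 2
        have h6 : (R.out (R.π v) + 4) ^ 2 = R.out (R.π v) ^ 2 + 8 * R.out (R.π v) + 16 := by ring
        omega
      · rw [if_neg h4] at hrun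
        refine ⟨by omega, by omega, ?_⟩
        rw [hex, hrun]
        have h5 : (R.out (R.π v)) ^ 2 ≤ R.out v ^ 2 := Nat.pow_le_pow_left (by omega) 2
        omega

lemma out_le (v : V) : R.out v ≤ Fintype.card V := by
  unfold out
  exact Finset.card_le_univ _

lemma ex_le (v : V) : R.ex v ≤ (Fintype.card V ^ 2 + 36 * Fintype.card V) / 8 := by
  obtain ⟨h1, h2, h3⟩ := R.bounds v
  have h4 := R.out_le v
  have h5 : R.out v ^ 2 ≤ Fintype.card V ^ 2 := Nat.pow_le_pow_left h4 2
  rw [Nat.le_div_iff_mul_le (by norm_num)]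
  omega

end Rooted

end Pool.Agent.Lib.MP_9afe8f_co
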