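import Pool.Agent.Lib.MP_9afe8f_co.Exchange

namespace Pool.Agent.Lib.MP_9afe8f_co.LB

open SimpleGraph

/-- parent function: the complete tree on `0, …, 6825` (the root has five children, every other
inner vertex four), followed by `5120` caterpillars that grow in parallel -/
def par (i : ℕ) : ℕ :=
  if i < 6826 then (i - 2) / 4 else 1706 + 20480 * ((i - 6826) / 20480) + (i - 6826) % 5120

/-- the four children of an inner vertex `v` -/
def kid (v t : ℕ) : ℕ := if v < 1706 then 4 * v + 2 + t else v + 5120 * (t + 1)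

/-- inner vertices -/
def Inner (v : ℕ) : Prop := v < 1706 ∨ (v - 1706) % 20480 < 5120

lemma par_lt {i : ℕ} (h : 1 ≤ i) : par i < i := by
  unfold par; split_ifs <;> omega

lemma kid_gt {v t : ℕ} : v < kid v t := by
  unfold kid; split_ifs <;> omega

lemma kid_ge_two {v t : ℕ} : 2 ≤ kid v t := by
  unfold kid; split_ifs <;> omega

lemma par_kid {v t : ℕ} (hv : Inner v) (ht : t < 4) : par (kid v t) = v := by
  unfold Inner at hv
  unfold par kid
  interval_cases t <;> split_ifs <;> omega

lemma kid_of_par {w : ℕ} (hw : 2 ≤ w) : ∃ t < 4, w = kid (par w) t := by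
  unfold kid par
  by_cases h : w < 6826
  · rw [if_pos h]
    refine ⟨(w - 2) % 4, by omega, ?_⟩
    split_ifs <;> omega
  · rw [if_neg h]
    refine ⟨((w - 6826) % 20480) / 5120, by omega, ?_⟩
    split_ifs <;> omega

lemma inner_par {w : ℕ} : Inner (par w) := by
  unfold Inner par
  split_ifs <;> omega

/-- the tree -/
def tree (n : ℕ) : SimpleGraph (Fin n) where
  Adj i j := (1 ≤ i.val ∧ par i = j) ∨ (1 ≤ j.val ∧ par j = i)
  symm := ⟨fun _ _ h => h.symm⟩
  loopless := ⟨fun i h => by
    rcases h with ⟨h1, h2⟩ | ⟨h1, h2⟩ <;> · have := par_lt h1; omega⟩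

lemma tree_adj {n : ℕ} {i j : Fin n} :
    (tree n).Adj i j ↔ (1 ≤ i.val ∧ par i = j) ∨ (1 ≤ j.val ∧ par j = i) := Iff.rfl

lemma tree_connected {n : ℕ} (hn : 0 < n) : (tree n).Connected := by
  have : Nonempty (Fin n) := ⟨⟨0, hn⟩⟩
  have key : ∀ k (hk : k < n), (tree n).Reachable ⟨0, hn⟩ ⟨k, hk⟩ := by
    intro k
    induction k using Nat.strong_induction_on with
    | _ k ih =>
      intro hk
      rcases Nat.eq_zero_or_pos k with h0 | h0
      · subst h0; exact Reachable.refl _
      · have h1 := par_lt h0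
        refine (ih (par k) h1 (h1.trans hk)).trans ?_
        apply SimpleGraph.Adj.reachable
        exact Or.inr ⟨h0, rfl⟩
  exact ⟨fun u v => (key u.val u.isLt).symm.trans (key v.val v.isLt)⟩

lemma tree_isTree {n : ℕ} (hn : 0 < n) : (tree n).IsTree := by
  rw [isTree_iff_connected_and_card]
  refine ⟨tree_connected hn, ?_⟩
  have hE : (tree n).edgeSet = (fun i : Fin n => s(i, (⟨par i, by
      rcases Nat.eq_zero_or_pos i.val with h | h
      · rw [h]; unfold par; simp; exact hn
      · exact (par_lt h).trans i.isLt⟩ : Fin n))) '' {i : Fin n | 1 ≤ i.val} := by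
    ext e
    induction e with
    | _ x y =>
      rw [SimpleGraph.mem_edgeSet, tree_adj, Set.mem_image]
      constructor
      · rintro (⟨h1, h2⟩ | ⟨h1, h2⟩)
        · exact ⟨x, h1, by rw [Sym2.eq_iff]; left; exact ⟨rfl, Fin.ext h2⟩⟩
        · exact ⟨y, h1, by rw [Sym2.eq_iff]; right; exact ⟨rfl, Fin.ext h2⟩⟩
      · rintro ⟨i, h1, h2⟩
        rw [Sym2.eq_iff] at h2
        rcases h2 with ⟨rfl, rfl⟩ | ⟨rfl, rfl⟩
        · left; exact ⟨h1, rfl⟩
        · right; exact ⟨h1, rfl⟩
  have hinj : Set.InjOn (fun i : Fin n => s(i, (⟨par i, by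
      rcases Nat.eq_zero_or_pos i.val with h | h
      · rw [h]; unfold par; simp; exact hn
      · exact (par_lt h).trans i.isLt⟩ : Fin n))) {i : Fin n | 1 ≤ i.val} := by
    intro i hi j hj hij
    simp only at hij
    rw [Sym2.eq_iff] at hij
    rcases hij with ⟨h1, _⟩ | ⟨h1, h2⟩
    · exact h1
    · exfalso
      have h3 := congrArg Fin.val h1
      have h4 := congrArg Fin.val h2
      simp only at h3 h4
      have h5 := par_lt hi
      have h6 := par_lt hj
      omega
  rw [Nat.card_coe_set_eq, hE, Set.InjOn.ncard_image hinj, Nat.card_eq_fintype_card,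
    Fintype.card_fin]
  have h1 : {i : Fin n | 1 ≤ i.val} = {(⟨0, hn⟩ : Fin n)}ᶜ := by
    ext i
    rw [Set.mem_ofPred_eq, Set.mem_compl_iff, Set.mem_singleton_iff, Fin.ext_iff]
    simp only
    omega
  have h2 := Set.ncard_compl_add_ncard ({(⟨0, hn⟩ : Fin n)} : Set (Fin n))
  rw [Set.ncard_singleton, Nat.card_eq_fintype_card, Fintype.card_fin] at h2
  rw [h1]
  exact h2

/-- neighbours of a vertex -/
lemma tree_nbr {n : ℕ} {v w : Fin n} (h : (tree n).Adj v w) :
    (1 ≤ v.val ∧ w.val = par v) ∨ (v.val = 0 ∧ w.val = 1) ∨ ∃ t < 4, w.val = kid v t := by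
  rcases h with ⟨h1, h2⟩ | ⟨h1, h2⟩
  · left; exact ⟨h1, h2.symm⟩
  · right
    rcases Nat.lt_or_ge w.val 2 with h3 | h3
    · left
      have : w.val = 1 := by omega
      rw [this] at h2
      exact ⟨by rw [← h2]; unfold par; simp, this⟩
    · right
      obtain ⟨t, ht, hw⟩ := kid_of_par h3
      rw [h2] at hw
      exact ⟨t, ht, hw⟩

lemma tree_deg {n : ℕ} (v : Fin n) : ((tree n).neighborSet v).ncard ≤ 5 := by
  classical
  rw [← Set.ncard_image_of_injective _ Fin.val_injective]
  set F : Finset ℕ := {if v.val = 0 then 1 else par v, kid v 0, kid v 1, kid v 2, kid v 3} with hF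
  have hsub : Fin.val '' ((tree n).neighborSet v) ⊆ (F : Set ℕ) := by
    rintro x ⟨w, hw, rfl⟩
    rw [SimpleGraph.mem_neighborSet] at hw
    rw [hF]
    simp only [Finset.coe_insert, Finset.coe_singleton, Set.mem_insert_iff,
      Set.mem_singleton_iff]
    rcases tree_nbr hw with ⟨h1, h2⟩ | ⟨h1, h2⟩ | ⟨t, ht, h2⟩
    · left; rw [if_neg (by omega)]; exact h2
    · left; rw [if_pos h1]; exact h2
    · right
      interval_cases t <;> simp [h2]
  calc (Fin.val '' ((tree n).neighborSet v)).ncard ≤ (F : Set ℕ).ncard :=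
        Set.ncard_le_ncard hsub (Finset.finite_toSet F)
    _ = F.card := Set.ncard_coe_finset F
    _ ≤ 5 := Finset.card_le_five

lemma tree_deg5 {n : ℕ} {v : Fin n} (hv : Inner v) (hk : kid v 3 < n) : Deg5 (tree n) v := by
  unfold Deg5
  apply le_antisymm (tree_deg v)
  have hk' : ∀ t < 4, kid v t < n := by
    intro t ht
    refine lt_of_le_of_lt ?_ hk
    unfold kid
    split_ifs <;> omega
  have h1n : 1 < n := lt_of_lt_of_le (by norm_num) (kid_ge_two.trans hk.le)
  have hpn : par v < n := by
    rcases Nat.eq_zero_or_pos v.val with h | h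
    · rw [h]; unfold par; simp; omega
    · exact (par_lt h).trans v.isLt
  let g : Fin 5 → Fin n := fun k =>
    if h : k.val = 0 then (if v.val = 0 then ⟨1, h1n⟩ else ⟨par v, hpn⟩)
    else ⟨kid v (k.val - 1), hk' _ (by have := k.isLt; omega)⟩
  have hkd : ∀ t t', kid v t = kid v t' → t = t' := by
    intro t t'
    unfold kid
    split_ifs <;> omega
  have hinj : Function.Injective g := by
    intro a b hab
    have ha := a.isLt
    have hb := b.isLt
    have h0 : ∀ t, (if v.val = 0 then 1 else par v) ≠ kid v t := by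
      intro t
      split_ifs with h
      · have := kid_ge_two (v := v.val) (t := t); omega
      · have := par_lt (i := v.val) (by omega)
        have := kid_gt (v := v.val) (t := t)
        omega
    have hval : ∀ k : Fin 5, (g k).val = if k.val = 0 then (if v.val = 0 then 1 else par v)
        else kid v (k.val - 1) := by
      intro k
      simp only [g]
      split_ifs <;> rfl
    have h1 := congrArg Fin.val hab
    rw [hval, hval] at h1
    apply Fin.ext
    by_cases ha0 : a.val = 0 <;> by_cases hb0 : b.val = 0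
    · omega
    · rw [if_pos ha0, if_neg hb0] at h1
      exact absurd h1 (h0 _)
    · rw [if_neg ha0, if_pos hb0] at h1
      exact absurd h1.symm (h0 _)
    · rw [if_neg ha0, if_neg hb0] at h1
      have := hkd _ _ h1
      omega
  have hsub : g '' Set.univ ⊆ (tree n).neighborSet v := by
    rintro x ⟨k, -, rfl⟩
    rw [SimpleGraph.mem_neighborSet, tree_adj]
    simp only [g]
    split_ifs with h1 h2
    · right
      refine ⟨le_rfl, ?_⟩
      rw [h2]; unfold par; simp
    · left
      exact ⟨by omega, rfl⟩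
    · right
      refine ⟨le_trans (by norm_num) kid_ge_two, ?_⟩
      exact par_kid hv (by have := k.isLt; omega)
  calc 5 = (g '' Set.univ).ncard := by
        rw [Set.ncard_image_of_injective _ hinj, Set.ncard_univ]; simp
    _ ≤ _ := Set.ncard_le_ncard hsub (Set.toFinite _)

end Pool.Agent.Lib.MP_9afe8f_co.LB
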