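import Mathlib

namespace Pool.Agent.Lib.MP_9afe8f_co.LB

open Real

/-- the least possible angle between two edges whose length ratio is `x ≤ 1` -/
noncomputable def f (x : ℝ) : ℝ := Real.arccos (x / 2)

/-- squared distance of the points `A e^{ia}` and `1 - B e^{-ib}` -/
noncomputable def G (A B a b : ℝ) : ℝ :=
  1 + A ^ 2 + B ^ 2 - 2 * A * cos a - 2 * B * cos b + 2 * A * B * cos (a + b)

lemma G_symm (A B a b : ℝ) : G A B a b = G B A b a := by
  unfold G; rw [add_comm b a]; ring

lemma cos_f {x : ℝ} (h0 : 0 ≤ x) (h1 : x ≤ 1) : cos (f x) = x / 2 := by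
  unfold f; exact Real.cos_arccos (by linarith) (by linarith)

lemma f_one : f 1 = π / 3 := by
  unfold f
  rw [← Real.cos_pi_div_three]
  exact Real.arccos_cos (by positivity) (by linarith [Real.pi_pos])

lemma f_zero : f 0 = π / 2 := by
  unfold f; simp

lemma f_anti {x y : ℝ} (h : x ≤ y) : f y ≤ f x := by
  unfold f
  exact Real.arccos_le_arccos (by linarith)

lemma f_ge {x : ℝ} (h1 : x ≤ 1) : π / 3 ≤ f x := by
  rw [← f_one]; exact f_anti h1

lemma f_le {x : ℝ} (h0 : 0 ≤ x) : f x ≤ π / 2 := by
  rw [← f_zero]; exact f_anti h0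

lemma f_lt {x : ℝ} (h0 : 0 < x) : f x < π / 2 := by
  unfold f
  rw [Real.arccos_lt_pi_div_two]
  linarith

lemma f_le_of_cos {x t : ℝ} (h0 : 0 ≤ x) (h1 : x ≤ 1) (ht0 : 0 < t) (ht : t < 2 * π)
    (hc : cos t ≤ x / 2) : f x ≤ t := by
  by_contra hcon
  push Not at hcon
  have h2 := Real.cos_lt_cos_of_nonneg_of_le_pi ht0.le
    (by have := f_le h0; linarith [Real.pi_pos]) hcon
  rw [cos_f h0 h1] at h2
  linarith

lemma sub_strict {x y : ℝ} (hx0 : 0 < x) (hx1 : x < 1) (hy0 : 0 < y) (hy1 : y < 1) :
    π / 3 + f (x * y) < f x + f y := by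
  set a := Real.arcsin (x / 2) with ha
  set b := Real.arcsin (y / 2) with hb
  set c := Real.arcsin (x * y / 2) with hc
  have hfa : f x = π / 2 - a := by unfold f; rw [Real.arccos_eq_pi_div_two_sub_arcsin]
  have hfb : f y = π / 2 - b := by unfold f; rw [Real.arccos_eq_pi_div_two_sub_arcsin]
  have hfc : f (x * y) = π / 2 - c := by unfold f; rw [Real.arccos_eq_pi_div_two_sub_arcsin]
  have hxy : x * y < 1 := by nlinarith
  have hxy0 : 0 < x * y := by positivity
  have sa : sin a = x / 2 := Real.sin_arcsin (by linarith) (by linarith)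
  have sb : sin b = y / 2 := Real.sin_arcsin (by linarith) (by linarith)
  have sc : sin c = x * y / 2 := Real.sin_arcsin (by linarith) (by linarith)
  have h6 : Real.arcsin (1 / 2) = π / 6 := by
    rw [← Real.sin_pi_div_six]
    exact Real.arcsin_sin (by linarith [Real.pi_pos]) (by linarith [Real.pi_pos])
  have ha1 : a < π / 6 := by
    rw [← h6, ha]
    exact Real.arcsin_lt_arcsin (by linarith) (by linarith) (by norm_num)
  have hb1 : b < π / 6 := by
    rw [← h6, hb]
    exact Real.arcsin_lt_arcsin (by linarith) (by linarith) (by norm_num)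
  have ha0 : 0 < a := Real.arcsin_pos.2 (by linarith)
  have hb0 : 0 < b := Real.arcsin_pos.2 (by linarith)
  have hc0 : 0 < c := Real.arcsin_pos.2 (by linarith)
  have hc1 : c ≤ π / 2 := Real.arcsin_le_pi_div_two _
  suffices h : a + b - π / 6 < c by linarith
  have key : sin (a + b - π / 6) < sin c := by
    have h1 : sin c = cos (a - b) - cos (a + b) := by
      rw [Real.cos_sub, Real.cos_add, sc, sa, sb]; ring
    have h2 : cos (π / 3 - (a + b)) < cos (a - b) := by
      rw [← Real.cos_abs (a - b)]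
      apply Real.cos_lt_cos_of_nonneg_of_le_pi (abs_nonneg _) (by linarith [Real.pi_pos])
      rw [abs_lt]
      constructor <;> linarith
    have h3 : sin (a + b - π / 6) = cos (π / 3 - (a + b)) - cos (a + b) := by
      rw [Real.sin_sub, Real.cos_sub, Real.cos_pi_div_six, Real.sin_pi_div_six,
        Real.cos_pi_div_three, Real.sin_pi_div_three]
      ring
    rw [h1, h3]; linarith
  by_contra hcon
  push Not at hcon
  have := Real.strictMonoOn_sin.le_iff_le (a := c) (b := a + b - π / 6)
    ⟨by linarith [Real.pi_pos], hc1⟩ ⟨by linarith [Real.pi_pos], by linarith [Real.pi_pos]⟩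
  rw [← this] at hcon
  linarith

/-- positivity needed for monotonicity of `G` in the first angle -/
lemma sin_pos_aux {B q β s : ℝ} (hB : B = 2 * cos q) (hq : π / 3 ≤ q) (hq2 : q ≤ π / 2)
    (hβ : q ≤ β) (hβ2 : β ≤ π) (hs : π / 3 < s) (hs2 : s < π) :
    0 < sin s - B * sin (s + β) := by
  have hpi := Real.pi_pos
  have hcq0 : 0 ≤ cos q := Real.cos_nonneg_of_mem_Icc ⟨by linarith, hq2⟩
  have hcq1 : cos q ≤ 1 / 2 := by
    rw [← Real.cos_pi_div_three]
    exact Real.cos_le_cos_of_nonneg_of_le_pi (by positivity) (by linarith) hq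
  have hcβ : cos β ≤ cos q := Real.cos_le_cos_of_nonneg_of_le_pi (by linarith) hβ2 hβ
  have hB0 : 0 ≤ B := by rw [hB]; linarith
  have hX : 0 < 1 - B * cos β := by
    have : B * cos β ≤ 1 * (1 / 2) := by
      have h1 : B * cos β ≤ B * cos q := mul_le_mul_of_nonneg_left hcβ hB0
      have h2 : B * cos q ≤ 1 * (1 / 2) := by
        apply mul_le_mul (by rw [hB]; linarith) hcq1 hcq0 (by norm_num)
      linarith
    linarith
  have hsβ : 0 ≤ sin β := Real.sin_nonneg_of_nonneg_of_le_pi (by linarith) hβ2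
  have hss : 0 < sin s := Real.sin_pos_of_pos_of_lt_pi (by linarith) hs2
  have e : sin s - B * sin (s + β) = sin s * (1 - B * cos β) - cos s * (B * sin β) := by
    rw [Real.sin_add]; ring
  rw [e]
  rcases le_or_gt (cos s) 0 with hc | hc
  · have h1 : 0 < sin s * (1 - B * cos β) := mul_pos hss hX
    have h2 : cos s * (B * sin β) ≤ 0 :=
      mul_nonpos_of_nonpos_of_nonneg hc (mul_nonneg hB0 hsβ)
    linarith
  · have h3 : 0 < sin s - √3 * cos s := by
      have h4 : 0 < sin (s - π / 3) :=
        Real.sin_pos_of_pos_of_lt_pi (by linarith) (by linarith)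
      rw [Real.sin_sub, Real.cos_pi_div_three, Real.sin_pi_div_three] at h4
      linarith
    have h5 : 0 ≤ √3 * (1 - B * cos β) - B * sin β := by
      have h6 : cos (β - π / 6) ≤ cos (q - π / 6) :=
        Real.cos_le_cos_of_nonneg_of_le_pi (by linarith) (by linarith) (by linarith)
      have h7 : 2 * cos q * cos (q - π / 6) = cos (2 * q - π / 6) + cos (π / 6) := by
        have e1 : cos (2 * q - π / 6) = cos (q + (q - π / 6)) := by congr 1; ring
        have e2 : cos (π / 6) = cos (q - (q - π / 6)) := by congr 1; ring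
        rw [e1, e2, Real.cos_add, Real.cos_sub q (q - π / 6)]; ring
      have h8 : cos (2 * q - π / 6) ≤ 0 :=
        Real.cos_nonpos_of_pi_div_two_le_of_le (by linarith) (by linarith)
      have h9 : B * cos (β - π / 6) ≤ √3 / 2 := by
        have h10 : B * cos (β - π / 6) ≤ B * cos (q - π / 6) :=
          mul_le_mul_of_nonneg_left h6 hB0
        rw [← Real.cos_pi_div_six]
        rw [hB] at h10 ⊢
        linarith
      rw [Real.cos_sub, Real.cos_pi_div_six, Real.sin_pi_div_six] at h9
      nlinarith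
    have h11 : sin s * (1 - B * cos β) - cos s * (B * sin β)
        = (sin s - √3 * cos s) * (1 - B * cos β)
          + cos s * (√3 * (1 - B * cos β) - B * sin β) := by ring
    rw [h11]
    have h12 := mul_pos h3 hX
    have h13 := mul_nonneg hc.le h5
    linarith

lemma G_mono {A B q α α' β : ℝ} (hA : 0 < A) (hB : B = 2 * cos q) (hq : π / 3 ≤ q)
    (hq2 : q ≤ π / 2) (hβ : q ≤ β) (hβ2 : β ≤ π) (hα : π / 3 ≤ α) (hαα : α < α')
    (hα' : α' ≤ π) : G A B α β < G A B α' β := by
  have hpi := Real.pi_pos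
  have h1 := sin_pos_aux hB hq hq2 hβ hβ2 (s := (α' + α) / 2) (by linarith) (by linarith)
  have h2 : 0 < sin ((α' - α) / 2) :=
    Real.sin_pos_of_pos_of_lt_pi (by linarith) (by linarith)
  have e1 : cos α' - cos α = -2 * sin ((α' + α) / 2) * sin ((α' - α) / 2) :=
    Real.cos_sub_cos _ _
  have e2 : cos (α' + β) - cos (α + β) = -2 * sin ((α' + α) / 2 + β) * sin ((α' - α) / 2) := by
    rw [Real.cos_sub_cos]
    congr 2
    · congr 1; ring
    · congr 1; ring
  have h3 := mul_pos h2 h1
  have h4 := mul_pos hA h3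
  have h5 : G A B α' β - G A B α β = 4 * (A * (sin ((α' - α) / 2) *
      (sin ((α' + α) / 2) - B * sin ((α' + α) / 2 + β)))) := by
    have : G A B α' β - G A B α β = - 2 * A * (cos α' - cos α)
        + 2 * A * B * (cos (α' + β) - cos (α + β)) := by unfold G; ring
    rw [this, e1, e2]; ring
  linarith

/-- value of `G` at the threshold configuration -/
lemma G_base {A B p q : ℝ} (hB : B = 2 * cos q) :
    G A B (π - 2 * q + p) q = 1 + A ^ 2 - 2 * A * cos p := by
  have e1 : cos (π - 2 * q + p) = - cos (2 * q - p) := by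
    rw [← Real.cos_pi_sub]; congr 1; ring
  have e2 : cos (π - 2 * q + p + q) = - cos (q - p) := by
    rw [← Real.cos_pi_sub]; congr 1; ring
  have e3 : 2 * cos q * cos (q - p) = cos (2 * q - p) + cos p := by
    have e4 : cos (2 * q - p) = cos (q + (q - p)) := by congr 1; ring
    have e5 : cos p = cos (q - (q - p)) := by congr 1; ring
    rw [e4, e5, Real.cos_add, Real.cos_sub q (q - p)]; ring
  unfold G
  rw [e1, e2, hB]
  linear_combination (-2 * A) * e3

lemma sin_le_aux {x h : ℝ} (hx : 0 ≤ x) (hh : 0 ≤ h) (hxh : x + 2 * h ≤ π) :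
    sin h ≤ sin (x + h) := by
  have e : sin (x + h) - sin h = 2 * sin (x / 2) * cos (x / 2 + h) := by
    rw [Real.sin_sub_sin]
    congr 2
    · ring_nf
    · ring_nf
  have h1 : 0 ≤ sin (x / 2) :=
    Real.sin_nonneg_of_nonneg_of_le_pi (by linarith) (by linarith [Real.pi_pos])
  have h2 : 0 ≤ cos (x / 2 + h) :=
    Real.cos_nonneg_of_mem_Icc ⟨by linarith [Real.pi_pos], by linarith⟩
  have h3 : 0 ≤ 2 * sin (x / 2) * cos (x / 2 + h) := by positivity
  linarith

/-- relation between the length ratio `A` and the least angle `p` -/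
def Rel (A p : ℝ) : Prop :=
  π / 3 ≤ p ∧ p ≤ π / 2 ∧ ((A ≤ 1 ∧ A = 2 * cos p) ∨ (1 ≤ A ∧ 2 * cos p * A = 1))

lemma thresh_aux {A B p q h : ℝ} (hA : 0 < A) (hR : Rel A p) (hB : B = 2 * cos q)
    (hq : π / 3 ≤ q) (hq2 : q ≤ π / 2) (hBA : B ≤ A) (hh : 0 ≤ h) (hh2 : 2 * h ≤ π - 2 * q) :
    B * sin (q + h) ≤ A * sin (2 * q - p + h) := by
  have hpi := Real.pi_pos
  obtain ⟨hp1, hp2, hR⟩ := hR
  have e1 : 2 * cos q * sin (q + h) = sin (2 * q + h) + sin h := by
    have e2 : sin (2 * q + h) = sin ((q + h) + q) := by congr 1; ring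
    have e3 : sin h = sin ((q + h) - q) := by congr 1; ring
    rw [e2, e3, Real.sin_add (q + h) q, Real.sin_sub]; ring
  rcases hR with ⟨hA1, hAp⟩ | ⟨hA1, hAp⟩
  · have hpq : p ≤ q := by
      by_contra hcon
      push Not at hcon
      have := Real.cos_lt_cos_of_nonneg_of_le_pi (by linarith : (0 : ℝ) ≤ q) (by linarith) hcon
      rw [hB, hAp] at hBA
      linarith
    have e2 : 2 * cos p * sin (2 * q - p + h) = sin (2 * q + h) + sin (2 * (q - p) + h) := by
      have e2 : sin (2 * q + h) = sin ((2 * q - p + h) + p) := by congr 1; ring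
      have e3 : sin (2 * (q - p) + h) = sin ((2 * q - p + h) - p) := by congr 1; ring
      rw [e2, e3, Real.sin_add (2 * q - p + h) p, Real.sin_sub (2 * q - p + h) p]; ring
    have e3 := sin_le_aux (x := 2 * (q - p)) (h := h) (by linarith) hh (by linarith)
    rw [hB, hAp, e1, e2]
    linarith
  · have hcp : 0 < cos p := by
      by_contra hcon
      push Not at hcon
      have : 2 * cos p * A ≤ 0 := by
        apply mul_nonpos_of_nonpos_of_nonneg _ hA.le
        linarith
      linarith
    have hcp1 : 2 * cos p ≤ 1 := by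
      have : cos p ≤ cos (π / 3) :=
        Real.cos_le_cos_of_nonneg_of_le_pi (by positivity) (by linarith) hp1
      rw [Real.cos_pi_div_three] at this
      linarith
    have e4 : 2 * cos p * sin (2 * q + h) = sin (2 * q + h + p) + sin (2 * q - p + h) := by
      have e3 : sin (2 * q - p + h) = sin ((2 * q + h) - p) := by congr 1; ring
      rw [e3, Real.sin_add (2 * q + h) p, Real.sin_sub (2 * q + h) p]; ring
    have e5 : sin (2 * q + h + p) = - sin ((2 * q + p - π) + h) := by
      rw [show (2 * q + p - π) + h = (2 * q + h + p) - π by ring, Real.sin_sub_pi, neg_neg]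
    have e6 := sin_le_aux (x := 2 * q + p - π) (h := h) (by linarith) hh (by linarith)
    have hsh : 0 ≤ sin h := Real.sin_nonneg_of_nonneg_of_le_pi hh (by linarith)
    have e7 : (2 * cos p) * (B * sin (q + h)) ≤ sin (2 * q - p + h) := by
      have : (2 * cos p) * (B * sin (q + h)) = (2 * cos p) * (sin (2 * q + h) + sin h) := by
        rw [hB, e1]
      rw [this, mul_add, e4, e5]
      nlinarith
    have e8 : B * sin (q + h) = A * ((2 * cos p) * (B * sin (q + h))) := by
      linear_combination (- (B * sin (q + h))) * hAp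
    rw [e8]
    exact mul_le_mul_of_nonneg_left e7 hA.le

end Pool.Agent.Lib.MP_9afe8f_co.LB
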